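import Mathlib

/-!
# Definitions for MP_172f05_al: hyperbolic groups, quasi-convex subgroups, acylindrical actions on
trees, domination
-/

namespace Pool.Agent.Work.MP_172f05_al

/-- Geodesic triangles of the graph `Γ` are `δ`-slim: every vertex of a side is at distance at
most `δ` from some vertex of the other two sides. -/
def IsSlim {V : Type*} (Γ : SimpleGraph V) (δ : ℕ) : Prop :=
  ∀ (x y z : V) (p : Γ.Walk x y) (q : Γ.Walk y z) (r : Γ.Walk x z),
    p.length = Γ.dist x y → q.length = Γ.dist y z → r.length = Γ.dist x z →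
    ∀ v ∈ p.support, ∃ w, (w ∈ q.support ∨ w ∈ r.support) ∧ Γ.dist v w ≤ δ

/-- `G` is (Gromov) hyperbolic: it has a finite generating set whose Cayley graph has uniformly
slim geodesic triangles. -/
def IsHyperbolicGroup (G : Type*) [Group G] : Prop :=
  ∃ S : Set G, S.Finite ∧ Subgroup.closure S = ⊤ ∧ ∃ δ : ℕ, IsSlim (SimpleGraph.mulCayley S) δ

/-- `H` is quasi-convex in `G`: for some finite generating set `S` of `G` and some `R`, every
vertex of every geodesic of the Cayley graph joining two points of `H` is at distance at most `R`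
from `H`. -/
def IsQuasiconvex {G : Type*} [Group G] (H : Subgroup G) : Prop :=
  ∃ S : Set G, S.Finite ∧ Subgroup.closure S = ⊤ ∧ ∃ R : ℕ,
    ∀ x ∈ H, ∀ y ∈ H, ∀ p : (SimpleGraph.mulCayley S).Walk x y,
      p.length = (SimpleGraph.mulCayley S).dist x y →
      ∀ v ∈ p.support, ∃ h ∈ H, (SimpleGraph.mulCayley S).dist v h ≤ R

section Action

variable (G : Type*) [Group G] {V : Type*} [MulAction G V]

/-- The graph `T` on the `G`-set `V` is a (simplicial) tree and `G` acts on it by simplicial
automorphisms without inversions. -/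
structure IsTreeAction (T : SimpleGraph V) : Prop where
  isTree : T.IsTree
  adj_smul : ∀ (g : G) (u v : V), T.Adj u v → T.Adj (g • u) (g • v)
  no_inversion : ∀ (g : G) (u v : V), T.Adj u v → ¬ (g • u = v ∧ g • v = u)

/-- `(k, C)`-acylindricity: every edge path (walk without repeated vertices) of length at least
`k` has a pointwise stabiliser with at most `C` elements. -/
def IsAcylindricalWith (T : SimpleGraph V) (k C : ℕ) : Prop :=
  ∀ (u v : V) (p : T.Walk u v), p.IsPath → k ≤ p.length →
    {g : G | ∀ x ∈ p.support, g • x = x}.encard ≤ C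

/-- Acylindricity: `(k, C)`-acylindricity for some `k ≥ 0` and some `C > 0`. -/
def IsAcylindrical (T : SimpleGraph V) : Prop :=
  ∃ k C : ℕ, 0 < C ∧ IsAcylindricalWith G T k C

/-- `ℓ` is an axis of `g`: a bi-infinite geodesic of `T` on which `g` acts as a nontrivial
translation.  (`g` is a hyperbolic isometry of the tree `T` iff it has an axis.) -/
def IsAxis (T : SimpleGraph V) (g : G) (ℓ : ℤ → V) : Prop :=
  (∀ i j : ℤ, T.dist (ℓ i) (ℓ j) = (i - j).natAbs) ∧ ∃ k : ℤ, k ≠ 0 ∧ ∀ i : ℤ, g • ℓ i = ℓ (i + k)

/-- The lines `ℓ` and `ℓ'` have a common end: some ray of `ℓ` is also a ray of `ℓ'` (the signs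
`ε`, `ε'` are the directions of the rays). -/
def HaveCommonEnd {V : Type*} (ℓ ℓ' : ℤ → V) : Prop :=
  ∃ ε ε' : ℤ, (ε = 1 ∨ ε = -1) ∧ (ε' = 1 ∨ ε' = -1) ∧
    ∃ m n : ℤ, ∀ k : ℕ, ℓ (m + ε * k) = ℓ' (n + ε' * k)

/-- The action is non-elementary: there are two elements of `G` acting as hyperbolic isometries
whose axes have no common end. -/
def IsNonElementary (T : SimpleGraph V) : Prop :=
  ∃ (g h : G) (ℓ ℓ' : ℤ → V), IsAxis G T g ℓ ∧ IsAxis G T h ℓ' ∧ ¬ HaveCommonEnd ℓ ℓ'

/-- The stabiliser of the edge with end points `u` and `v` (for an action without inversions it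
fixes both end points). -/
def edgeStabilizer (u v : V) : Subgroup G :=
  MulAction.stabilizer G u ⊓ MulAction.stabilizer G v

/-- The action on `T'` dominates the action on `T`: there is a `G`-equivariant surjective
morphism of graphs `T' → T` (an edge is mapped to an edge or collapsed to a vertex). -/
def Dominates {V' : Type*} [MulAction G V'] (T' : SimpleGraph V') (T : SimpleGraph V) : Prop :=
  ∃ f : V' → V, Function.Surjective f ∧ (∀ (g : G) (v : V'), f (g • v) = g • f v) ∧
    ∀ u v : V', T'.Adj u v → T.Adj (f u) (f v) ∨ f u = f v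

end Action

end Pool.Agent.Work.MP_172f05_al
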