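import Mathlib

/-!
# The free product `A = ℤ/3 * ℤ/3` and its normal forms
(helper39, for MP_172f05_al)
-/

namespace Pool.Agent.Work.MP_172f05_al.FP

/-- letters -/
inductive Lt
  | a | a' | b | b'
  deriving DecidableEq, Fintype

/-- inverse letter -/
def Lt.inv : Lt → Lt
  | .a => .a'
  | .a' => .a
  | .b => .b'
  | .b' => .b

/-- type of a letter -/
def Lt.isA : Lt → Bool
  | .a => true
  | .a' => true
  | .b => false
  | .b' => false

theorem lt_inv_inv (s : Lt) : s.inv.inv = s := by cases s <;> rfl
theorem isA_inv (s : Lt) : s.inv.isA = s.isA := by cases s <;> rfl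

/-- reduced lists -/
abbrev Red (l : List Lt) : Prop := l.IsChain (fun s t => s.isA ≠ t.isA)

/-- relators -/
def rels : Set (FreeGroup Bool) := {FreeGroup.of true ^ 3, FreeGroup.of false ^ 3}

/-- The free product of two cyclic groups of order three. -/
abbrev A := PresentedGroup rels

/-- first generator -/
def α : A := PresentedGroup.of true
/-- second generator -/
def β : A := PresentedGroup.of false

theorem α3 : α ^ 3 = 1 := by
  have : PresentedGroup.mk rels (FreeGroup.of true ^ 3) = 1 :=
    PresentedGroup.one_of_mem (Or.inl rfl)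
  rw [map_pow] at this
  exact this

theorem β3 : β ^ 3 = 1 := by
  have : PresentedGroup.mk rels (FreeGroup.of false ^ 3) = 1 :=
    PresentedGroup.one_of_mem (Or.inr rfl)
  rw [map_pow] at this
  exact this

theorem αα : α * α = α⁻¹ := by
  have h := α3
  rw [pow_succ, pow_two] at h
  rw [eq_inv_iff_mul_eq_one, h]

theorem ββ : β * β = β⁻¹ := by
  have h := β3
  rw [pow_succ, pow_two] at h
  rw [eq_inv_iff_mul_eq_one, h]

/-- homomorphisms out of `A` -/
def lift {G : Type*} [Group G] (x y : G) (hx : x ^ 3 = 1) (hy : y ^ 3 = 1) : A →* G :=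
  PresentedGroup.toGroup (f := fun c => if c then x else y) (by
    rintro r (rfl | hr)
    · simpa using hx
    · rw [Set.mem_singleton_iff] at hr
      rw [hr]
      simpa using hy)

theorem lift_α {G : Type*} [Group G] (x y : G) (hx : x ^ 3 = 1) (hy : y ^ 3 = 1) :
    lift x y hx hy α = x := by
  simp [lift, α]

theorem lift_β {G : Type*} [Group G] (x y : G) (hx : x ^ 3 = 1) (hy : y ^ 3 = 1) :
    lift x y hx hy β = y := by
  simp [lift, β]

theorem closure_top (K : Subgroup A) (h1 : α ∈ K) (h2 : β ∈ K) (g : A) : g ∈ K := by
  apply PresentedGroup.generated_by rels K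
  intro j
  cases j
  · exact h2
  · exact h1

/-- value of a letter -/
def vl : Lt → A
  | .a => α
  | .a' => α⁻¹
  | .b => β
  | .b' => β⁻¹

theorem vl_inv (s : Lt) : vl s.inv = (vl s)⁻¹ := by cases s <;> simp [vl, Lt.inv]

/-- value of a list -/
def val : List Lt → A
  | [] => 1
  | s :: l => vl s * val l

theorem val_nil : val [] = 1 := rfl
theorem val_cons (s : Lt) (l : List Lt) : val (s :: l) = vl s * val l := rfl

theorem val_append (l l' : List Lt) : val (l ++ l') = val l * val l' := by
  induction l with
  | nil => rw [List.nil_append, val_nil, one_mul]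
  | cons s l ih => rw [List.cons_append, val_cons, val_cons, ih, mul_assoc]

/-- formal inverse of a list -/
def invl (l : List Lt) : List Lt := (l.map Lt.inv).reverse

theorem val_invl (l : List Lt) : val (invl l) = (val l)⁻¹ := by
  induction l with
  | nil => simp [invl, val]
  | cons s l ih =>
    have : invl (s :: l) = invl l ++ [s.inv] := by simp [invl]
    rw [this, val_append, ih, val_cons, val_cons, val_nil, mul_one, vl_inv, mul_inv_rev]

theorem length_invl (l : List Lt) : (invl l).length = l.length := by simp [invl]

theorem red_invl {l : List Lt} (h : Red l) : Red (invl l) := by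
  unfold invl Red
  rw [List.isChain_reverse, List.isChain_map]
  refine h.imp ?_
  intro s t hst
  simp only [isA_inv]
  exact hst.symm

/-! ### The action on reduced lists -/

/-- left multiplication by `α` on lists -/
def mulA : List Lt → List Lt
  | .a :: t => .a' :: t
  | .a' :: t => t
  | [] => [.a]
  | .b :: t => .a :: .b :: t
  | .b' :: t => .a :: .b' :: t

/-- left multiplication by `β` on lists -/
def mulB : List Lt → List Lt
  | .b :: t => .b' :: t
  | .b' :: t => t
  | [] => [.b]
  | .a :: t => .b :: .a :: t
  | .a' :: t => .b :: .a' :: t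

theorem red_mulA {l : List Lt} (h : Red l) : Red (mulA l) := by
  match l, h with
  | [], _ => simp [mulA]
  | [.a], _ => simp [mulA]
  | [.a'], _ => simp [mulA]
  | .a :: s :: t, h => simp only [mulA, Red, List.isChain_cons_cons] at h ⊢; exact h
  | .a' :: s :: t, h => simp only [mulA, Red, List.isChain_cons_cons] at h ⊢; exact h.2
  | .b :: t, h => simp only [mulA, Red, List.isChain_cons_cons] at h ⊢; exact ⟨by simp [Lt.isA], h⟩
  | .b' :: t, h => simp only [mulA, Red, List.isChain_cons_cons] at h ⊢; exact ⟨by simp [Lt.isA], h⟩

theorem red_mulB {l : List Lt} (h : Red l) : Red (mulB l) := by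
  match l, h with
  | [], _ => simp [mulB]
  | [.b], _ => simp [mulB]
  | [.b'], _ => simp [mulB]
  | .b :: s :: t, h => simp only [mulB, Red, List.isChain_cons_cons] at h ⊢; exact h
  | .b' :: s :: t, h => simp only [mulB, Red, List.isChain_cons_cons] at h ⊢; exact h.2
  | .a :: t, h => simp only [mulB, Red, List.isChain_cons_cons] at h ⊢; exact ⟨by simp [Lt.isA], h⟩
  | .a' :: t, h => simp only [mulB, Red, List.isChain_cons_cons] at h ⊢; exact ⟨by simp [Lt.isA], h⟩

theorem mulA3 {l : List Lt} (h : Red l) : mulA (mulA (mulA l)) = l := by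
  match l, h with
  | [], _ => rfl
  | [.a], _ => rfl
  | [.a'], _ => rfl
  | .a :: .a :: t, h => exact absurd rfl (List.isChain_cons_cons.1 h).1
  | .a :: .a' :: t, h => exact absurd rfl (List.isChain_cons_cons.1 h).1
  | .a :: .b :: t, h => rfl
  | .a :: .b' :: t, h => rfl
  | .a' :: .a :: t, h => exact absurd rfl (List.isChain_cons_cons.1 h).1
  | .a' :: .a' :: t, h => exact absurd rfl (List.isChain_cons_cons.1 h).1
  | .a' :: .b :: t, h => rfl
  | .a' :: .b' :: t, h => rfl
  | .b :: t, h => rfl
  | .b' :: t, h => rfl

theorem mulB3 {l : List Lt} (h : Red l) : mulB (mulB (mulB l)) = l := by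
  match l, h with
  | [], _ => rfl
  | [.b], _ => rfl
  | [.b'], _ => rfl
  | .b :: .b :: t, h => exact absurd rfl (List.isChain_cons_cons.1 h).1
  | .b :: .b' :: t, h => exact absurd rfl (List.isChain_cons_cons.1 h).1
  | .b :: .a :: t, h => rfl
  | .b :: .a' :: t, h => rfl
  | .b' :: .b :: t, h => exact absurd rfl (List.isChain_cons_cons.1 h).1
  | .b' :: .b' :: t, h => exact absurd rfl (List.isChain_cons_cons.1 h).1
  | .b' :: .a :: t, h => rfl
  | .b' :: .a' :: t, h => rfl
  | .a :: t, h => rfl
  | .a' :: t, h => rfl

/-- reduced lists -/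
abbrev RL := {l : List Lt // Red l}

/-- permutation of the reduced lists given by `α` -/
def permA : Equiv.Perm RL where
  toFun l := ⟨mulA l.1, red_mulA l.2⟩
  invFun l := ⟨mulA (mulA l.1), red_mulA (red_mulA l.2)⟩
  left_inv l := Subtype.ext (mulA3 l.2)
  right_inv l := Subtype.ext (mulA3 l.2)

/-- permutation of the reduced lists given by `β` -/
def permB : Equiv.Perm RL where
  toFun l := ⟨mulB l.1, red_mulB l.2⟩
  invFun l := ⟨mulB (mulB l.1), red_mulB (red_mulB l.2)⟩
  left_inv l := Subtype.ext (mulB3 l.2)
  right_inv l := Subtype.ext (mulB3 l.2)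

/-- the action of `A` on reduced lists -/
def ρ : A →* Equiv.Perm RL := lift permA permB
  (by ext1 l; exact Subtype.ext (mulA3 l.2)) (by ext1 l; exact Subtype.ext (mulB3 l.2))

theorem ρ_α : ρ α = permA := lift_α _ _ _ _
theorem ρ_β : ρ β = permB := lift_β _ _ _ _

theorem ρ_α_apply (l : RL) : (ρ α l).1 = mulA l.1 := by rw [ρ_α]; rfl
theorem ρ_β_apply (l : RL) : (ρ β l).1 = mulB l.1 := by rw [ρ_β]; rfl
theorem ρ_α_inv_apply (l : RL) : (ρ α⁻¹ l).1 = mulA (mulA l.1) := by rw [map_inv, ρ_α]; rfl
theorem ρ_β_inv_apply (l : RL) : (ρ β⁻¹ l).1 = mulB (mulB l.1) := by rw [map_inv, ρ_β]; rfl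

/-- normal form -/
def nf (g : A) : List Lt := (ρ g ⟨[], by simp [Red]⟩).1

theorem red_nf (g : A) : Red (nf g) := (ρ g ⟨[], by simp [Red]⟩).2

theorem val_mulA (l : List Lt) : val (mulA l) = α * val l := by
  match l with
  | [] => rfl
  | .a :: t => simp only [mulA, val_cons, vl]; rw [← mul_assoc, αα]
  | .a' :: t => simp only [mulA, val_cons, vl]; group
  | .b :: t => rfl
  | .b' :: t => rfl

theorem val_mulB (l : List Lt) : val (mulB l) = β * val l := by
  match l with
  | [] => rfl
  | .b :: t => simp only [mulB, val_cons, vl]; rw [← mul_assoc, ββ]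
  | .b' :: t => simp only [mulB, val_cons, vl]; group
  | .a :: t => rfl
  | .a' :: t => rfl

theorem val_ρ (g : A) (l : RL) : val (ρ g l).1 = g * val l.1 := by
  let K : Subgroup A :=
    { carrier := {g | ∀ l : RL, val (ρ g l).1 = g * val l.1}
      mul_mem' := by
        intro x y hx hy l
        rw [map_mul, Equiv.Perm.mul_apply, hx, hy, mul_assoc]
      one_mem' := by intro l; rw [map_one, one_mul]; rfl
      inv_mem' := by
        intro x hx l
        have h := hx (ρ x⁻¹ l)
        rw [← Equiv.Perm.mul_apply, ← map_mul, mul_inv_cancel, map_one, Equiv.Perm.one_apply] at h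
        rw [h, inv_mul_cancel_left] }
  exact closure_top K (fun l => by rw [ρ_α_apply, val_mulA]) (fun l => by rw [ρ_β_apply, val_mulB])
    g l

theorem val_nf (g : A) : val (nf g) = g := by
  rw [nf, val_ρ, val_nil, mul_one]

theorem ρ_cons (s : Lt) (t : List Lt) (h : Red (s :: t)) :
    (ρ (vl s) ⟨t, h.tail⟩).1 = s :: t := by
  cases s with
  | a =>
    rw [vl, ρ_α_apply]
    match t, h with
    | [], _ => rfl
    | .a :: t, h => exact absurd rfl (List.isChain_cons_cons.1 h).1
    | .a' :: t, h => exact absurd rfl (List.isChain_cons_cons.1 h).1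
    | .b :: t, h => rfl
    | .b' :: t, h => rfl
  | a' =>
    rw [vl, ρ_α_inv_apply]
    match t, h with
    | [], _ => rfl
    | .a :: t, h => exact absurd rfl (List.isChain_cons_cons.1 h).1
    | .a' :: t, h => exact absurd rfl (List.isChain_cons_cons.1 h).1
    | .b :: t, h => rfl
    | .b' :: t, h => rfl
  | b =>
    rw [vl, ρ_β_apply]
    match t, h with
    | [], _ => rfl
    | .b :: t, h => exact absurd rfl (List.isChain_cons_cons.1 h).1
    | .b' :: t, h => exact absurd rfl (List.isChain_cons_cons.1 h).1
    | .a :: t, h => rfl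
    | .a' :: t, h => rfl
  | b' =>
    rw [vl, ρ_β_inv_apply]
    match t, h with
    | [], _ => rfl
    | .b :: t, h => exact absurd rfl (List.isChain_cons_cons.1 h).1
    | .b' :: t, h => exact absurd rfl (List.isChain_cons_cons.1 h).1
    | .a :: t, h => rfl
    | .a' :: t, h => rfl

theorem nf_val {l : List Lt} (h : Red l) : nf (val l) = l := by
  induction l with
  | nil => rw [val_nil, nf, map_one]; rfl
  | cons s t ih =>
    have h1 : ρ (val t) ⟨[], by simp [Red]⟩ = ⟨t, h.tail⟩ := Subtype.ext (ih h.tail)
    rw [val_cons, nf, map_mul, Equiv.Perm.mul_apply, h1]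
    exact ρ_cons s t h

theorem nf_eq {g : A} {l : List Lt} (h : Red l) (hv : val l = g) : nf g = l := by
  rw [← hv, nf_val h]

theorem nf_injective : Function.Injective nf := by
  intro x y h
  rw [← val_nf x, ← val_nf y, h]

theorem nf_one : nf 1 = [] := nf_eq (by simp [Red]) rfl

theorem nf_inv (g : A) : nf g⁻¹ = invl (nf g) :=
  nf_eq (red_invl (red_nf g)) (by rw [val_invl, val_nf])

/-- length -/
def len (g : A) : ℕ := (nf g).length

theorem len_one : len 1 = 0 := by rw [len, nf_one]; rfl

theorem len_inv (g : A) : len g⁻¹ = len g := by rw [len, nf_inv, length_invl, len]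

theorem len_eq_zero {g : A} (h : len g = 0) : g = 1 := by
  rw [len, List.length_eq_zero_iff] at h
  rw [← val_nf g, h, val_nil]

theorem len_val {l : List Lt} (h : Red l) : len (val l) = l.length := by rw [len, nf_val h]

/-! ### Common prefixes -/

/-- length of the longest common prefix -/
def lcp : List Lt → List Lt → ℕ
  | s :: p, t :: q => if s = t then lcp p q + 1 else 0
  | _, _ => 0

theorem lcp_nil_left (q : List Lt) : lcp [] q = 0 := by cases q <;> rfl
theorem lcp_nil_right (p : List Lt) : lcp p [] = 0 := by cases p <;> rfl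
theorem lcp_cons_self (s : Lt) (p q : List Lt) : lcp (s :: p) (s :: q) = lcp p q + 1 := by
  simp [lcp]
theorem lcp_cons_ne {s t : Lt} (h : s ≠ t) (p q : List Lt) : lcp (s :: p) (t :: q) = 0 := by
  simp [lcp, h]

theorem lcp_comm (p q : List Lt) : lcp p q = lcp q p := by
  induction p generalizing q with
  | nil => rw [lcp_nil_left, lcp_nil_right]
  | cons s p ih =>
    cases q with
    | nil => rw [lcp_nil_left, lcp_nil_right]
    | cons t q =>
      by_cases h : s = t
      · subst h; rw [lcp_cons_self, lcp_cons_self, ih]
      · rw [lcp_cons_ne h, lcp_cons_ne (Ne.symm h)]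

theorem lcp_self (p : List Lt) : lcp p p = p.length := by
  induction p with
  | nil => rfl
  | cons s p ih => rw [lcp_cons_self, ih]; rfl

theorem lcp_le_left (p q : List Lt) : lcp p q ≤ p.length := by
  induction p generalizing q with
  | nil => rw [lcp_nil_left]; simp
  | cons s p ih =>
    cases q with
    | nil => rw [lcp_nil_right]; simp
    | cons t q =>
      by_cases h : s = t
      · subst h; rw [lcp_cons_self]; simpa using ih q
      · rw [lcp_cons_ne h]; simp

theorem lcp_le_right (p q : List Lt) : lcp p q ≤ q.length := by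
  rw [lcp_comm]; exact lcp_le_left q p

theorem lcp_min (p q r : List Lt) : min (lcp p q) (lcp q r) ≤ lcp p r := by
  induction q generalizing p r with
  | nil => rw [lcp_nil_right]; simp
  | cons t q ih =>
    cases p with
    | nil => rw [lcp_nil_left]; simp
    | cons s p =>
      cases r with
      | nil => rw [lcp_nil_right]; simp
      | cons u r =>
        by_cases h1 : s = t
        · by_cases h2 : t = u
          · subst h1; subst h2
            rw [lcp_cons_self, lcp_cons_self, lcp_cons_self]
            have := ih p r
            omega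
          · rw [lcp_cons_ne h2]; simp
        · rw [lcp_cons_ne h1]; simp

theorem take_lcp (p q : List Lt) (n : ℕ) (h : n ≤ lcp p q) : p.take n = q.take n := by
  induction n generalizing p q with
  | zero => simp
  | succ n ih =>
    cases p with
    | nil => rw [lcp_nil_left] at h; omega
    | cons s p =>
      cases q with
      | nil => rw [lcp_nil_right] at h; omega
      | cons t q =>
        by_cases h1 : s = t
        · subst h1
          rw [lcp_cons_self] at h
          rw [List.take_succ_cons, List.take_succ_cons, ih p q (by omega)]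
        · rw [lcp_cons_ne h1] at h; omega

theorem red_append {p q : List Lt} (hp : Red p) (hq : Red q)
    (h : ∀ s ∈ p.getLast?, ∀ t ∈ q.head?, s.isA ≠ t.isA) : Red (p ++ q) :=
  hp.append hq h

theorem same_type {s t : Lt} (h : s.isA = t.isA) (hne : s ≠ t) : (vl s)⁻¹ * vl t = vl s := by
  cases s <;> cases t <;> simp [Lt.isA] at h hne ⊢ <;> simp only [vl]
  · rw [← mul_inv_rev, αα, inv_inv]
  · rw [inv_inv, αα]
  · rw [← mul_inv_rev, ββ, inv_inv]
  · rw [inv_inv, ββ]

theorem getLast?_invl (s : Lt) (p : List Lt) : (invl (s :: p)).getLast? = some s.inv := by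
  simp [invl]

theorem getLast?_invl' (p : List Lt) : ∀ s ∈ (invl p).getLast?, ∃ t ∈ p.head?, s = t.inv := by
  intro s hs
  cases p with
  | nil => simp [invl] at hs
  | cons t p =>
    rw [getLast?_invl] at hs
    refine ⟨t, by simp, ?_⟩
    simpa using hs.symm

/-- Structure of the product `(val p)⁻¹ * val q`. -/
theorem prod_structure (p q : List Lt) (hp : Red p) (hq : Red q) :
    ∃ (r : List Lt) (k : ℕ), k ≤ q.length ∧ nf ((val p)⁻¹ * val q) = r ++ q.drop k ∧
      r.length ≤ p.length ∧ p.length + q.length ≤ (r ++ q.drop k).length + 2 * lcp p q + 1 := by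
  induction p generalizing q with
  | nil =>
    refine ⟨[], 0, by simp, ?_, by simp, ?_⟩
    · rw [val_nil, inv_one, one_mul, nf_val hq]; rfl
    · rw [lcp_nil_left]; simp
  | cons s p ih =>
    cases q with
    | nil =>
      refine ⟨invl (s :: p), 0, by simp, ?_, by rw [length_invl], ?_⟩
      · rw [val_nil, mul_one, ← val_invl, nf_val (red_invl hp)]; simp
      · rw [lcp_nil_right]; simp [length_invl]
    | cons t q =>
      by_cases hst : s = t
      · subst hst
        obtain ⟨r, k, hk, h1, h2, h3⟩ := ih q hp.tail hq.tail
        refine ⟨r, k + 1, by simpa using hk, ?_, by simp; omega, ?_⟩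
        · rw [List.drop_succ_cons, ← h1, val_cons, val_cons]
          congr 1
          group
        · rw [List.drop_succ_cons, lcp_cons_self]
          simp only [List.length_cons]
          omega
      · by_cases hty : s.isA = t.isA
        · -- merge
          refine ⟨invl p ++ [s], 1, by simp, ?_, by simp [length_invl], ?_⟩
          · have h1 : (val (s :: p))⁻¹ * val (t :: q) = val ((invl p ++ [s]) ++ q) := by
              rw [val_append, val_append, val_invl, val_cons, val_cons, val_cons, val_nil, mul_one,
                mul_inv_rev, mul_assoc, ← mul_assoc (vl s)⁻¹, same_type hty hst, mul_assoc]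
            rw [h1, List.drop_succ_cons, List.drop_zero]
            apply nf_val
            have hp1 : Red (invl p ++ [s]) := by
              refine red_append (red_invl hp.tail) (by simp [Red]) ?_
              intro u hu v hv
              obtain ⟨w, hw, rfl⟩ := getLast?_invl' p u hu
              simp only [List.head?_cons, Option.mem_def, Option.some.injEq] at hv
              subst hv
              rw [isA_inv]
              have := hp.rel_head? hw
              exact fun h => this h.symm
            refine red_append hp1 hq.tail ?_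
            intro u hu v hv
            simp only [List.getLast?_append, List.getLast?_singleton, Option.some_or,
              Option.mem_def, Option.some.injEq] at hu
            subst hu
            rw [hty]
            exact hq.rel_head? hv
          · rw [lcp_cons_ne hst]
            simp [length_invl]
            omega
        · refine ⟨invl (s :: p), 0, by simp, ?_, by rw [length_invl], ?_⟩
          · rw [← val_invl, ← val_append, List.drop_zero]
            apply nf_val
            refine red_append (red_invl hp) hq ?_
            intro u hu v hv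
            rw [getLast?_invl] at hu
            simp only [List.head?_cons, Option.mem_def, Option.some.injEq] at hu hv
            subst hu; subst hv
            rw [isA_inv]
            exact hty
          · rw [lcp_cons_ne hst]
            simp [length_invl]

/-- **Lower bound for the length of a product.** -/
theorem len_lcp (x y : A) : len x + len y ≤ len (x⁻¹ * y) + 2 * lcp (nf x) (nf y) + 1 := by
  obtain ⟨r, k, _, h1, _, h3⟩ := prod_structure (nf x) (nf y) (red_nf x) (red_nf y)
  rw [val_nf, val_nf] at h1
  rw [len, len, len, h1]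
  exact h3

/-- the tail of a product -/
theorem nf_mul (g y : A) : ∃ (r : List Lt) (k : ℕ), k ≤ (nf y).length ∧
    nf (g * y) = r ++ (nf y).drop k ∧ r.length ≤ len g := by
  obtain ⟨r, k, hk, h1, h2, _⟩ := prod_structure (nf g⁻¹) (nf y) (red_nf _) (red_nf y)
  rw [val_nf, val_nf, inv_inv] at h1
  refine ⟨r, k, hk, h1, ?_⟩
  have h3 : (nf g⁻¹).length = len g := len_inv g
  omega

/-- subadditivity of the length -/
theorem len_mul (x y : A) : len (x * y) ≤ len x + len y := by
  obtain ⟨r, k, _, h1, h2⟩ := nf_mul x y
  rw [len, h1, List.length_append, List.length_drop]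
  have : (nf y).length = len y := rfl
  omega

end Pool.Agent.Work.MP_172f05_al.FP
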