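import Mathlib
import Pool.Agent.Work.MP_172f05_al.FP

/-!
# The endomorphism `ψ` and the small overlaps of `ψ(A)`, `ψ²(A)`
(helper39, for MP_172f05_al)
-/

namespace Pool.Agent.Work.MP_172f05_al.Psi

open FP

/-- `ba` -/
def w0 : A := β * α

/-- `ψ(b)` -/
def βt : A := w0 * β * w0⁻¹

theorem βt3 : βt ^ 3 = 1 := by
  rw [βt, conj_pow, β3]; group

/-- the endomorphism -/
def ψ : A →* A := lift α βt α3 βt3

theorem ψ_α : ψ α = α := lift_α _ _ _ _
theorem ψ_β : ψ β = βt := lift_β _ _ _ _

/-- blocks -/
def blk : Lt → List Lt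
  | .a => [.a]
  | .a' => [.a']
  | .b => [.b, .a, .b, .a', .b']
  | .b' => [.b, .a, .b', .a', .b']

/-- the substitution -/
def sub (l : List Lt) : List Lt := l.flatMap blk

theorem sub_nil : sub [] = [] := rfl
theorem sub_cons (s : Lt) (l : List Lt) : sub (s :: l) = blk s ++ sub l := by
  simp [sub]

theorem val_blk (s : Lt) : val (blk s) = ψ (vl s) := by
  cases s with
  | a => simp [blk, val, vl, ψ_α]
  | a' => simp [blk, val, vl, ψ_α]
  | b => simp only [blk, val, vl, ψ_β, βt, w0]; group
  | b' => simp only [blk, val, vl, map_inv, ψ_β, βt, w0]; group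

theorem val_sub (l : List Lt) : val (sub l) = ψ (val l) := by
  induction l with
  | nil => rw [sub_nil, val_nil, map_one]
  | cons s l ih => rw [sub_cons, val_append, val_blk, ih, val_cons, map_mul]

theorem red_sub {l : List Lt} (h : Red l) : Red (sub l) := by
  induction l with
  | nil => simp [sub, Red]
  | cons s l ih =>
    rw [sub_cons]
    have h1 : Red (blk s) := by cases s <;> simp [blk, Red, Lt.isA]
    refine red_append h1 (ih h.tail) ?_
    intro u hu v hv
    have h2 : u.isA = s.isA := by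
      cases s <;> simp [blk] at hu <;> subst hu <;> rfl
    cases l with
    | nil => simp [sub] at hv
    | cons t l =>
      have h3 : v.isA = t.isA := by
        rw [sub_cons] at hv
        cases t <;> simp [blk] at hv <;> subst hv <;> rfl
      rw [h2, h3]
      exact h.rel_head? (by simp)

theorem nf_ψ (g : A) : nf (ψ g) = sub (nf g) :=
  nf_eq (red_sub (red_nf g)) (by rw [val_sub, val_nf])

theorem length_sub (l : List Lt) : l.length ≤ (sub l).length := by
  induction l with
  | nil => simp
  | cons s l ih =>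
    rw [sub_cons, List.length_append, List.length_cons]
    have : 1 ≤ (blk s).length := by cases s <;> simp [blk]
    omega

theorem len_ψ (g : A) : len g ≤ len (ψ g) := by
  rw [len, len, nf_ψ]; exact length_sub _

theorem ψ_injective : Function.Injective ψ := by
  rw [injective_iff_map_eq_one]
  intro g hg
  apply len_eq_zero
  have := len_ψ g
  rw [hg, len_one] at this
  omega

/-- number of letters of type `b` -/
def nb : List Lt → ℕ
  | [] => 0
  | .a :: l => nb l
  | .a' :: l => nb l
  | .b :: l => nb l + 1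
  | .b' :: l => nb l + 1

theorem nb_sub (l : List Lt) : nb (sub l) = 3 * nb l := by
  induction l with
  | nil => rfl
  | cons s l ih =>
    rw [sub_cons]
    cases s <;> simp [blk, nb, ih] <;> ring

theorem length_sub_eq (l : List Lt) : (sub l).length = l.length + 4 * nb l := by
  induction l with
  | nil => rfl
  | cons s l ih =>
    rw [sub_cons]
    cases s <;> simp [blk, nb, ih] <;> ring

theorem length_le_nb {l : List Lt} (h : Red l) : l.length ≤ 2 * nb l + 1 := by
  match l, h with
  | [], _ => simp [nb]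
  | [s], _ => simp
  | s :: t :: l, h =>
    have ih : l.length ≤ 2 * nb l + 1 := length_le_nb h.tail.tail
    have hne := (List.isChain_cons_cons.1 h).1
    cases s <;> cases t <;> simp [Lt.isA] at hne <;> simp [nb] <;> omega

/-- Expansion: `len (ψ x) = len x + 4 nb`. -/
theorem len_ψ_eq (x : A) : len (ψ x) = len x + 4 * nb (nf x) := by
  rw [len, len, nf_ψ, length_sub_eq]

theorem nb_ψ (x : A) : nb (nf (ψ x)) = 3 * nb (nf x) := by rw [nf_ψ, nb_sub]

theorem len_le_nb (x : A) : len x ≤ 2 * nb (nf x) + 1 := length_le_nb (red_nf x)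

/-! ### The automaton -/

/-- transitions -/
def step : Fin 3 → Lt → Option (Fin 3)
  | 0, .a => some 0
  | 0, .a' => some 0
  | 0, .b => some 1
  | 0, .b' => none
  | 1, .b' => some 0
  | 1, .b => none
  | 1, .a => some 2
  | 1, .a' => none
  | 2, .a' => some 1
  | 2, .a => none
  | 2, .b => some 2
  | 2, .b' => some 2

/-- runs -/
def run : Fin 3 → List Lt → Option (Fin 3)
  | i, [] => some i
  | i, s :: l => (step i s).bind (fun j => run j l)

theorem run_append (i : Fin 3) (l l' : List Lt) :
    run i (l ++ l') = (run i l).bind (fun j => run j l') := by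
  induction l generalizing i with
  | nil => rfl
  | cons s l ih =>
    rw [List.cons_append, run, run]
    cases h : step i s with
    | none => rfl
    | some j => simp only [Option.bind_some]; exact ih j

theorem run_sub (l : List Lt) : run 0 (sub l) = some 0 := by
  induction l with
  | nil => rfl
  | cons s l ih =>
    rw [sub_cons, run_append]
    have : run 0 (blk s) = some 0 := by cases s <;> rfl
    rw [this]
    exact ih

/-- coset representatives of the edges of the subtree -/
def ws : Fin 3 → A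
  | 0 => 1
  | 1 => β
  | 2 => β * α

/-- the subgroup `N = ψ(A)` -/
def N : Subgroup A := ψ.range

theorem α_N : α ∈ N := ⟨α, ψ_α⟩
theorem βt_N : βt ∈ N := ⟨β, ψ_β⟩
theorem ψ_N (x : A) : ψ x ∈ N := ⟨x, rfl⟩

theorem step_sound {i j : Fin 3} {s : Lt} (h : step i s = some j) {y : A}
    (hy : ∃ n ∈ N, y = n * ws i) : ∃ n ∈ N, y * vl s = n * ws j := by
  obtain ⟨n, hn, rfl⟩ := hy
  match i, s, h with
  | 0, .a, h =>
    cases h
    exact ⟨n * α, N.mul_mem hn α_N, by simp [ws, vl]⟩
  | 0, .a', h =>
    cases h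
    exact ⟨n * α⁻¹, N.mul_mem hn (N.inv_mem α_N), by simp [ws, vl]⟩
  | 0, .b, h => cases h; exact ⟨n, hn, by simp [ws, vl]⟩
  | 1, .b', h => cases h; exact ⟨n, hn, by simp [ws, vl]⟩
  | 1, .a, h => cases h; exact ⟨n, hn, by simp [ws, vl, mul_assoc]⟩
  | 2, .a', h => cases h; exact ⟨n, hn, by simp only [ws, vl]; group⟩
  | 2, .b, h =>
    cases h
    exact ⟨n * βt, N.mul_mem hn βt_N, by simp only [ws, vl, βt, w0]; group⟩
  | 2, .b', h =>
    cases h
    exact ⟨n * βt⁻¹, N.mul_mem hn (N.inv_mem βt_N), by simp only [ws, vl, βt, w0]; group⟩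

theorem run_sound {i j : Fin 3} {l : List Lt} (h : run i l = some j) {y : A}
    (hy : ∃ n ∈ N, y = n * ws i) : ∃ n ∈ N, y * val l = n * ws j := by
  induction l generalizing i y with
  | nil =>
    rw [run, Option.some.injEq] at h
    subst h
    rw [val_nil, mul_one]; exact hy
  | cons s l ih =>
    rw [run] at h
    cases hs : step i s with
    | none => rw [hs] at h; simp at h
    | some k =>
      rw [hs, Option.bind_some] at h
      rw [val_cons, ← mul_assoc]
      exact ih h (step_sound hs hy)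

theorem pair_run : ∀ i j : Fin 3, i ≠ j → ∀ s t u : Lt, s.isA ≠ t.isA → t.isA ≠ u.isA →
    run i [s, t, u] = none ∨ run j [s, t, u] = none := by
  intro i j hij s t u h1 h2
  fin_cases i <;> fin_cases j <;> first | exact absurd rfl hij | skip
  all_goals
    cases s <;> cases t <;> simp [Lt.isA] at h1 <;> cases u <;> simp [Lt.isA] at h2 <;>
      simp [run, step]

/-- **Small overlaps for `N`.** -/
theorem overlap_N {g : A} (hg : g ∉ N) (x x' : A) :
    lcp (nf (ψ x)) (nf (g * ψ x')) ≤ len g + 2 := by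
  by_contra hcon
  push Not at hcon
  obtain ⟨r, k, hk, h1, h2⟩ := nf_mul g (ψ x')
  set q := nf (ψ x') with hq
  set P := nf (ψ x) with hP
  rw [h1] at hcon
  have hlen := lcp_le_right P (r ++ q.drop k)
  rw [List.length_append] at hlen
  have htake := take_lcp P (r ++ q.drop k) (r.length + 3) (by omega)
  have h3 : 3 ≤ (q.drop k).length := by omega
  obtain ⟨s, t, u, rest, hstu⟩ : ∃ s t u rest, q.drop k = s :: t :: u :: rest := by
    match hd : q.drop k, h3 with
    | s :: t :: u :: rest, _ => exact ⟨s, t, u, rest, rfl⟩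
    | [], h => simp at h
    | [s], h => simp at h
    | [s, t], h => simp at h
  have hP3 : P.take (r.length + 3) = r ++ [s, t, u] := by
    rw [htake, hstu, List.take_append]
    simp
  -- first run
  have hrunP : run 0 P = some 0 := by rw [hP, nf_ψ]; exact run_sub _
  have hrunq : run 0 q = some 0 := by rw [hq, nf_ψ]; exact run_sub _
  have hP' : P = (r ++ [s, t, u]) ++ P.drop (r.length + 3) := by
    rw [← hP3, List.take_append_drop]
  have hq' : q = (q.take k ++ [s, t, u]) ++ rest := by
    have : q.drop k = [s, t, u] ++ rest := hstu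
    rw [List.append_assoc, ← this, List.take_append_drop]
  obtain ⟨i, hi, hi2⟩ : ∃ i, run 0 r = some i ∧ run i [s, t, u] ≠ none := by
    rw [hP', run_append, run_append] at hrunP
    cases h4 : run 0 r with
    | none => rw [h4] at hrunP; simp at hrunP
    | some i =>
      refine ⟨i, rfl, fun h5 => ?_⟩
      rw [h4, Option.bind_some, h5] at hrunP
      simp at hrunP
  obtain ⟨j, hj, hj2⟩ : ∃ j, run 0 (q.take k) = some j ∧ run j [s, t, u] ≠ none := by
    rw [hq', run_append, run_append] at hrunq
    cases h4 : run 0 (q.take k) with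
    | none => rw [h4] at hrunq; simp at hrunq
    | some j =>
      refine ⟨j, rfl, fun h5 => ?_⟩
      rw [h4, Option.bind_some, h5] at hrunq
      simp at hrunq
  have hred : Red (q.drop k) := (red_nf (ψ x')).drop k
  rw [hstu] at hred
  have hst := (List.isChain_cons_cons.1 hred).1
  have htu := (List.isChain_cons_cons.1 hred.tail).1
  by_cases hij : i = j
  · -- same state: `g ∈ N`
    subst hij
    apply hg
    obtain ⟨n, hn, hn'⟩ := run_sound hi (y := 1) ⟨1, N.one_mem, by simp [ws]⟩
    obtain ⟨m, hm, hm'⟩ := run_sound hj (y := 1) ⟨1, N.one_mem, by simp [ws]⟩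
    rw [one_mul] at hn' hm'
    have h5 : val r * val (q.drop k) = g * (val (q.take k) * val (q.drop k)) := by
      rw [← val_append, ← h1, val_nf, ← val_append, List.take_append_drop, hq, val_nf]
    have h6 : val r = g * val (q.take k) := by
      rw [← mul_assoc] at h5
      exact mul_right_cancel h5
    rw [hn', hm'] at h6
    have h7 : g = n * m⁻¹ := by
      have h8 : n * ws i = g * m * ws i := by rw [h6]; group
      have h9 := mul_right_cancel h8
      rw [h9]; group
    rw [h7]
    exact N.mul_mem hn (N.inv_mem hm)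
  · rcases pair_run i j hij s t u hst htu with h | h
    · exact hi2 h
    · exact hj2 h

theorem lcp_sub (p q : List Lt) : lcp (sub p) (sub q) ≤ 5 * lcp p q + 2 := by
  induction p generalizing q with
  | nil => rw [sub_nil, lcp_nil_left]; omega
  | cons s p ih =>
    cases q with
    | nil => rw [sub_nil, lcp_nil_right]; omega
    | cons t q =>
      have ihq := ih q
      rw [sub_cons, sub_cons]
      cases s <;> cases t <;>
        simp only [blk, List.cons_append, List.nil_append, lcp, if_true, if_false, reduceCtorEq] <;>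
        omega

/-- the subgroup `H = ψ²(A)` -/
def H : Subgroup A := N.map ψ

theorem mem_H {h : A} : h ∈ H ↔ ∃ x, h = ψ (ψ x) := by
  constructor
  · rintro ⟨_, ⟨x, rfl⟩, rfl⟩; exact ⟨x, rfl⟩
  · rintro ⟨x, rfl⟩; exact ⟨ψ x, ⟨x, rfl⟩, rfl⟩

theorem H_le_N : H ≤ N := by
  intro h hh
  obtain ⟨x, rfl⟩ := mem_H.1 hh
  exact ψ_N _

/-- **Small overlaps for `H`.** -/
theorem overlap_H {g : A} (hg : g ∉ H) {h h' : A} (hh : h ∈ H) (hh' : h' ∈ H) :
    lcp (nf h) (nf (g * h')) ≤ 5 * len g + 12 := by
  obtain ⟨x, rfl⟩ := mem_H.1 hh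
  obtain ⟨x', rfl⟩ := mem_H.1 hh'
  by_cases hgN : g ∈ N
  · obtain ⟨g', rfl⟩ := hgN
    have hg' : g' ∉ N := by
      rintro ⟨y, rfl⟩
      exact hg (mem_H.2 ⟨y, rfl⟩)
    have h1 := overlap_N hg' x x'
    have h2 : ψ g' * ψ (ψ x') = ψ (g' * ψ x') := by rw [map_mul]
    change lcp (nf (ψ (ψ x))) (nf (ψ g' * ψ (ψ x'))) ≤ 5 * len (ψ g') + 12
    rw [h2, nf_ψ (ψ x), nf_ψ (g' * ψ x')]
    have h3 := lcp_sub (nf (ψ x)) (nf (g' * ψ x'))
    have h4 := len_ψ g'
    omega
  · have := overlap_N hgN (ψ x) (ψ x')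
    omega

/-- **Long overlaps with `H` contain a block.** -/
theorem block_prefix {h γ : A} (hh : h ∈ H) (hl : 18 ≤ lcp (nf h) (nf γ)) :
    ∃ (x γ' : A), nf γ = nf (ψ (ψ x)) ++ nf γ' ∧ γ = ψ (ψ x) * γ' ∧ len x ≤ 2 ∧
      len (ψ x) ≤ 6 ∧ 17 ≤ len (ψ (ψ x)) ∧ len (ψ (ψ x)) = len (ψ x) + 12 := by
  obtain ⟨y, rfl⟩ := mem_H.1 hh
  -- the first block
  have key : ∀ (x : A) (l : List Lt), Red (nf x ++ l) → nf y = nf x ++ l → len x ≤ 2 →
      nb (nf x) = 1 → len (ψ (ψ x)) ≤ 18 → ∃ (x γ' : A), nf γ = nf (ψ (ψ x)) ++ nf γ' ∧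
      γ = ψ (ψ x) * γ' ∧ len x ≤ 2 ∧
      len (ψ x) ≤ 6 ∧ 17 ≤ len (ψ (ψ x)) ∧ len (ψ (ψ x)) = len (ψ x) + 12 := by
    intro x l hred hy hx hnb h18
    have e1 := len_ψ_eq x
    have e2 := len_ψ_eq (ψ x)
    rw [nb_ψ, hnb] at e2
    rw [hnb] at e1
    have e3 : 1 ≤ len x := by
      rcases Nat.eq_zero_or_pos (len x) with h | h
      · rw [len_eq_zero h, nf_one] at hnb
        simp [nb] at hnb
      · exact h
    have e4 : nf (ψ (ψ y)) = nf (ψ (ψ x)) ++ sub (sub l) := by
      rw [nf_ψ, nf_ψ, hy, nf_ψ (ψ x), nf_ψ x]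
      simp [sub, List.flatMap_append]
    have e5 : (nf γ).take (len (ψ (ψ x))) = nf (ψ (ψ x)) := by
      rw [← take_lcp _ _ _ (h18.trans hl), e4]
      rw [len, List.take_left']
      rfl
    have e6 : nf γ = nf (ψ (ψ x)) ++ (nf γ).drop (len (ψ (ψ x))) := by
      conv_lhs => rw [← List.take_append_drop (len (ψ (ψ x))) (nf γ), e5]
    have e7 : Red ((nf γ).drop (len (ψ (ψ x)))) := (red_nf γ).drop _
    refine ⟨x, val ((nf γ).drop (len (ψ (ψ x)))), ?_, ?_, hx, by omega, by omega, by omega⟩
    · rw [nf_val e7]; exact e6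
    · conv_lhs => rw [← val_nf γ, e6, val_append, val_nf]
  have hlen : 18 ≤ (nf (ψ (ψ y))).length := hl.trans (lcp_le_left _ _)
  have hred := red_nf y
  rw [nf_ψ, nf_ψ] at hlen
  have nf_single : ∀ s : Lt, nf (vl s) = [s] := by
    intro s
    apply nf_eq (by simp [Red])
    simp [val]
  match hy : nf y, hred with
  | [], _ => rw [hy] at hlen; simp [sub] at hlen
  | [.a], _ => rw [hy] at hlen; simp [sub, blk] at hlen
  | [.a'], _ => rw [hy] at hlen; simp [sub, blk] at hlen
  | .b :: l, h =>
    apply key (vl .b) l (by rw [nf_single]; exact h) (by rw [nf_single]; exact hy)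
      (by rw [len, nf_single]; simp) (by rw [nf_single]; rfl)
    rw [len, nf_ψ, nf_ψ, nf_single]
    simp [sub, blk]
  | .b' :: l, h =>
    apply key (vl .b') l (by rw [nf_single]; exact h) (by rw [nf_single]; exact hy)
      (by rw [len, nf_single]; simp) (by rw [nf_single]; rfl)
    rw [len, nf_ψ, nf_ψ, nf_single]
    simp [sub, blk]
  | s :: t :: l, h =>
    by_cases hs : s.isA = true
    · have hst := (List.isChain_cons_cons.1 h).1
      have hr : Red [s, t] := by simp only [Red, List.isChain_cons_cons]; exact ⟨hst, by simp⟩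
      have e1 : nf (val [s, t]) = [s, t] := nf_val hr
      apply key (val [s, t]) l (by rw [e1]; exact h) (by rw [e1]; exact hy)
        (by rw [len, e1]; simp)
      · rw [e1]
        cases s <;> cases t <;> simp [Lt.isA] at hs hst <;> rfl
      · rw [len, nf_ψ, nf_ψ, e1]
        cases s <;> cases t <;> simp [Lt.isA] at hs hst <;> simp [sub, blk]
    · -- `s` is of type `b`
      apply key (vl s) (t :: l) (by rw [nf_single]; exact h) (by rw [nf_single]; exact hy)
        (by rw [len, nf_single]; simp)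
      · rw [nf_single]
        cases s <;> simp [Lt.isA] at hs <;> rfl
      · rw [len, nf_ψ, nf_ψ, nf_single]
        cases s <;> simp [Lt.isA] at hs <;> simp [sub, blk]

end Pool.Agent.Work.MP_172f05_al.Psi
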