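import Mathlib
import Pool.Agent.Work.MP_172f05_al.Psi

/-!
# The HNN extension `G` and the structure of words with value in `A`
(helper39, for MP_172f05_al)
-/

namespace Pool.Agent.Work.MP_172f05_al.Hnn

open FP Psi

/-- the isomorphism `N ≃ H` given by `ψ` -/
noncomputable def φ : N ≃* H := N.equivMapOfInjective ψ ψ_injective

theorem φ_coe (n : N) : (φ n : A) = ψ n := Subgroup.coe_equivMapOfInjective_apply _ _ _ _

/-- The group `G = ⟨A, t ∣ t n t⁻¹ = ψ(n), n ∈ N⟩`. -/
abbrev G := HNNExtension A N H φ

/-- embedding of `A` -/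
noncomputable def ι : A →* G := HNNExtension.of
/-- stable letter -/
noncomputable def τ : G := HNNExtension.t

theorem ι_injective : Function.Injective ι := HNNExtension.of_injective φ

theorem τ_ι {n : A} (hn : n ∈ N) : τ * ι n = ι (ψ n) * τ := by
  have h := HNNExtension.t_mul_of (φ := φ) ⟨n, hn⟩
  rw [φ_coe] at h
  exact h

theorem τ_conj {n : A} (hn : n ∈ N) : τ * ι n * τ⁻¹ = ι (ψ n) := by
  rw [τ_ι hn]; group

theorem ψψ_τ (x : A) : ι (ψ (ψ x)) * τ = τ * ι (ψ x) := (τ_ι (ψ_N x)).symm

/-! ### Tokens -/

/-- tokens -/
inductive Tok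
  | g (x : A)
  | up
  | dn

/-- value of a token -/
noncomputable def Tok.v : Tok → G
  | .g x => ι x
  | .up => τ
  | .dn => τ⁻¹

/-- value of a list of tokens -/
noncomputable def tval : List Tok → G
  | [] => 1
  | s :: l => s.v * tval l

theorem tval_nil : tval [] = 1 := rfl
theorem tval_cons (s : Tok) (l : List Tok) : tval (s :: l) = s.v * tval l := rfl
theorem tval_append (l l' : List Tok) : tval (l ++ l') = tval l * tval l' := by
  induction l with
  | nil => rw [List.nil_append, tval_nil, one_mul]
  | cons s l ih => rw [List.cons_append, tval_cons, tval_cons, ih, mul_assoc]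

/-- only `A`-tokens -/
def AOnly (l : List Tok) : Prop := ∀ s ∈ l, ∃ x, s = Tok.g x

/-- product of the `A`-tokens -/
noncomputable def aval : List Tok → A
  | [] => 1
  | .g x :: l => x * aval l
  | .up :: l => aval l
  | .dn :: l => aval l

theorem tval_of_AOnly {l : List Tok} (h : AOnly l) : tval l = ι (aval l) := by
  induction l with
  | nil => rw [tval_nil, aval, map_one]
  | cons s l ih =>
    obtain ⟨x, rfl⟩ := h s (by simp)
    rw [tval_cons, ih (fun t ht => h t (by simp [ht])), aval, map_mul]
    rfl

/-- sign of a stable token: `T 1 = up`, `T (-1) = dn` -/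
def T (u : ℤˣ) : Tok := if u = 1 then .up else .dn

theorem T_one : T 1 = .up := rfl
theorem T_neg_one : T (-1) = .dn := rfl

/-- conversion to words of the HNN extension -/
def conv : List Tok → A × List (ℤˣ × A)
  | [] => (1, [])
  | .g x :: l => (x * (conv l).1, (conv l).2)
  | .up :: l => (1, (1, (conv l).1) :: (conv l).2)
  | .dn :: l => (1, (-1, (conv l).1) :: (conv l).2)

theorem conv_val (l : List Tok) :
    tval l = ι (conv l).1 *
      ((conv l).2.map (fun x => (HNNExtension.t : G) ^ (x.1 : ℤ) * HNNExtension.of x.2)).prod := by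
  induction l with
  | nil => simp [conv, tval]
  | cons s l ih =>
    cases s with
    | g x =>
      rw [tval_cons, ih]
      simp only [conv, Tok.v, map_mul, mul_assoc]
    | up =>
      rw [tval_cons, ih]
      simp only [conv, Tok.v, map_one, one_mul, List.map_cons, List.prod_cons, mul_assoc,
        Units.val_one, zpow_one]
      rfl
    | dn =>
      rw [tval_cons, ih]
      simp only [conv, Tok.v, map_one, one_mul, List.map_cons, List.prod_cons, mul_assoc,
        Units.val_neg, Units.val_one, zpow_neg, zpow_one]
      rfl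

/-- a pinch -/
def Pinch (l : List Tok) : Prop :=
  ∃ (p m q : List Tok), AOnly m ∧
    ((l = p ++ Tok.up :: (m ++ Tok.dn :: q) ∧ aval m ∈ N) ∨
     (l = p ++ Tok.dn :: (m ++ Tok.up :: q) ∧ aval m ∈ H))

theorem Pinch.cons {l : List Tok} (h : Pinch l) (s : Tok) : Pinch (s :: l) := by
  obtain ⟨p, m, q, hm, h⟩ := h
  refine ⟨s :: p, m, q, hm, ?_⟩
  rcases h with ⟨h1, h2⟩ | ⟨h1, h2⟩
  · left; exact ⟨by rw [h1]; rfl, h2⟩
  · right; exact ⟨by rw [h1]; rfl, h2⟩

theorem conv_spec (l : List Tok) : ∃ m rest : List Tok, l = m ++ rest ∧ AOnly m ∧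
    aval m = (conv l).1 ∧ ((rest = [] ∧ (conv l).2 = []) ∨
      (∃ r h' L', rest = Tok.up :: r ∧ (conv l).2 = (1, h') :: L') ∨
      (∃ r h' L', rest = Tok.dn :: r ∧ (conv l).2 = (-1, h') :: L')) := by
  induction l with
  | nil => exact ⟨[], [], rfl, by simp [AOnly], rfl, Or.inl ⟨rfl, rfl⟩⟩
  | cons s l ih =>
    obtain ⟨m, rest, h1, h2, h3, h4⟩ := ih
    cases s with
    | g x =>
      refine ⟨Tok.g x :: m, rest, by rw [h1]; rfl, ?_, ?_, h4⟩
      · intro t ht
        rcases List.mem_cons.1 ht with rfl | ht
        · exact ⟨x, rfl⟩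
        · exact h2 t ht
      · rw [aval, h3]; rfl
    | up => exact ⟨[], Tok.up :: l, rfl, by simp [AOnly], rfl, Or.inr (Or.inl ⟨l, _, _, rfl, rfl⟩)⟩
    | dn => exact ⟨[], Tok.dn :: l, rfl, by simp [AOnly], rfl, Or.inr (Or.inr ⟨l, _, _, rfl, rfl⟩)⟩

theorem conv_chain (l : List Tok) (h : ¬ Pinch l) :
    (conv l).2.IsChain (fun a b => a.2 ∈ HNNExtension.toSubgroup N H a.1 → a.1 = b.1) := by
  induction l with
  | nil => simp [conv]
  | cons s l ih =>
    have ih' := ih (fun hp => h (hp.cons s))
    obtain ⟨m, rest, h1, h2, h3, h4⟩ := conv_spec l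
    cases s with
    | g x => exact ih'
    | up =>
      change ((1, (conv l).1) :: (conv l).2).IsChain _
      rcases h4 with ⟨_, h6⟩ | ⟨r, h', L', _, h6⟩ | ⟨r, h', L', h5, h6⟩
      · rw [h6]; simp
      · rw [h6] at ih' ⊢
        rw [List.isChain_cons_cons]
        exact ⟨fun _ => rfl, ih'⟩
      · rw [h6] at ih' ⊢
        rw [List.isChain_cons_cons]
        refine ⟨fun hmem => ?_, ih'⟩
        exfalso
        apply h
        refine ⟨[], m, r, h2, Or.inl ⟨?_, ?_⟩⟩
        · rw [h1, h5]; rfl
        · rw [h3]
          exact hmem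
    | dn =>
      change ((-1, (conv l).1) :: (conv l).2).IsChain _
      rcases h4 with ⟨_, h6⟩ | ⟨r, h', L', h5, h6⟩ | ⟨r, h', L', _, h6⟩
      · rw [h6]; simp
      · rw [h6] at ih' ⊢
        rw [List.isChain_cons_cons]
        refine ⟨fun hmem => ?_, ih'⟩
        exfalso
        apply h
        refine ⟨[], m, r, h2, Or.inr ⟨?_, ?_⟩⟩
        · rw [h1, h5]; rfl
        · rw [h3]
          exact hmem
      · rw [h6] at ih' ⊢
        rw [List.isChain_cons_cons]
        exact ⟨fun _ => rfl, ih'⟩

theorem conv_nil_AOnly {l : List Tok} (h : (conv l).2 = []) : AOnly l := by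
  induction l with
  | nil => simp [AOnly]
  | cons s l ih =>
    cases s with
    | g x =>
      intro t ht
      rcases List.mem_cons.1 ht with rfl | ht
      · exact ⟨x, rfl⟩
      · exact ih h t ht
    | up => simp [conv] at h
    | dn => simp [conv] at h

/-- **Britton's lemma** for lists of tokens. -/
theorem britton {l : List Tok} (hl : ∃ x, tval l = ι x) : AOnly l ∨ Pinch l := by
  by_contra hcon
  rw [not_or] at hcon
  have hc := conv_chain l hcon.2
  let w : HNNExtension.NormalWord.ReducedWord A N H :=
    { head := (conv l).1, toList := (conv l).2, chain := hc }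
  have h1 : w.prod φ = tval l := by rw [conv_val]; rfl
  obtain ⟨x, hx⟩ := hl
  have h2 := HNNExtension.ReducedWord.toList_eq_nil_of_mem_of_range φ w
    (by rw [h1]; exact ⟨x, hx.symm⟩)
  exact hcon.1 (conv_nil_AOnly h2)

/-! ### Upper words -/

/-- concatenations of `A`-tokens and up-excursions -/
inductive Up : List Tok → Prop
  | nil : Up []
  | cons (x : A) (l : List Tok) : Up l → Up (Tok.g x :: l)
  | exc (inner l : List Tok) : (∃ n ∈ N, tval inner = ι n) → Up l →
      Up (Tok.up :: (inner ++ Tok.dn :: l))

theorem up_of_AOnly {l : List Tok} (h : AOnly l) : Up l := by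
  induction l with
  | nil => exact Up.nil
  | cons s l ih =>
    obtain ⟨x, rfl⟩ := h s (by simp)
    exact Up.cons x l (ih (fun t ht => h t (by simp [ht])))

theorem tval_replace {m : List Tok} {y : A} (hy : tval (Tok.up :: (m ++ [Tok.dn])) = ι y)
    (p q : List Tok) : tval (p ++ Tok.up :: (m ++ Tok.dn :: q)) = tval (p ++ Tok.g y :: q) := by
  have h1 : p ++ Tok.up :: (m ++ Tok.dn :: q) = p ++ ((Tok.up :: (m ++ [Tok.dn])) ++ q) := by simp
  rw [h1, tval_append, tval_append, hy, tval_append, tval_cons]
  rfl

theorem expand {l : List Tok} (hl : Up l) {m : List Tok} {y : A}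
    (hm : ∃ n ∈ N, tval m = ι n) (hy : tval (Tok.up :: (m ++ [Tok.dn])) = ι y) :
    ∀ p q, l = p ++ Tok.g y :: q → Up (p ++ Tok.up :: (m ++ Tok.dn :: q)) := by
  induction hl with
  | nil => intro p q h; simp at h
  | cons x l h ih =>
    intro p q hpq
    cases p with
    | nil =>
      rw [List.nil_append, List.cons.injEq] at hpq
      rw [List.nil_append, ← hpq.2]
      exact Up.exc m l hm h
    | cons s p =>
      rw [List.cons_append, List.cons.injEq] at hpq
      rw [List.cons_append, ← hpq.1]
      exact Up.cons x _ (ih p q hpq.2)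
  | exc inner l hin h ih =>
    intro p q hpq
    cases p with
    | nil => simp at hpq
    | cons s p =>
      rw [List.cons_append, List.cons.injEq] at hpq
      obtain ⟨rfl, hpq⟩ := hpq
      rw [List.append_eq_append_iff] at hpq
      rcases hpq with ⟨c, h1, h2⟩ | ⟨c, h1, h2⟩
      · cases c with
        | nil => simp at h2
        | cons d c =>
          rw [List.cons_append, List.cons.injEq] at h2
          obtain ⟨rfl, h2⟩ := h2
          rw [h1]
          have := Up.exc inner _ hin (ih c q h2)
          simpa using this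
      · cases c with
        | nil => simp at h2
        | cons d c =>
          rw [List.cons_append, List.cons.injEq] at h2
          obtain ⟨rfl, h2⟩ := h2
          rw [h2]
          have hin' : ∃ n ∈ N, tval (p ++ Tok.up :: (m ++ Tok.dn :: c)) = ι n := by
            rw [tval_replace hy, ← h1]; exact hin
          have := Up.exc _ l hin' h
          simpa using this

/-- number of stable tokens -/
def nT : List Tok → ℕ
  | [] => 0
  | .g _ :: l => nT l
  | .up :: l => nT l + 1
  | .dn :: l => nT l + 1

theorem nT_append (l l' : List Tok) : nT (l ++ l') = nT l + nT l' := by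
  induction l with
  | nil => simp [nT]
  | cons s l ih => cases s <;> simp [nT, ih] <;> ring

/-- **Decomposition lemma.** -/
theorem decomp (l : List Tok) (hl : ∃ x, tval l = ι x) :
    Up l ∨ ∃ p z q, l = p ++ Tok.dn :: (z ++ Tok.up :: q) ∧ Up z ∧ ∃ h ∈ H, tval z = ι h := by
  induction hn : nT l using Nat.strong_induction_on generalizing l with
  | _ n ih =>
    rcases britton hl with h | ⟨p, m, q, hm, h⟩
    · exact Or.inl (up_of_AOnly h)
    · rcases h with ⟨h1, h2⟩ | ⟨h1, h2⟩
      · -- up pinch: contract it
        have hmv : tval m = ι (aval m) := tval_of_AOnly hm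
        have hy : tval (Tok.up :: (m ++ [Tok.dn])) = ι (ψ (aval m)) := by
          rw [tval_cons, tval_append, hmv, tval_cons, tval_nil, mul_one, ← mul_assoc]
          exact τ_conj h2
        have hm' : ∃ n ∈ N, tval m = ι n := ⟨_, h2, hmv⟩
        set Y := ψ (aval m) with hY
        have hval : tval (p ++ Tok.g Y :: q) = tval l := by rw [h1, tval_replace hy]
        have hlt : nT (p ++ Tok.g Y :: q) < n := by
          rw [← hn, h1, nT_append, nT_append, nT, nT, nT_append, nT]
          omega
        rcases ih _ hlt (p ++ Tok.g Y :: q) (by rw [hval]; exact hl) rfl with h3 | h3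
        · left
          rw [h1]
          exact expand h3 hm' hy p q rfl
        · right
          obtain ⟨p1, z, q1, h4, h5, h6⟩ := h3
          rw [List.append_eq_append_iff] at h4
          rcases h4 with ⟨c, h7, h8⟩ | ⟨c, h7, h8⟩
          · cases c with
            | nil => simp at h8
            | cons d c =>
              rw [List.cons_append, List.cons.injEq] at h8
              obtain ⟨rfl, h8⟩ := h8
              refine ⟨p ++ Tok.up :: (m ++ Tok.dn :: c), z, q1, ?_, h5, h6⟩
              rw [h1, h8]; simp
          · cases c with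
            | nil => simp at h8
            | cons d c =>
              rw [List.cons_append, List.cons.injEq] at h8
              obtain ⟨rfl, h8⟩ := h8
              rw [List.append_eq_append_iff] at h8
              rcases h8 with ⟨e, h9, h10⟩ | ⟨e, h9, h10⟩
              · cases e with
                | nil => simp at h10
                | cons f e =>
                  rw [List.cons_append, List.cons.injEq] at h10
                  obtain ⟨rfl, h10⟩ := h10
                  refine ⟨p1, z, e ++ Tok.up :: (m ++ Tok.dn :: q), ?_, h5, h6⟩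
                  rw [h1, h7, h9]; simp
              · cases e with
                | nil => simp at h10
                | cons f e =>
                  rw [List.cons_append, List.cons.injEq] at h10
                  obtain ⟨rfl, h10⟩ := h10
                  refine ⟨p1, c ++ Tok.up :: (m ++ Tok.dn :: e), q1, ?_, ?_, ?_⟩
                  · rw [h1, h7, h10]; simp
                  · exact expand h5 hm' hy c e h9
                  · rw [tval_replace hy, ← h9]; exact h6
      · right
        exact ⟨p, m, q, h1, up_of_AOnly hm, aval m, h2, tval_of_AOnly hm⟩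

/-! ### Factors -/

/-- factors of an upper word -/
inductive Fac
  | g (x : A)
  | e (inner : List Tok) (n : A)

/-- tokens of a factor -/
def Fac.toks : Fac → List Tok
  | .g x => [Tok.g x]
  | .e inner _ => Tok.up :: (inner ++ [Tok.dn])

/-- value of a factor -/
def Fac.v : Fac → A
  | .g x => x
  | .e _ n => ψ n

/-- validity of a factor -/
def Fac.ok : Fac → Prop
  | .g _ => True
  | .e inner n => n ∈ N ∧ tval inner = ι n

theorem tval_toks {f : Fac} (h : f.ok) : tval f.toks = ι f.v := by
  cases f with
  | g x => simp [Fac.toks, tval, Tok.v, Fac.v]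
  | e inner n =>
    rw [Fac.toks, tval_cons, tval_append, h.2, tval_cons, tval_nil, mul_one, ← mul_assoc]
    exact τ_conj h.1

theorem factors {l : List Tok} (h : Up l) :
    ∃ F : List Fac, (∀ f ∈ F, f.ok) ∧ l = F.flatMap Fac.toks := by
  induction h with
  | nil => exact ⟨[], by simp, rfl⟩
  | cons x l h ih =>
    obtain ⟨F, h1, h2⟩ := ih
    refine ⟨Fac.g x :: F, ?_, ?_⟩
    · intro f hf
      rcases List.mem_cons.1 hf with rfl | hf
      · trivial
      · exact h1 f hf
    · rw [List.flatMap_cons, ← h2]; rfl
  | exc inner l hin h ih =>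
    obtain ⟨F, h1, h2⟩ := ih
    obtain ⟨n, hn, hn'⟩ := hin
    refine ⟨Fac.e inner n :: F, ?_, ?_⟩
    · intro f hf
      rcases List.mem_cons.1 hf with rfl | hf
      · exact ⟨hn, hn'⟩
      · exact h1 f hf
    · rw [List.flatMap_cons, ← h2]; simp [Fac.toks]

/-- product of the values of the factors -/
def fprod (F : List Fac) : A := (F.map Fac.v).prod

theorem tval_flatMap {F : List Fac} (h : ∀ f ∈ F, f.ok) :
    tval (F.flatMap Fac.toks) = ι (fprod F) := by
  induction F with
  | nil => simp [tval, fprod]
  | cons f F ih =>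
    rw [List.flatMap_cons, tval_append, tval_toks (h f (by simp)),
      ih (fun g hg => h g (by simp [hg])), fprod, fprod, List.map_cons, List.prod_cons, map_mul]

end Pool.Agent.Work.MP_172f05_al.Hnn
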