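import Mathlib
import Pool.Agent.Work.MP_172f05_al.Defs
import Pool.Agent.Work.MP_172f05_al.Hnn
import Pool.Agent.Work.MP_29a457_al.CosetTree

/-!
# `G` is the amalgam of `A` and `B = ⟨N, τ⟩` over `N`; its tree
-/

namespace Pool.Agent.Work.MP_172f05_al.Amal

open Pool.Agent.Work.MP_172f05_al.FP Psi Hnn
open Pool.Agent.Work.MP_29a457_al

/-- `A` as a subgroup of `G` -/
noncomputable abbrev AA : Subgroup G := ι.range

/-- `B = ⟨N, τ⟩` -/
noncomputable def BB : Subgroup G := Subgroup.closure (ι '' (N : Set A) ∪ {τ})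

/-- the vertex set of the Bass–Serre tree of the amalgam `A *_N B` -/
abbrev Vx := (G ⧸ BB) ⊕ (G ⧸ AA)

/-- the Bass–Serre tree -/
noncomputable abbrev Tr : SimpleGraph Vx := CosetTree.graph AA BB

/-! ### Words -/

/-- value of the list of a reduced word -/
noncomputable def wp (L : List (ℤˣ × A)) : G :=
  (L.map (fun x => (HNNExtension.t : G) ^ (x.1 : ℤ) * HNNExtension.of x.2)).prod

/-- reduced lists -/
def Ch (L : List (ℤˣ × A)) : Prop :=
  L.IsChain (fun a b => a.2 ∈ HNNExtension.toSubgroup N H a.1 → a.1 = b.1)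

theorem wp_nil : wp [] = 1 := rfl

theorem wp_up (x : A) (L : List (ℤˣ × A)) : wp ((1, x) :: L) = τ * (ι x * wp L) := by
  unfold wp
  rw [List.map_cons, List.prod_cons, Units.val_one, zpow_one, mul_assoc]
  rfl

theorem wp_dn (x : A) (L : List (ℤˣ × A)) : wp ((-1, x) :: L) = τ⁻¹ * (ι x * wp L) := by
  unfold wp
  rw [List.map_cons, List.prod_cons, Units.val_neg, Units.val_one, zpow_neg, zpow_one, mul_assoc]
  rfl

/-- a reduced word with value in `A` has no stable letter -/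
theorem nil_of_mem {x y : A} {L : List (ℤˣ × A)} (hL : Ch L) (h : ι x * wp L = ι y) : L = [] := by
  let w : HNNExtension.NormalWord.ReducedWord A N H := { head := x, toList := L, chain := hL }
  have h1 : w.prod φ = ι x * wp L := rfl
  exact HNNExtension.ReducedWord.toList_eq_nil_of_mem_of_range φ w
    (by rw [h1]; exact ⟨y, h.symm⟩)

/-- multiplication by a positive power of `τ` -/
theorem push_up {x : A} {L : List (ℤˣ × A)} (hL : Ch L)
    (hx : x ∈ N → ∀ z ∈ L.head?, z.1 = 1) (j : ℕ) :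
    ∃ L', Ch L' ∧ L' ≠ [] ∧ (∀ z ∈ L'.head?, z.1 = 1) ∧ τ ^ (j + 1) * (ι x * wp L) = wp L' := by
  induction j with
  | zero =>
    refine ⟨(1, x) :: L, ?_, by simp, by simp, by rw [wp_up]; simp⟩
    cases L with
    | nil => exact List.isChain_singleton _
    | cons z L =>
      exact List.isChain_cons_cons.2 ⟨fun h => (hx h z (by simp)).symm, hL⟩
  | succ j ih =>
    obtain ⟨L', h1, h2, h3, h4⟩ := ih
    refine ⟨(1, 1) :: L', ?_, by simp, by simp, ?_⟩
    · cases L' with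
      | nil => exact absurd rfl h2
      | cons z L' =>
        exact List.isChain_cons_cons.2 ⟨fun _ => (h3 z (by simp)).symm, h1⟩
    · rw [wp_up, ← h4, map_one, one_mul, pow_succ' τ (j + 1), mul_assoc]

/-- multiplication by a negative power of `τ` -/
theorem push_dn {x : A} {L : List (ℤˣ × A)} (hL : Ch L)
    (hx : x ∈ H → ∀ z ∈ L.head?, z.1 = -1) (i : ℕ) :
    ∃ L', Ch L' ∧ L' ≠ [] ∧ (∀ z ∈ L'.head?, z.1 = -1) ∧
      τ⁻¹ ^ (i + 1) * (ι x * wp L) = wp L' := by
  induction i with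
  | zero =>
    refine ⟨(-1, x) :: L, ?_, by simp, by simp, by rw [wp_dn]; simp⟩
    cases L with
    | nil => exact List.isChain_singleton _
    | cons z L =>
      exact List.isChain_cons_cons.2 ⟨fun h => (hx h z (by simp)).symm, hL⟩
  | succ i ih =>
    obtain ⟨L', h1, h2, h3, h4⟩ := ih
    refine ⟨(-1, 1) :: L', ?_, by simp, by simp, ?_⟩
    · cases L' with
      | nil => exact absurd rfl h2
      | cons z L' =>
        exact List.isChain_cons_cons.2 ⟨fun _ => (h3 z (by simp)).symm, h1⟩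
    · rw [wp_dn, ← h4, map_one, one_mul, pow_succ' τ⁻¹ (i + 1), mul_assoc]

/-- multiplication by a reduced element `τ⁻ⁱ ι(m) τʲ` of `B`, not in `A` -/
theorem push_block {x : A} {L : List (ℤˣ × A)} (hL : Ch L)
    (hx : x ∈ N → L = []) {i j : ℕ} {m : A} (hm : m ∈ N) (hij : i + j ≠ 0)
    (hr : i = 0 ∨ j = 0 ∨ m ∉ H) (hx2 : x ∈ N → j ≠ 0 ∨ L = []) :
    ∃ y L', y ∈ N ∧ Ch L' ∧ L' ≠ [] ∧
      τ⁻¹ ^ i * ι m * τ ^ j * (ι x * wp L) = ι y * wp L' := by
  -- the part `ι m τʲ`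
  have h1 : ∃ y L₁, Ch L₁ ∧ ι m * τ ^ j * (ι x * wp L) = ι y * wp L₁ ∧
      ((j = 0 ∧ y = m * x ∧ L₁ = L) ∨ (j ≠ 0 ∧ y = m ∧ L₁ ≠ [] ∧ ∀ z ∈ L₁.head?, z.1 = 1)) := by
    rcases Nat.eq_zero_or_pos j with hj | hj
    · subst hj
      exact ⟨m * x, L, hL, by rw [pow_zero, mul_one, map_mul, mul_assoc], Or.inl ⟨rfl, rfl, rfl⟩⟩
    · obtain ⟨L', h1, h2, h3, h4⟩ := push_up (j := j - 1) hL
        (fun h z hz => by rw [hx h] at hz; simp at hz)
      refine ⟨m, L', h1, ?_, Or.inr ⟨by omega, rfl, h2, h3⟩⟩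
      rw [← h4, show j - 1 + 1 = j by omega, mul_assoc]
  obtain ⟨y, L₁, h2, h3, h4⟩ := h1
  rcases Nat.eq_zero_or_pos i with hi | hi
  · subst hi
    rcases h4 with ⟨h5, -, -⟩ | ⟨h5, h6, h7, -⟩
    · omega
    · refine ⟨y, L₁, by rw [h6]; exact hm, h2, h7, ?_⟩
      rw [pow_zero, one_mul]
      exact h3
  · obtain ⟨L', g1, g2, g3, g4⟩ := push_dn (i := i - 1) h2 (x := y) (by
      intro hy z hz
      rcases h4 with ⟨h5, h6, h7⟩ | ⟨h5, h6, h7, h8⟩
      · -- `x ∈ N`, so the list is empty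
        have hxN : x ∈ N := by
          rw [h6] at hy
          exact (N.mul_mem_cancel_left hm).1 (H_le_N hy)
        rw [h7, hx hxN] at hz
        simp at hz
      · rw [h6] at hy
        rcases hr with hr | hr | hr
        · omega
        · exact absurd hr h5
        · exact absurd hy hr)
    refine ⟨1, L', N.one_mem, g1, g2, ?_⟩
    rw [map_one, one_mul, ← g4, ← h3, show i - 1 + 1 = i by omega]
    simp only [mul_assoc]

/-! ### The elements of `B` -/

theorem pow_ι (j : ℕ) : ∀ n ∈ N, ∃ n' ∈ N, τ ^ j * ι n = ι n' * τ ^ j := by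
  induction j with
  | zero => intro n hn; exact ⟨n, hn, by simp⟩
  | succ j ih =>
    intro n hn
    obtain ⟨n', hn', h⟩ := ih (ψ n) (ψ_N n)
    refine ⟨n', hn', ?_⟩
    rw [pow_succ, mul_assoc, τ_ι hn, ← mul_assoc, h, mul_assoc]

theorem BB_form {b : G} (hb : b ∈ BB) : ∃ i j : ℕ, ∃ n ∈ N, b = τ⁻¹ ^ i * ι n * τ ^ j := by
  unfold BB at hb
  refine Subgroup.closure_induction_right (s := ι '' (N : Set A) ∪ {τ})
    (p := fun b _ => ∃ i j : ℕ, ∃ n ∈ N, b = τ⁻¹ ^ i * ι n * τ ^ j) ?_ ?_ ?_ hb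
  · exact ⟨0, 0, 1, N.one_mem, by simp⟩
  · rintro b _ y hy ⟨i, j, n, hn, rfl⟩
    rcases hy with ⟨n', hn', rfl⟩ | hy
    · obtain ⟨n'', h1, h2⟩ := pow_ι j n' hn'
      refine ⟨i, j, n * n'', N.mul_mem hn h1, ?_⟩
      rw [mul_assoc, h2, map_mul]
      simp only [mul_assoc]
    · rw [Set.mem_singleton_iff] at hy
      subst hy
      refine ⟨i, j + 1, n, hn, ?_⟩
      rw [pow_succ]
      simp only [mul_assoc]
  · rintro b _ y hy ⟨i, j, n, hn, rfl⟩
    rcases hy with ⟨n', hn', rfl⟩ | hy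
    · obtain ⟨n'', h1, h2⟩ := pow_ι j n'⁻¹ (N.inv_mem hn')
      refine ⟨i, j, n * n'', N.mul_mem hn h1, ?_⟩
      rw [mul_assoc, ← map_inv, h2, map_mul]
      simp only [mul_assoc]
    · rw [Set.mem_singleton_iff] at hy
      subst hy
      rcases Nat.eq_zero_or_pos j with hj | hj
      · subst hj
        refine ⟨i + 1, 0, ψ n, ψ_N n, ?_⟩
        rw [pow_zero, mul_one, mul_one, ← τ_conj hn, pow_succ]
        group
      · obtain ⟨j, rfl⟩ : ∃ k, j = k + 1 := ⟨j - 1, by omega⟩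
        refine ⟨i, j, n, hn, ?_⟩
        rw [pow_succ]
        simp only [mul_assoc, mul_inv_cancel, mul_one]

/-- reduced form of the elements of `B` -/
theorem BB_red {b : G} (hb : b ∈ BB) : ∃ i j : ℕ, ∃ n ∈ N, b = τ⁻¹ ^ i * ι n * τ ^ j ∧
    (i = 0 ∨ j = 0 ∨ n ∉ H) := by
  obtain ⟨i, j, n, hn, h⟩ := BB_form hb
  induction i generalizing j n with
  | zero => exact ⟨0, j, n, hn, h, Or.inl rfl⟩
  | succ i ih =>
    rcases Nat.eq_zero_or_pos j with hj | hj
    · exact ⟨i + 1, j, n, hn, h, Or.inr (Or.inl hj)⟩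
    · by_cases hnH : n ∈ H
      · obtain ⟨j, rfl⟩ : ∃ k, j = k + 1 := ⟨j - 1, by omega⟩
        obtain ⟨x, rfl⟩ := mem_H.1 hnH
        refine ih j (ψ x) (ψ_N x) ?_
        rw [h, ← τ_conj (ψ_N x), pow_succ, pow_succ' τ j]
        group
      · exact ⟨i + 1, j, n, hn, h, Or.inr (Or.inr hnH)⟩

theorem ι_mem_BB {x : A} (hx : x ∈ N) : ι x ∈ BB :=
  Subgroup.subset_closure (Or.inl ⟨x, hx, rfl⟩)

theorem τ_mem_BB : τ ∈ BB := Subgroup.subset_closure (Or.inr rfl)

theorem mem_BB_of_A {x : A} : ι x ∈ BB ↔ x ∈ N := by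
  refine ⟨fun h => ?_, ι_mem_BB⟩
  obtain ⟨i, j, n, hn, h1, h2⟩ := BB_red h
  by_cases hij : i + j = 0
  · have hi : i = 0 := by omega
    have hj : j = 0 := by omega
    rw [hi, hj, pow_zero, pow_zero, one_mul, mul_one] at h1
    rw [ι_injective h1]
    exact hn
  · exfalso
    obtain ⟨y, L', h3, h4, h5, h6⟩ := push_block (x := 1) (L := []) List.isChain_nil
      (fun _ => rfl) hn hij h2 (fun _ => Or.inr rfl)
    rw [wp_nil, map_one, mul_one, mul_one, ← h1] at h6
    exact h5 (nil_of_mem h4 h6.symm)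

theorem τ_not_AA : τ ∉ AA := by
  rintro ⟨x, hx⟩
  have h1 : ι 1 * wp [(1, 1)] = ι x := by
    rw [wp_up, wp_nil, map_one, hx]
    simp
  have := nil_of_mem (List.isChain_singleton _) h1
  simp at this

theorem gen_top : AA ⊔ BB = ⊤ := by
  rw [eq_top_iff]
  intro g _
  refine HNNExtension.induction_on (motive := fun g : G => g ∈ AA ⊔ BB) g ?_ ?_ ?_ ?_
  · intro x
    exact Subgroup.mem_sup_left ⟨x, rfl⟩
  · exact Subgroup.mem_sup_right τ_mem_BB
  · intro x y hx hy
    exact Subgroup.mul_mem _ hx hy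
  · intro x hx
    exact Subgroup.inv_mem _ hx

/-- reduced products are reduced words with first letter outside `N` -/
theorem red_form {g : G} (hg : CosetTree.Red AA BB g) :
    ∃ x L, x ∉ N ∧ Ch L ∧ g = ι x * wp L := by
  induction hg with
  | single a ha ha' =>
    obtain ⟨x, rfl⟩ := ha
    refine ⟨x, [], fun h => ha' (ι_mem_BB h), List.isChain_nil, ?_⟩
    rw [wp_nil, mul_one]
  | cons a b g ha ha' hb hb' _ ih =>
    obtain ⟨x, L, hx, hL, rfl⟩ := ih
    obtain ⟨a', rfl⟩ := ha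
    obtain ⟨i, j, n, hn, h1, h2⟩ := BB_red hb
    have hij : i + j ≠ 0 := by
      intro hij
      have hi : i = 0 := by omega
      have hj : j = 0 := by omega
      rw [hi, hj, pow_zero, pow_zero, one_mul, mul_one] at h1
      exact hb' ⟨n, h1.symm⟩
    obtain ⟨y, L', h3, h4, h5, h6⟩ := push_block hL (fun h => absurd h hx) hn hij h2
      (fun h => absurd h hx)
    refine ⟨a' * y, L', ?_, h4, ?_⟩
    · intro h
      exact ha' (ι_mem_BB ((N.mul_mem_cancel_right h3).1 h))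
    · rw [h1, mul_assoc, h6, map_mul, mul_assoc]

theorem red_not_BB (g : G) (hg : CosetTree.Red AA BB g) : g ∉ BB := by
  intro hgB
  obtain ⟨x, L, hx, hL, h⟩ := red_form hg
  obtain ⟨i, j, n, hn, h1, h2⟩ := BB_red (BB.inv_mem hgB)
  have h0 : g⁻¹ * g = 1 := inv_mul_cancel g
  by_cases hij : i + j = 0
  · have hi : i = 0 := by omega
    have hj : j = 0 := by omega
    rw [hi, hj, pow_zero, pow_zero, one_mul, mul_one] at h1
    rw [h1, h, ← mul_assoc, ← map_mul] at h0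
    have h3 := nil_of_mem (y := 1) hL (by rw [h0, map_one])
    rw [h3, wp_nil, mul_one, ← map_one ι] at h0
    have h4 := ι_injective h0
    apply hx
    have h5 : x = n⁻¹ := (inv_eq_of_mul_eq_one_right h4).symm
    rw [h5]
    exact N.inv_mem hn
  · obtain ⟨y, L', h3, h4, h5, h6⟩ := push_block hL (fun h => absurd h hx) hn hij h2
      (fun h => absurd h hx)
    rw [← h, ← h1, h0] at h6
    exact h5 (nil_of_mem (y := 1) h4 (by rw [← h6, map_one]))

theorem isTreeAction : IsTreeAction G Tr where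
  isTree := CosetTree.isTree gen_top red_not_BB
  adj_smul := CosetTree.adj_smul
  no_inversion := CosetTree.no_inversion

end Pool.Agent.Work.MP_172f05_al.Amal
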