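import Mathlib
import Pool.Agent.Work.MP_172f05_al.Amal

/-!
# The action of `G` on the Bass–Serre tree is acylindrical
-/

namespace Pool.Agent.Work.MP_172f05_al.Acy

open FP Psi Hnn Amal
open Pool.Agent.Work.MP_29a457_al

/-! ### Subgroups of `A` of bounded length have at most nine elements -/

/-- the abelianisation target -/
abbrev Q9 := Multiplicative (ZMod 3) × Multiplicative (ZMod 3)

/-- the abelianisation -/
def π : A →* Q9 := lift (Multiplicative.ofAdd 1, 1) (1, Multiplicative.ofAdd 1)
  (by decide) (by decide)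

theorem π_vl (s : Lt) : π (vl s) ≠ 1 := by
  cases s with
  | a => simp only [vl, π, lift_α]; decide
  | a' => simp only [vl, π, map_inv, lift_α]; decide
  | b => simp only [vl, π, lift_β]; decide
  | b' => simp only [vl, π, map_inv, lift_β]; decide

theorem len_vl (s : Lt) : len (vl s) = 1 := by
  have : nf (vl s) = [s] := nf_eq (by simp [Red]) (by simp [val])
  rw [len, this]; rfl

/-- powers of cyclically reduced elements -/
theorem nf_pow {z : A} {s t : Lt} {l : List Lt} (hz : nf z = s :: (l ++ [t]))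
    (hst : s.isA ≠ t.isA) (k : ℕ) : nf (z ^ k) = (List.replicate k (nf z)).flatten := by
  apply nf_eq
  · induction k with
    | zero => simp [Red]
    | succ k ih =>
      rw [List.replicate_succ, List.flatten_cons]
      refine red_append (red_nf z) ih ?_
      intro u hu v hv
      rw [hz] at hu
      simp only [← List.cons_append, List.getLast?_append, List.getLast?_singleton,
        Option.some_or, Option.mem_def, Option.some.injEq] at hu
      cases k with
      | zero => simp at hv
      | succ k =>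
        rw [List.replicate_succ, List.flatten_cons, hz] at hv
        simp only [List.cons_append, List.head?_cons, Option.mem_def, Option.some.injEq] at hv
        rw [← hu, ← hv]
        exact hst.symm
  · induction k with
    | zero => simp [val]
    | succ k ih =>
      rw [List.replicate_succ, List.flatten_cons, val_append, ih, val_nf, pow_succ']

theorem len_pow {z : A} {s t : Lt} {l : List Lt} (hz : nf z = s :: (l ++ [t]))
    (hst : s.isA ≠ t.isA) (k : ℕ) : len (z ^ k) = k * len z := by
  rw [len, nf_pow hz hst]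
  simp [len]

theorem unbounded : ∀ (n : ℕ) (z : A), len z = n → z ≠ 1 → π z = 1 → ∀ C : ℕ, ∃ k : ℕ,
    C < len (z ^ k) := by
  intro n
  induction n using Nat.strong_induction_on with
  | _ n ih =>
    intro z hn hz1 hz C
    have hnf := val_nf z
    rcases hl : nf z with _ | ⟨s, l'⟩
    · rw [hl, val_nil] at hnf
      exact absurd hnf.symm hz1
    · rcases List.eq_nil_or_concat l' with rfl | ⟨l, t, rfl⟩
      · exfalso
        rw [hl, val_cons, val_nil, mul_one] at hnf
        rw [← hnf] at hz
        exact π_vl s hz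
      · have hl2 : nf z = s :: (l ++ [t]) := by rw [hl, List.concat_eq_append]
        by_cases hst : s.isA = t.isA
        · -- conjugate
          set z' : A := (vl s)⁻¹ * z * vl s with hz'
          have hval : z = vl s * (val l * vl t) := by
            rw [← hnf, hl2, val_cons, val_append, val_cons, val_nil, mul_one]
          have hz'2 : z' = val l * (vl t * vl s) := by
            rw [hz', hval]; group
          have hlen : len z = l.length + 2 := by
            rw [len, hl2]; simp
          have hlt : len z' < n := by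
            have h1 : len (vl t * vl s) ≤ 1 := by
              by_cases h2 : t = s
              · have h3 : vl t * vl s = vl s.inv := by
                  rw [h2]
                  cases s <;> simp only [vl, Lt.inv]
                  · exact αα
                  · rw [← mul_inv_rev, αα, inv_inv]
                  · exact ββ
                  · rw [← mul_inv_rev, ββ, inv_inv]
                rw [h3, len_vl]
              · have h3 : vl t * vl s = 1 := by
                  cases s <;> cases t <;> simp [Lt.isA] at hst h2 <;> simp [vl]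
                rw [h3, len_one]; omega
            have h2 := len_mul (val l) (vl t * vl s)
            have h3 : len (val l) ≤ l.length := by
              have hr : Red l := by
                have := red_nf z
                rw [hl2] at this
                exact this.tail.left_of_append
              rw [len_val hr]
            rw [hz'2]
            omega
          have hz'1 : z' ≠ 1 := by
            intro h
            apply hz1
            have : z = vl s * z' * (vl s)⁻¹ := by rw [hz']; group
            rw [this, h]; group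
          have hπ : π z' = 1 := by
            rw [hz', map_mul, map_mul, hz, mul_one, map_inv, inv_mul_cancel]
          obtain ⟨k, hk⟩ := ih _ hlt z' rfl hz'1 hπ (C + 2)
          refine ⟨k, ?_⟩
          have h4 : z' ^ k = (vl s)⁻¹ * (z ^ k * vl s) := by
            have : z' = (vl s)⁻¹ * z * ((vl s)⁻¹)⁻¹ := by rw [hz', inv_inv]
            rw [this, conj_pow, inv_inv, mul_assoc]
          have h5 := len_mul (vl s)⁻¹ (z ^ k * vl s)
          have h6 := len_mul (z ^ k) (vl s)
          rw [len_inv, len_vl] at h5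
          rw [len_vl] at h6
          rw [h4] at hk
          omega
        · refine ⟨C + 1, ?_⟩
          rw [len_pow hl2 hst]
          have : 1 ≤ len z := by rw [len, hl2]; simp
          nlinarith

/-- A subgroup of `A` whose elements have bounded length has at most nine elements. -/
theorem encard_le_nine (K : Subgroup A) (C : ℕ) (hC : ∀ x ∈ K, len x ≤ C) :
    (K : Set A).encard ≤ 9 := by
  have hinj : Set.InjOn π (K : Set A) := by
    intro x hx y hy hxy
    by_contra hne
    have h1 : x⁻¹ * y ≠ 1 := fun h => hne (inv_mul_eq_one.1 h)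
    have h2 : π (x⁻¹ * y) = 1 := by rw [map_mul, map_inv, hxy, inv_mul_cancel]
    obtain ⟨k, hk⟩ := unbounded _ _ rfl h1 h2 C
    have h3 := hC _ (K.pow_mem (K.mul_mem (K.inv_mem hx) hy) k)
    omega
  rw [← hinj.encard_image]
  calc (π '' (K : Set A)).encard ≤ (Set.univ : Set Q9).encard := Set.encard_le_encard (Set.subset_univ _)
    _ = ENat.card Q9 := Set.encard_univ _
    _ = 9 := by
      rw [ENat.card_eq_coe_fintype_card]
      rfl

/-- intersections of `N` with its conjugates -/
theorem small {r : A} (hr : r ∉ N) : {u : A | u ∈ N ∧ r * u * r⁻¹ ∈ N}.encard ≤ 9 := by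
  let K : Subgroup A := N ⊓ N.comap (MulAut.conj r).toMonoidHom
  have hK : {u : A | u ∈ N ∧ r * u * r⁻¹ ∈ N} = (K : Set A) := by
    ext u
    simp [K]
  rw [hK]
  apply encard_le_nine K (4 * len r + 5)
  intro u hu
  rw [← SetLike.mem_coe, ← hK] at hu
  obtain ⟨⟨x, hx⟩, ⟨y, hy⟩⟩ := hu
  -- `r * ψ x = ψ y * r`
  have h1 := overlap_N hr y x
  have h2 := len_lcp (ψ y) (r * ψ x)
  have h3 : (ψ y)⁻¹ * (r * ψ x) = r := by
    rw [hy, ← hx]; group
  rw [h3] at h2
  have h4 : len (ψ x) ≤ len (r * ψ x) + len r := by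
    have h5 := len_mul r⁻¹ (r * ψ x)
    rw [inv_mul_cancel_left, len_inv] at h5
    omega
  rw [← hx]
  omega

/-! ### Segments of the tree -/

theorem smul_inl (g x : G) : g • (Sum.inl (x : G ⧸ BB) : Vx) = Sum.inl ((g * x : G) : G ⧸ BB) := rfl
theorem smul_inr (g x : G) : g • (Sum.inr (x : G ⧸ AA) : Vx) = Sum.inr ((g * x : G) : G ⧸ AA) := rfl

theorem inl_eq {x y : G} : (Sum.inl (x : G ⧸ BB) : Vx) = Sum.inl (y : G ⧸ BB) ↔ x⁻¹ * y ∈ BB := by
  rw [Sum.inl.injEq, QuotientGroup.eq]

theorem inr_eq {x y : G} : (Sum.inr (x : G ⧸ AA) : Vx) = Sum.inr (y : G ⧸ AA) ↔ x⁻¹ * y ∈ AA := by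
  rw [Sum.inr.injEq, QuotientGroup.eq]

theorem fix_inl {g x : G} : g • (Sum.inl (x : G ⧸ BB) : Vx) = Sum.inl (x : G ⧸ BB) ↔
    x⁻¹ * g * x ∈ BB := by
  rw [smul_inl, eq_comm, inl_eq, mul_assoc]

theorem fix_inr {g x : G} : g • (Sum.inr (x : G ⧸ AA) : Vx) = Sum.inr (x : G ⧸ AA) ↔
    x⁻¹ * g * x ∈ AA := by
  rw [smul_inr, eq_comm, inr_eq, mul_assoc]

/-- the stabiliser of a segment of length two centred at `x AA` -/
theorem seg2 {x y : G} (hxy : x⁻¹ * y ∈ AA) (hxy' : x⁻¹ * y ∉ BB) :
    {g : G | x⁻¹ * g * x ∈ AA ∧ x⁻¹ * g * x ∈ BB ∧ y⁻¹ * g * y ∈ BB}.encard ≤ 9 := by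
  obtain ⟨p, hp⟩ := hxy
  have hpN : p⁻¹ ∉ N := by
    intro h
    apply hxy'
    rw [← hp]
    exact mem_BB_of_A.2 (by simpa using N.inv_mem h)
  refine le_trans (le_trans (Set.encard_le_encard ?_)
    (Set.encard_image_le (fun u => x * ι u * x⁻¹) {u : A | u ∈ N ∧ p⁻¹ * u * p⁻¹⁻¹ ∈ N}))
    (small hpN)
  rintro g ⟨⟨u, hu⟩, h2, h3⟩
  refine ⟨u, ⟨?_, ?_⟩, ?_⟩
  · rw [← hu] at h2
    exact mem_BB_of_A.1 h2
  · apply mem_BB_of_A.1
    have : ι (p⁻¹ * u * p⁻¹⁻¹) = y⁻¹ * g * y := by
      rw [map_mul, map_mul, inv_inv, map_inv, hu, hp]; group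
    rw [this]; exact h3
  · simp only [hu]; group

theorem seg {v0 v1 v2 : Vx} (h0 : ∃ y : G ⧸ BB, v0 = Sum.inl y) (h01 : Tr.Adj v0 v1)
    (h12 : Tr.Adj v1 v2) (n02 : v0 ≠ v2) :
    {g : G | g • v0 = v0 ∧ g • v1 = v1 ∧ g • v2 = v2}.encard ≤ 9 := by
  obtain ⟨y, rfl⟩ := h0
  obtain ⟨y0, e0, e1⟩ : ∃ y0 : G, y = (y0 : G ⧸ BB) ∧ v1 = Sum.inr (y0 : G ⧸ AA) := by
    rcases v1 with v1 | v1
    · exact absurd h01 CosetTree.not_adj_inl_inl
    · obtain ⟨y0, h1, h2⟩ := CosetTree.adj_inl_inr.1 h01
      exact ⟨y0, h1, by rw [h2]⟩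
  obtain ⟨x1, e2, e1'⟩ : ∃ x1 : G, v2 = Sum.inl (x1 : G ⧸ BB) ∧ v1 = Sum.inr (x1 : G ⧸ AA) := by
    rcases v2 with v2 | v2
    · rw [e1] at h12
      obtain ⟨x1, h1, h2⟩ := CosetTree.adj_inl_inr.1 h12.symm
      exact ⟨x1, by rw [h1], by rw [e1, h2]⟩
    · rw [e1] at h12
      exact absurd h12 CosetTree.not_adj_inr_inr
  refine le_trans (Set.encard_le_encard ?_) (seg2 (x := x1) (y := y0)
    (inr_eq.1 (e1'.symm.trans e1)) ?_)
  · rintro g ⟨f0, f1, f2⟩
    refine ⟨?_, ?_, ?_⟩
    · rw [e1'] at f1; exact fix_inr.1 f1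
    · rw [e2] at f2; exact fix_inl.1 f2
    · rw [e0] at f0; exact fix_inl.1 f0
  · intro h
    exact n02 (by rw [e0, e2]; exact (inl_eq.2 h).symm)

theorem acylindrical : IsAcylindricalWith G Tr 3 9 := by
  intro u v p hp hl
  have hadj : ∀ i < p.length, Tr.Adj (p.getVert i) (p.getVert (i + 1)) :=
    fun i hi => p.adj_getVert_succ hi
  have hne : ∀ i j, i ≤ p.length → j ≤ p.length → i ≠ j → p.getVert i ≠ p.getVert j := by
    intro i j hi hj hij h
    exact hij (hp.getVert_injOn hi hj h)
  have hf : ∀ g ∈ {g : G | ∀ x ∈ p.support, g • x = x}, ∀ i, g • p.getVert i = p.getVert i :=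
    fun g hg i => hg _ (p.getVert_mem_support i)
  rcases h0 : p.getVert 0 with y | y
  · refine le_trans (Set.encard_le_encard ?_) (seg ⟨y, h0⟩ (hadj 0 (by omega)) (hadj 1 (by omega))
      (hne _ _ (by omega) (by omega) (by omega)))
    intro g hg
    exact ⟨hf g hg 0, hf g hg 1, hf g hg 2⟩
  · have h1 : ∃ y : G ⧸ BB, p.getVert 1 = Sum.inl y := by
      rcases h1 : p.getVert 1 with z | z
      · exact ⟨z, rfl⟩
      · have := hadj 0 (by omega)
        rw [h0, zero_add, h1] at this
        exact absurd this CosetTree.not_adj_inr_inr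
    refine le_trans (Set.encard_le_encard ?_) (seg h1 (hadj 1 (by omega)) (hadj 2 (by omega))
      (hne _ _ (by omega) (by omega) (by omega)))
    intro g hg
    exact ⟨hf g hg 1, hf g hg 2, hf g hg 3⟩

theorem isAcylindrical : IsAcylindrical G Tr := ⟨3, 9, by norm_num, acylindrical⟩

end Pool.Agent.Work.MP_172f05_al.Acy
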