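import Mathlib
import Pool.Agent.Work.MP_172f05_al.Hnn

/-!
# Cochains bounded on the relators of `G`
(helper39, for MP_172f05_al)
-/

namespace Pool.Agent.Work.MP_172f05_al.Iso

open FP Psi Hnn

/-- sum of `ωA` along a word in the letters -/
noncomputable def sumA (ωA : G → Lt → ℝ) : G → List Lt → ℝ
  | _, [] => 0
  | x, s :: l => ωA x s + sumA ωA (x * ι (vl s)) l

/-- 1-cochains on the Cayley graph of `G` whose values on all relators are at most one. -/
structure Coch where
  ωA : G → Lt → ℝ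
  ωt : G → ℝ
  anti : ∀ x s, ωA (x * ι (vl s)) s.inv = - ωA x s
  cellA : ∀ x, |sumA ωA x [.a, .a, .a]| ≤ 1
  cellB : ∀ x, |sumA ωA x [.b, .b, .b]| ≤ 1
  cellT : ∀ x s, s = Lt.a ∨ s = Lt.b →
    |ωt x + sumA ωA (x * τ) (sub [s]) - ωt (x * ι (val (sub (sub [s]))))
      - sumA ωA x (sub (sub [s]))| ≤ 1

namespace Coch

variable (c : Coch)

/-- the sum along a word -/
noncomputable def IA (x : G) (l : List Lt) : ℝ := sumA c.ωA x l

theorem IA_nil (x : G) : c.IA x [] = 0 := rfl
theorem IA_cons (x : G) (s : Lt) (l : List Lt) :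
    c.IA x (s :: l) = c.ωA x s + c.IA (x * ι (vl s)) l := rfl

theorem IA_append (x : G) (l l' : List Lt) :
    c.IA x (l ++ l') = c.IA x l + c.IA (x * ι (val l)) l' := by
  induction l generalizing x with
  | nil => rw [List.nil_append, IA_nil, val_nil, map_one, mul_one, zero_add]
  | cons s l ih =>
    rw [List.cons_append, IA_cons, IA_cons, ih, val_cons, map_mul, mul_assoc, add_assoc]

theorem IA_single (x : G) (s : Lt) : c.IA x [s] = c.ωA x s := by
  rw [IA_cons, IA_nil, add_zero]

theorem invl_cons (s : Lt) (l : List Lt) : invl (s :: l) = invl l ++ [s.inv] := by simp [invl]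

theorem IA_invl (x : G) (l : List Lt) : c.IA (x * ι (val l)) (invl l) = - c.IA x l := by
  induction l generalizing x with
  | nil => simp [invl, IA_nil]
  | cons s l ih =>
    rw [invl_cons, IA_append, IA_single, IA_cons, val_cons, map_mul, ← mul_assoc, ih, val_invl,
      map_inv, mul_inv_cancel_right, c.anti]
    ring

/-- all powers of letters -/
theorem cell (x : G) (s : Lt) : |c.IA x [s, s, s]| ≤ 1 := by
  have key : ∀ s : Lt, (∀ x, |c.IA x [s, s, s]| ≤ 1) → ∀ x, |c.IA x [s.inv, s.inv, s.inv]| ≤ 1 := by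
    intro s h x
    have h1 := h (x * ι (val [s, s, s])⁻¹)
    have h2 := c.IA_invl (x * ι (val [s, s, s])⁻¹) [s, s, s]
    have h3 : x * ι (val [s, s, s])⁻¹ * ι (val [s, s, s]) = x := by rw [map_inv]; group
    rw [h3] at h2
    have h4 : invl [s, s, s] = [s.inv, s.inv, s.inv] := by simp [invl]
    rw [h4] at h2
    rw [h2, abs_neg]
    exact h1
  cases s with
  | a => exact c.cellA x
  | a' => exact key .a c.cellA x
  | b => exact c.cellB x
  | b' => exact key .b c.cellB x

/-- sum along the normal form -/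
noncomputable def JA (x : G) (g : A) : ℝ := c.IA x (nf g)

theorem JA_one (x : G) : c.JA x 1 = 0 := by rw [JA, nf_one, IA_nil]

theorem JA_inv (x : G) (g : A) : c.JA (x * ι g) g⁻¹ = - c.JA x g := by
  rw [JA, nf_inv, JA, ← IA_invl, val_nf]

theorem JA_inv' (x : G) (g : A) : c.JA x g⁻¹ = - c.JA (x * ι g⁻¹) g := by
  have := c.JA_inv (x * ι g⁻¹) g
  rw [map_inv, inv_mul_cancel_right] at this
  rw [map_inv]
  exact this

/-- the basic estimate -/
theorem merge_aux (p q : List Lt) (hp : Red p) (hq : Red q) (y : G) :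
    |c.IA y q - c.IA y p - c.IA (y * ι (val p)) (nf ((val p)⁻¹ * val q))| ≤ 1 := by
  induction p generalizing q y with
  | nil =>
    rw [val_nil, inv_one, one_mul, nf_val hq, map_one, mul_one, IA_nil]
    simp
  | cons s p ih =>
    cases q with
    | nil =>
      rw [val_nil, mul_one, ← val_invl, nf_val (red_invl hp), IA_invl, IA_nil]
      simp
    | cons t q =>
      by_cases hst : s = t
      · subst hst
        have h := ih q hp.tail hq.tail (y * ι (vl s))
        have h1 : (val (s :: p))⁻¹ * val (s :: q) = (val p)⁻¹ * val q := by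
          rw [val_cons, val_cons]; group
        rw [h1, IA_cons, IA_cons, val_cons, map_mul, ← mul_assoc]
        have h2 : c.ωA y s + c.IA (y * ι (vl s)) q - (c.ωA y s + c.IA (y * ι (vl s)) p) -
            c.IA (y * ι (vl s) * ι (val p)) (nf ((val p)⁻¹ * val q)) =
            c.IA (y * ι (vl s)) q - c.IA (y * ι (vl s)) p -
            c.IA (y * ι (vl s) * ι (val p)) (nf ((val p)⁻¹ * val q)) := by ring
        rw [h2]
        exact h
      · by_cases hty : s.isA = t.isA
        · -- merge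
          have h1 : (val (s :: p))⁻¹ * val (t :: q) = val ((invl p ++ [s]) ++ q) := by
            rw [val_append, val_append, val_invl, val_cons, val_cons, val_cons, val_nil, mul_one,
              mul_inv_rev, mul_assoc, ← mul_assoc (vl s)⁻¹, same_type hty hst, mul_assoc]
          have h2 : Red ((invl p ++ [s]) ++ q) := by
            have hp1 : Red (invl p ++ [s]) := by
              refine red_append (red_invl hp.tail) (by simp [Red]) ?_
              intro u hu v hv
              obtain ⟨w, hw, rfl⟩ := getLast?_invl' p u hu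
              simp only [List.head?_cons, Option.mem_def, Option.some.injEq] at hv
              subst hv
              rw [isA_inv]
              have := hp.rel_head? hw
              exact fun h => this h.symm
            refine red_append hp1 hq.tail ?_
            intro u hu v hv
            simp only [List.getLast?_append, List.getLast?_singleton, Option.some_or,
              Option.mem_def, Option.some.injEq] at hu
            subst hu
            rw [hty]
            exact hq.rel_head? hv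
          have hts : t = s.inv := by
            cases s <;> cases t <;> simp [Lt.isA] at hty hst ⊢ <;> rfl
          have hvs : vl s * vl s = vl t := by
            have := same_type hty hst
            rw [hts, vl_inv] at this
            rw [hts, vl_inv, eq_inv_iff_mul_eq_one]
            calc vl s * vl s * vl s = vl s * ((vl s)⁻¹ * (vl s)⁻¹) * vl s := by
                  rw [this]
                _ = 1 := by group
          rw [h1, nf_val h2, IA_append, IA_append, val_append, val_invl, IA_single, val_cons,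
            val_cons, val_nil, mul_one, map_mul, ← mul_assoc, IA_invl, IA_cons, IA_cons, map_mul,
            map_inv, ← mul_assoc, mul_inv_cancel_right]
          have h3 : y * ι (vl s) * ι (vl s) = y * ι (vl t) := by
            rw [mul_assoc, ← map_mul, hvs]
          rw [h3]
          have h4 := c.cell (y * ι (vl t)) s
          have h5 : y * ι (vl t) * ι (vl s) = y := by
            rw [hts, vl_inv, map_inv]; group
          rw [IA_cons, IA_cons, IA_cons, IA_nil, h5] at h4
          have h6 : c.ωA y t = - c.ωA (y * ι (vl t)) s := by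
            have := c.anti y t
            rw [hts, lt_inv_inv] at this
            rw [hts]
            linarith
          have h7 : c.ωA y t + c.IA (y * ι (vl t)) q - (c.ωA y s + c.IA (y * ι (vl s)) p) -
              (-c.IA (y * ι (vl s)) p + c.ωA (y * ι (vl s)) s + c.IA (y * ι (vl t)) q) =
              - (c.ωA (y * ι (vl t)) s + (c.ωA y s + (c.ωA (y * ι (vl s)) s + 0))) := by
            rw [h6]; ring
          rw [h7, abs_neg]
          exact h4
        · have h1 : (val (s :: p))⁻¹ * val (t :: q) = val (invl (s :: p) ++ (t :: q)) := by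
            rw [val_append, val_invl]
          have h2 : Red (invl (s :: p) ++ (t :: q)) := by
            refine red_append (red_invl hp) hq ?_
            intro u hu v hv
            rw [getLast?_invl] at hu
            simp only [List.head?_cons, Option.mem_def, Option.some.injEq] at hu hv
            subst hu; subst hv
            rw [isA_inv]
            exact hty
          rw [h1, nf_val h2, IA_append, IA_invl, val_invl, map_inv, mul_inv_cancel_right]
          have h3 : c.IA y (t :: q) - c.IA y (s :: p) -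
              (-c.IA y (s :: p) + c.IA y (t :: q)) = 0 := by ring
          rw [h3]; simp

/-- **Merging two elements of `A`.** -/
theorem merge (x : G) (g h : A) : |c.JA x g + c.JA (x * ι g) h - c.JA x (g * h)| ≤ 1 := by
  have h1 := c.merge_aux (nf g⁻¹) (nf h) (red_nf _) (red_nf _) (x * ι g)
  rw [val_nf, val_nf, inv_inv, map_inv, mul_inv_cancel_right] at h1
  have h2 := c.JA_inv x g
  rw [JA] at h2
  rw [h2] at h1
  have h3 : c.JA x g + c.JA (x * ι g) h - c.JA x (g * h) =
      c.IA (x * ι g) (nf h) - -c.JA x g - c.IA x (nf (g * h)) := by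
    rw [JA, JA, JA]; ring
  rw [h3]
  exact h1

/-! ### Corridors -/

theorem sub_append (l l' : List Lt) : sub (l ++ l') = sub l ++ sub l' := by
  simp [sub, List.flatMap_append]

theorem sub_invl (l : List Lt) : sub (invl l) = invl (sub l) := by
  induction l with
  | nil => rfl
  | cons s l ih =>
    have h1 : ∀ p q : List Lt, invl (p ++ q) = invl q ++ invl p := by
      intro p q; simp [invl]
    rw [invl_cons, sub_append, ih, sub_cons s l, h1, sub_cons, sub_nil, List.append_nil]
    congr 1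
    cases s <;> rfl

/-- the corridor function -/
noncomputable def Cor (x : G) (l : List Lt) : ℝ :=
  c.ωt x + c.IA (x * τ) (sub l) - c.ωt (x * ι (val (sub (sub l)))) - c.IA x (sub (sub l))

theorem τ_val (x : G) (l : List Lt) :
    x * τ * ι (val (sub l)) = x * ι (val (sub (sub l))) * τ := by
  rw [val_sub (sub l), val_sub l, mul_assoc, τ_ι (ψ_N _), mul_assoc]

theorem Cor_append (x : G) (l l' : List Lt) :
    c.Cor x (l ++ l') = c.Cor x l + c.Cor (x * ι (val (sub (sub l)))) l' := by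
  unfold Cor
  rw [sub_append, sub_append, IA_append, IA_append, val_append, map_mul, τ_val, ← mul_assoc]
  ring

theorem Cor_inv (x : G) (l : List Lt) :
    c.Cor (x * ι (val (sub (sub l)))) (invl l) = - c.Cor x l := by
  unfold Cor
  rw [sub_invl, sub_invl, val_invl, map_inv, mul_inv_cancel_right, ← τ_val, IA_invl, IA_invl]
  ring

theorem Cor_single (x : G) (s : Lt) : |c.Cor x [s]| ≤ 1 := by
  have key : ∀ s : Lt, (∀ x, |c.Cor x [s]| ≤ 1) → ∀ x, |c.Cor x [s.inv]| ≤ 1 := by
    intro s h x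
    have h1 := h (x * ι (val (sub (sub [s])))⁻¹)
    have h2 := c.Cor_inv (x * ι (val (sub (sub [s])))⁻¹) [s]
    have h3 : x * ι (val (sub (sub [s])))⁻¹ * ι (val (sub (sub [s]))) = x := by
      rw [map_inv]; group
    rw [h3] at h2
    have h4 : invl [s] = [s.inv] := by simp [invl]
    rw [h4] at h2
    rw [h2, abs_neg]
    exact h1
  cases s with
  | a => exact c.cellT x .a (Or.inl rfl)
  | a' => exact key .a (fun x => c.cellT x .a (Or.inl rfl)) x
  | b => exact c.cellT x .b (Or.inr rfl)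
  | b' => exact key .b (fun x => c.cellT x .b (Or.inr rfl)) x

theorem Cor_nil (x : G) : c.Cor x [] = 0 := by
  unfold Cor
  rw [sub_nil, sub_nil, IA_nil, IA_nil, val_nil, map_one, mul_one]
  ring

/-- **Corridor lemma.** -/
theorem Cor_le (x : G) (l : List Lt) : |c.Cor x l| ≤ l.length := by
  induction l generalizing x with
  | nil => rw [Cor_nil]; simp
  | cons s l ih =>
    have h : s :: l = [s] ++ l := rfl
    rw [h, Cor_append]
    have h1 := c.Cor_single x s
    have h2 := ih (x * ι (val (sub (sub [s]))))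
    calc |c.Cor x [s] + c.Cor (x * ι (val (sub (sub [s])))) l|
        ≤ |c.Cor x [s]| + |c.Cor (x * ι (val (sub (sub [s])))) l| := abs_add_le _ _
      _ ≤ 1 + l.length := add_le_add h1 h2
      _ = (([s] ++ l).length : ℝ) := by simp; ring

/-- Corridor lemma in terms of elements. -/
theorem cor (x : G) (g : A) :
    |c.ωt x + c.JA (x * τ) (ψ g) - c.ωt (x * ι (ψ (ψ g))) - c.JA x (ψ (ψ g))| ≤ len g := by
  have h := c.Cor_le x (nf g)
  unfold Cor at h
  rw [JA, JA, nf_ψ (ψ g), nf_ψ g]
  rw [val_sub, val_sub, val_nf] at h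
  exact h

/-! ### Sums along token words -/

/-- the sum along a list of tokens -/
noncomputable def J : G → List Tok → ℝ
  | _, [] => 0
  | x, .g y :: l => c.JA x y + J (x * ι y) l
  | x, .up :: l => c.ωt x + J (x * τ) l
  | x, .dn :: l => - c.ωt (x * τ⁻¹) + J (x * τ⁻¹) l

theorem J_nil (x : G) : c.J x [] = 0 := rfl
theorem J_g (x : G) (y : A) (l : List Tok) : c.J x (.g y :: l) = c.JA x y + c.J (x * ι y) l := rfl
theorem J_up (x : G) (l : List Tok) : c.J x (.up :: l) = c.ωt x + c.J (x * τ) l := rfl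
theorem J_dn (x : G) (l : List Tok) :
    c.J x (.dn :: l) = - c.ωt (x * τ⁻¹) + c.J (x * τ⁻¹) l := rfl

theorem J_append (x : G) (l l' : List Tok) :
    c.J x (l ++ l') = c.J x l + c.J (x * tval l) l' := by
  induction l generalizing x with
  | nil => rw [List.nil_append, J_nil, tval_nil, mul_one, zero_add]
  | cons s l ih =>
    rw [List.cons_append]
    cases s with
    | g y => rw [J_g, J_g, ih, tval_cons, ← mul_assoc, add_assoc]; rfl
    | up => rw [J_up, J_up, ih, tval_cons, ← mul_assoc, add_assoc]; rfl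
    | dn => rw [J_dn, J_dn, ih, tval_cons, ← mul_assoc, add_assoc]; rfl

end Coch

/-- weight of a stable letter -/
def M : ℕ := 2002

/-- weight of a token -/
def Wt : Tok → ℕ
  | .g x => len x + 1
  | .up => M
  | .dn => M

/-- weight of a list of tokens -/
def W : List Tok → ℕ
  | [] => 0
  | s :: l => Wt s + W l

theorem W_nil : W [] = 0 := rfl
theorem W_cons (s : Tok) (l : List Tok) : W (s :: l) = Wt s + W l := rfl
theorem W_append (l l' : List Tok) : W (l ++ l') = W l + W l' := by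
  induction l with
  | nil => rw [List.nil_append, W_nil, zero_add]
  | cons s l ih => rw [List.cons_append, W_cons, W_cons, ih, add_assoc]

theorem Wt_g (x : A) : Wt (.g x) = len x + 1 := rfl
theorem Wt_up : Wt .up = M := rfl
theorem Wt_dn : Wt .dn = M := rfl

/-- `m'` is a shortcut for `m` -/
def Short (c : Coch) (m m' : List Tok) : Prop :=
  tval m = tval m' ∧ W m' < W m ∧ ∀ x, |c.J x m - c.J x m'| ≤ (W m : ℝ) - W m'

variable (c : Coch)

theorem short_merge (x y : A) : Short c [.g x, .g y] [.g (x * y)] := by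
  have h := len_mul x y
  refine ⟨?_, ?_, ?_⟩
  · rw [tval_cons, tval_cons, tval_cons, tval_nil, mul_one, mul_one]
    simp only [Tok.v, map_mul]
  · rw [W_cons, W_cons, W_cons, W_nil, Wt_g, Wt_g, Wt_g]; omega
  · intro z
    rw [Coch.J_g, Coch.J_g, Coch.J_g, Coch.J_nil, Coch.J_nil]
    have h1 := c.merge z x y
    have h2 : c.JA z x + (c.JA (z * ι x) y + 0) - (c.JA z (x * y) + 0) =
        c.JA z x + c.JA (z * ι x) y - c.JA z (x * y) := by ring
    rw [h2]
    refine h1.trans ?_
    rw [W_cons, W_cons, W_cons, W_nil, Wt_g, Wt_g, Wt_g]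
    have h3 : (len (x * y) : ℝ) ≤ len x + len y := by exact_mod_cast h
    push_cast
    linarith

theorem short_one : Short c [.g 1] [] := by
  refine ⟨?_, ?_, ?_⟩
  · rw [tval_cons, tval_nil, mul_one]; simp [Tok.v]
  · rw [W_cons, W_nil, Wt_g]; omega
  · intro z
    rw [Coch.J_g, Coch.J_nil, Coch.J_nil, Coch.JA_one, W_cons, W_nil, Wt_g, len_one]
    simp

theorem short_dnup : Short c [.dn, .up] [] := by
  refine ⟨?_, ?_, ?_⟩
  · rw [tval_cons, tval_cons, tval_nil, mul_one]; simp [Tok.v]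
  · rw [W_cons, W_cons, W_nil, Wt_dn, M]; omega
  · intro z
    rw [Coch.J_dn, Coch.J_up, Coch.J_nil, Coch.J_nil, W_cons, W_cons, W_nil, Wt_dn, Wt_up, M]
    norm_num

/-- down–`H`–up -/
theorem short_A (x : A) : Short c [.dn, .g (ψ (ψ x)), .up] [.g (ψ x)] := by
  have h1 := len_ψ_eq (ψ x)
  have h2 := nb_ψ x
  have h3 := len_le_nb x
  refine ⟨?_, ?_, ?_⟩
  · rw [tval_cons, tval_cons, tval_cons, tval_cons, tval_nil, mul_one, mul_one]
    change τ⁻¹ * (ι (ψ (ψ x)) * τ) = ι (ψ x)
    rw [ψψ_τ, inv_mul_cancel_left]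
  · rw [W_cons, W_cons, W_cons, W_cons, W_nil, Wt_g, Wt_g, Wt_dn, Wt_up, M]; omega
  · intro z
    rw [Coch.J_dn, Coch.J_g, Coch.J_up, Coch.J_g, Coch.J_nil, Coch.J_nil]
    have h4 := c.cor (z * τ⁻¹) x
    rw [inv_mul_cancel_right] at h4
    have h5 : -c.ωt (z * τ⁻¹) + (c.JA (z * τ⁻¹) (ψ (ψ x)) +
        (c.ωt (z * τ⁻¹ * ι (ψ (ψ x))) + 0)) - (c.JA z (ψ x) + 0) =
        -(c.ωt (z * τ⁻¹) + c.JA z (ψ x) - c.ωt (z * τ⁻¹ * ι (ψ (ψ x))) -
        c.JA (z * τ⁻¹) (ψ (ψ x))) := by ring
    rw [h5, abs_neg]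
    refine h4.trans ?_
    rw [W_cons, W_cons, W_cons, W_cons, W_nil, Wt_g, Wt_g, Wt_dn, Wt_up, M]
    have h6 : len x + (len (ψ x) + 1) ≤ 2002 + (len (ψ (ψ x)) + 1 + 2002) := by omega
    have h7 : (len x : ℝ) + (len (ψ x) + 1) ≤ 2002 + (len (ψ (ψ x)) + 1 + 2002) := by
      exact_mod_cast h6
    push_cast
    linarith

/-- block prefix after a down step -/
theorem short_B {x y γ : A} (h1 : nf y = nf (ψ (ψ x)) ++ nf γ) (h2 : y = ψ (ψ x) * γ)
    (h3 : len x ≤ 2) (h4 : len (ψ (ψ x)) = len (ψ x) + 12) :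
    Short c [.dn, .g y] [.g (ψ x), .dn, .g γ] := by
  have hlen : len y = len (ψ (ψ x)) + len γ := by rw [len, h1, List.length_append]; rfl
  refine ⟨?_, ?_, ?_⟩
  · rw [tval_cons, tval_cons, tval_cons, tval_cons, tval_cons, tval_nil, mul_one, mul_one, h2]
    change τ⁻¹ * ι (ψ (ψ x) * γ) = ι (ψ x) * (τ⁻¹ * ι γ)
    rw [map_mul, ← τ_conj (ψ_N x)]
    group
  · rw [W_cons, W_cons, W_cons, W_cons, W_cons, W_nil, Wt_g, Wt_g, Wt_g, Wt_dn]; omega
  · intro z
    rw [Coch.J_dn, Coch.J_g, Coch.J_g, Coch.J_dn, Coch.J_g, Coch.J_nil, Coch.J_nil]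
    have h5 := c.cor (z * τ⁻¹) x
    rw [inv_mul_cancel_right] at h5
    have h6 : c.JA (z * τ⁻¹) y = c.JA (z * τ⁻¹) (ψ (ψ x)) +
        c.JA (z * τ⁻¹ * ι (ψ (ψ x))) γ := by
      rw [Coch.JA, h1, Coch.IA_append, val_nf]; rfl
    have h7 : z * ι (ψ x) * τ⁻¹ = z * τ⁻¹ * ι (ψ (ψ x)) := by
      rw [← τ_conj (ψ_N x)]; group
    rw [h6, h7]
    have h8 : -c.ωt (z * τ⁻¹) + (c.JA (z * τ⁻¹) (ψ (ψ x)) + c.JA (z * τ⁻¹ * ι (ψ (ψ x))) γ + 0) -
        (c.JA z (ψ x) + (-c.ωt (z * τ⁻¹ * ι (ψ (ψ x))) +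
        (c.JA (z * τ⁻¹ * ι (ψ (ψ x))) γ + 0))) =
        -(c.ωt (z * τ⁻¹) + c.JA z (ψ x) - c.ωt (z * τ⁻¹ * ι (ψ (ψ x))) -
        c.JA (z * τ⁻¹) (ψ (ψ x))) := by ring
    rw [h8, abs_neg]
    refine h5.trans ?_
    rw [W_cons, W_cons, W_cons, W_cons, W_cons, W_nil, Wt_g, Wt_g, Wt_g, Wt_dn]
    have h9 : len x + (len (ψ x) + 1 + (len γ + 1)) ≤ len y + 1 := by omega
    have h10 : (len x : ℝ) + (len (ψ x) + 1 + (len γ + 1)) ≤ len y + 1 := by exact_mod_cast h9
    push_cast
    linarith

/-- block suffix before an up step -/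
theorem short_B' {x y γ : A} (h1 : nf y⁻¹ = nf (ψ (ψ x)) ++ nf γ) (h2 : y⁻¹ = ψ (ψ x) * γ)
    (h3 : len x ≤ 2) (h4 : len (ψ (ψ x)) = len (ψ x) + 12) :
    Short c [.g y, .up] [.g γ⁻¹, .up, .g (ψ x)⁻¹] := by
  have hlen : len y = len (ψ (ψ x)) + len γ := by
    rw [← len_inv y, len, h1, List.length_append]; rfl
  have hy : y = γ⁻¹ * (ψ (ψ x))⁻¹ := by rw [← mul_inv_rev, ← h2, inv_inv]
  refine ⟨?_, ?_, ?_⟩
  · rw [tval_cons, tval_cons, tval_cons, tval_cons, tval_cons, tval_nil, mul_one, mul_one, hy]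
    change ι (γ⁻¹ * (ψ (ψ x))⁻¹) * τ = ι γ⁻¹ * (τ * ι (ψ x)⁻¹)
    rw [map_mul, map_inv ι (ψ (ψ x)), ← τ_conj (ψ_N x), map_inv ι (ψ x)]
    group
  · rw [W_cons, W_cons, W_cons, W_cons, W_cons, W_nil, Wt_g, Wt_g, Wt_g, Wt_up, len_inv, len_inv]
    omega
  · intro z
    rw [Coch.J_g, Coch.J_up, Coch.J_g, Coch.J_up, Coch.J_g, Coch.J_nil, Coch.J_nil]
    have h5 := c.cor (z * ι y) x
    -- `JA z y`
    have h6 : c.JA z y = - (c.JA (z * ι y) (ψ (ψ x)) + c.JA (z * ι y * ι (ψ (ψ x))) γ) := by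
      have e1 := c.JA_inv z y
      rw [Coch.JA, h1, Coch.IA_append, val_nf] at e1
      have e2 : c.JA (z * ι y) (ψ (ψ x)) + c.JA (z * ι y * ι (ψ (ψ x))) γ = - c.JA z y := e1
      linarith
    have h7 : z * ι y * ι (ψ (ψ x)) = z * ι γ⁻¹ := by
      rw [hy, map_mul, map_inv ι (ψ (ψ x))]; group
    have h8 : c.JA z γ⁻¹ = - c.JA (z * ι γ⁻¹) γ := c.JA_inv' z γ
    have h9 : c.JA (z * ι γ⁻¹ * τ) (ψ x)⁻¹ = - c.JA (z * ι y * τ) (ψ x) := by
      rw [c.JA_inv']
      congr 2
      rw [hy, map_mul, map_inv ι (ψ (ψ x)), ← τ_conj (ψ_N x), map_inv ι (ψ x)]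
      group
    rw [h6, h7, h8, h9]
    rw [h7] at h5
    have h10 : -(c.JA (z * ι y) (ψ (ψ x)) + c.JA (z * ι γ⁻¹) γ) + (c.ωt (z * ι y) + 0) -
        (-c.JA (z * ι γ⁻¹) γ + (c.ωt (z * ι γ⁻¹) + (-c.JA (z * ι y * τ) (ψ x) + 0))) =
        c.ωt (z * ι y) + c.JA (z * ι y * τ) (ψ x) - c.ωt (z * ι γ⁻¹) -
        c.JA (z * ι y) (ψ (ψ x)) := by ring
    rw [h10]
    refine h5.trans ?_
    rw [W_cons, W_cons, W_cons, W_cons, W_cons, W_nil, Wt_g, Wt_g, Wt_g, Wt_up, len_inv, len_inv]
    have h11 : len x + (len (ψ x) + 1 + (len γ + 1)) ≤ len y + 1 := by omega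
    have h12 : (len x : ℝ) + (len (ψ x) + 1 + (len γ + 1)) ≤ len y + 1 := by exact_mod_cast h11
    push_cast
    linarith

/-- a short up-excursion -/
theorem short_C {m : List Tok} {x : A} (hm : tval m = ι (ψ x)) (hx : len (ψ (ψ x)) ≤ 1000)
    (hJ : ∀ z, |c.J z (m ++ [.g (ψ x)⁻¹])| ≤ W (m ++ [.g (ψ x)⁻¹])) :
    Short c (.up :: (m ++ [.dn])) [.g (ψ (ψ x))] := by
  have e1 := len_ψ x
  have e2 := len_ψ (ψ x)
  refine ⟨?_, ?_, ?_⟩
  · rw [tval_cons, tval_append, tval_cons, tval_nil, mul_one, tval_cons, tval_nil, mul_one, hm,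
      ← mul_assoc]
    exact τ_conj (ψ_N x)
  · simp only [W_cons, W_append, W_nil, Wt_g, Wt_dn, Wt_up, M]; omega
  · intro z
    rw [Coch.J_up, Coch.J_append, Coch.J_dn, Coch.J_g, Coch.J_nil, Coch.J_nil, hm]
    have h1 := c.cor z x
    have h2 := hJ (z * τ)
    rw [Coch.J_append, Coch.J_g, Coch.J_nil, hm, Coch.JA_inv, W_append, W_cons, W_nil, Wt_g,
      len_inv] at h2
    have h3 : z * τ * ι (ψ x) * τ⁻¹ = z * ι (ψ (ψ x)) := by
      rw [← τ_conj (ψ_N x)]; group
    rw [h3]
    have h4 : c.ωt z + (c.J (z * τ) m + (-c.ωt (z * ι (ψ (ψ x))) + 0)) -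
        (c.JA z (ψ (ψ x)) + 0) =
        (c.ωt z + c.JA (z * τ) (ψ x) - c.ωt (z * ι (ψ (ψ x))) - c.JA z (ψ (ψ x))) +
        (c.J (z * τ) m + (-c.JA (z * τ) (ψ x) + 0)) := by ring
    rw [h4]
    refine (abs_add_le _ _).trans ((add_le_add h1 h2).trans ?_)
    simp only [W_cons, W_append, W_nil, Wt_g, Wt_dn, Wt_up, M]
    have h5 : len x + (len (ψ x) + 1) + (len (ψ (ψ x)) + 1) ≤ 4004 := by omega
    have h6 : (len x : ℝ) + (len (ψ x) + 1) + (len (ψ (ψ x)) + 1) ≤ 4004 := by exact_mod_cast h5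
    push_cast
    linarith

/-- using a shortcut -/
theorem short_use {p m q m' : List Tok} (hs : Short c m m')
    (ih : ∀ z, |c.J z (p ++ (m' ++ q))| ≤ W (p ++ (m' ++ q))) (z : G) :
    |c.J z (p ++ (m ++ q))| ≤ W (p ++ (m ++ q)) := by
  obtain ⟨h1, h2, h3⟩ := hs
  have h4 := ih z
  have h5 := h3 (z * tval p)
  rw [Coch.J_append, Coch.J_append] at h4 ⊢
  rw [h1]
  have h6 : c.J z p + (c.J (z * tval p) m + c.J (z * tval p * tval m') q) =
      (c.J z p + (c.J (z * tval p) m' + c.J (z * tval p * tval m') q)) +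
      (c.J (z * tval p) m - c.J (z * tval p) m') := by ring
  rw [h6]
  refine (abs_add_le _ _).trans ((add_le_add h4 h5).trans ?_)
  rw [W_append, W_append, W_append, W_append]
  push_cast
  linarith

end Pool.Agent.Work.MP_172f05_al.Iso
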