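import Mathlib
import Pool.Agent.Work.MP_172f05_al.Hnn

/-!
# The polygon argument in `A`
(helper39, for MP_172f05_al)
-/

namespace Pool.Agent.Work.MP_172f05_al.Poly

open FP Psi Hnn

theorem half {Z v : A} (h : len (Z⁻¹ * v) ≤ len Z) : len v ≤ 2 * lcp (nf Z) (nf v) + 1 := by
  have := len_lcp Z v
  omega

theorem corner1 {Z β x : A} (hβ : β ∈ H) (hov : 188 ≤ lcp (nf β) (nf Z))
    (hx : ∀ h ∈ H, lcp (nf h) (nf x) ≤ 17) (hle : len (Z⁻¹ * x) ≤ len Z) : len x ≤ 35 := by
  have h1 := half hle
  have h2 := lcp_min (nf β) (nf Z) (nf x)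
  have h3 := hx β hβ
  omega

theorem corner2 {Z β x β' : A} (hβ : β ∈ H) (hov : 188 ≤ lcp (nf β) (nf Z))
    (hx : len x ≤ 35) (hxH : x ∉ H) (hβ' : β' ∈ H) : lcp (nf Z) (nf (x * β')) ≤ 187 := by
  have h1 := overlap_H hxH hβ hβ'
  have h2 := lcp_min (nf β) (nf Z) (nf (x * β'))
  omega

theorem corner3 {Z β x β' : A} (hβ : β ∈ H) (hov : 188 ≤ lcp (nf β) (nf Z))
    (hx : len x ≤ 35) (hxH : x ∉ H) (hβ' : β' ∈ H) (hle : len (Z⁻¹ * (x * β')) ≤ len Z) :
    len β' ≤ 410 := by
  have h1 := corner2 hβ hov hx hxH hβ'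
  have h2 := half hle
  have h3 : len β' ≤ len x + len (x * β') := by
    have := len_mul x⁻¹ (x * β')
    rw [inv_mul_cancel_left, len_inv] at this
    exact this
  omega

/-- a factor of type `e` -/
def IsE : Fac → Prop
  | .g _ => False
  | .e _ _ => True

theorem fprod_append (L R : List Fac) : fprod (L ++ R) = fprod L * fprod R := by
  simp [fprod]

theorem fprod_cons (f : Fac) (R : List Fac) : fprod (f :: R) = f.v * fprod R := by
  simp [fprod]

theorem fprod_nil : fprod [] = 1 := rfl

theorem exists_max (F : List Fac) : ∃ L R, F = L ++ R ∧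
    ∀ L' R', F = L' ++ R' → len (fprod L') ≤ len (fprod L) := by
  obtain ⟨i, hi, hmax⟩ := Finset.exists_max_image (Finset.range (F.length + 1))
    (fun i => len (fprod (F.take i))) ⟨0, by simp⟩
  refine ⟨F.take i, F.drop i, by simp, ?_⟩
  intro L' R' h
  have := hmax L'.length (by rw [h]; simp)
  have h2 : F.take L'.length = L' := by rw [h]; simp
  simp only [h2] at this
  exact this

/-- The conditions on the factors of a list without shortcuts. -/
structure Good (F : List Fac) : Prop where
  ok : ∀ f ∈ F, f.ok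
  eL : ∀ inner n, Fac.e inner n ∈ F → 1000 < len (ψ n)
  gg : ∀ L x y R, F ≠ L ++ Fac.g x :: Fac.g y :: R
  ee : ∀ L i n i' n' R, F ≠ L ++ Fac.e i n :: Fac.e i' n' :: R
  pre : ∀ L i n x R, F = L ++ Fac.e i n :: Fac.g x :: R → ∀ h ∈ H, lcp (nf h) (nf x) ≤ 17
  suf : ∀ L i n x R, F = L ++ Fac.g x :: Fac.e i n :: R → ∀ h ∈ H, lcp (nf h) (nf x⁻¹) ≤ 17
  mid : ∀ L i n x i' n' R, F = L ++ Fac.e i n :: Fac.g x :: Fac.e i' n' :: R → x ∉ H

/-- Additional conditions in the case of an inner word. -/
structure Inner (F : List Fac) : Prop where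
  first : ∀ i n R, F ≠ Fac.e i n :: R
  last : ∀ i n L, F ≠ L ++ [Fac.e i n]
  lastsuf : ∀ L x, F = L ++ [Fac.g x] → ∀ h ∈ H, lcp (nf h) (nf x⁻¹) ≤ 17
  lastmid : ∀ L i n x, F = L ++ [Fac.e i n, Fac.g x] → x ∉ H
  single : ∀ x, F ≠ [Fac.g x]

theorem Good.H {F : List Fac} (hF : Good F) {i : List Tok} {n : A} (h : Fac.e i n ∈ F) :
    ψ n ∈ H := ⟨n, (hF.ok _ h).1, rfl⟩

/-- **The polygon argument.** -/
theorem poly (F : List Fac) (hF : Good F) (hex : ∃ i n, Fac.e i n ∈ F)
    (hend : fprod F = 1 ∨ (fprod F ∈ H ∧ Inner F)) : False := by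
  obtain ⟨L, R, hLR, hmax⟩ := exists_max F
  -- the maximal length is large
  have hbig : 500 ≤ len (fprod L) := by
    obtain ⟨i, n, hi⟩ := hex
    obtain ⟨L1, R1, h1⟩ := List.append_of_mem hi
    have h2 := hmax L1 _ h1
    have h3 := hmax (L1 ++ [Fac.e i n]) R1 (by rw [h1]; simp)
    rw [fprod_append, fprod_cons, fprod_nil, mul_one] at h3
    have h4 := hF.eL i n hi
    have h5 := len_mul (fprod L1)⁻¹ (fprod L1 * (Fac.e i n).v)
    rw [inv_mul_cancel_left, len_inv] at h5
    have h6 : (Fac.e i n).v = ψ n := rfl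
    rw [h6] at h5 h3
    omega
  have hZ : len (fprod L)⁻¹ = len (fprod L) := len_inv _
  -- any other prefix is shorter
  have hshort : ∀ L' R' w, F = L' ++ R' → fprod L' = fprod L * w →
      len (((fprod L)⁻¹)⁻¹ * w) ≤ len (fprod L)⁻¹ := by
    intro L' R' w h1 h2
    rw [inv_inv, ← h2, hZ]
    exact hmax L' R' h1
  -- an adjacent `e`-side has a large overlap
  have hlarge : ∀ β, len (((fprod L)⁻¹)⁻¹ * β) ≤ len (fprod L)⁻¹ → 1000 < len β →
      188 ≤ lcp (nf β) (nf (fprod L)⁻¹) := by
    intro β h1 h2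
    have := half h1
    rw [lcp_comm]
    omega
  rcases List.eq_nil_or_concat L with hL | ⟨L1, f, hL⟩
  · rw [hL, fprod_nil, len_one] at hbig
    omega
  rw [List.concat_eq_append] at hL
  have hv : fprod L = fprod L1 * f.v := by rw [hL, fprod_append, fprod_cons, fprod_nil, mul_one]
  have hv' : fprod L1 = fprod L * f.v⁻¹ := by rw [hv]; group
  have hsh1 := hshort L1 (f :: R) f.v⁻¹ (by rw [hLR, hL]; simp) hv'
  cases R with
  | nil =>
    -- the last vertex
    rw [List.append_nil] at hLR
    rcases hend with h | ⟨hH, hI⟩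
    · rw [← hLR, h, len_one] at hbig; omega
    cases f with
    | e i n => exact hI.last i n L1 (by rw [hLR, hL])
    | g y =>
      have hZH : (fprod L)⁻¹ ∈ H := by rw [← hLR]; exact H.inv_mem hH
      have hov : 188 ≤ lcp (nf (fprod L)⁻¹) (nf (fprod L)⁻¹) := by
        rw [lcp_self]
        change 188 ≤ len (fprod L)⁻¹
        omega
      have hy := corner1 hZH hov (hI.lastsuf L1 y (by rw [hLR, hL])) hsh1
      rcases List.eq_nil_or_concat L1 with hL1 | ⟨L2, f2, hL1⟩
      · exact hI.single y (by rw [hLR, hL, hL1]; rfl)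
      rw [List.concat_eq_append] at hL1
      cases f2 with
      | g x => exact hF.gg L2 x y [] (by rw [hLR, hL, hL1]; simp)
      | e i n =>
        have hyH : y⁻¹ ∉ H := fun h => hI.lastmid L2 i n y (by rw [hLR, hL, hL1]; simp)
          (by simpa using H.inv_mem h)
        have hmem : Fac.e i n ∈ F := by rw [hLR, hL, hL1]; simp
        have hβ' : (ψ n)⁻¹ ∈ H := H.inv_mem (hF.H hmem)
        have hpr : fprod L2 = fprod L * (y⁻¹ * (ψ n)⁻¹) := by
          rw [hL, hL1, fprod_append, fprod_append, fprod_cons, fprod_cons, fprod_nil]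
          simp only [Fac.v]
          group
        have hsh2 := hshort L2 [Fac.e i n, Fac.g y] _ (by rw [hLR, hL, hL1]; simp) hpr
        have := corner3 hZH hov hy hyH hβ' hsh2
        rw [len_inv] at this
        have := hF.eL i n hmem
        omega
  | cons f' R1 =>
    have hsh1' := hshort (L ++ [f']) R1 f'.v (by rw [hLR]; simp)
      (by rw [fprod_append, fprod_cons, fprod_nil, mul_one])
    cases f with
    | e i n =>
      have hmem : Fac.e i n ∈ F := by rw [hLR, hL]; simp
      have hβ : (ψ n)⁻¹ ∈ H := H.inv_mem (hF.H hmem)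
      have hlen := hF.eL i n hmem
      have hov := hlarge (ψ n)⁻¹ hsh1 (by rw [len_inv]; exact hlen)
      cases f' with
      | e i' n' => exact hF.ee L1 i n i' n' R1 (by rw [hLR, hL]; simp)
      | g x =>
        have hx := corner1 hβ hov (hF.pre L1 i n x R1 (by rw [hLR, hL]; simp)) hsh1'
        cases R1 with
        | nil =>
          have hF' : fprod F = fprod L * x := by
            rw [hLR, fprod_append, fprod_cons, fprod_nil, mul_one]; rfl
          rcases hend with h | ⟨hH, hI⟩
          · rw [h] at hF'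
            have : x = (fprod L)⁻¹ := eq_inv_of_mul_eq_one_right hF'.symm
            rw [this] at hx
            omega
          · have hxH := hI.lastmid L1 i n x (by rw [hLR, hL]; simp)
            have h1 := corner2 hβ hov hx hxH (H.inv_mem hH)
            have h2 : x * (fprod F)⁻¹ = (fprod L)⁻¹ := by rw [hF']; group
            rw [h2, lcp_self] at h1
            change len (fprod L)⁻¹ ≤ 187 at h1
            omega
        | cons f2 R2 =>
          cases f2 with
          | g y => exact hF.gg L x y R2 (by rw [hLR])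
          | e i' n' =>
            have hmem' : Fac.e i' n' ∈ F := by rw [hLR]; simp
            have hxH := hF.mid L1 i n x i' n' R2 (by rw [hLR, hL]; simp)
            have hpr : fprod (L ++ [Fac.g x, Fac.e i' n']) = fprod L * (x * ψ n') := by
              rw [fprod_append, fprod_cons, fprod_cons, fprod_nil, mul_one]; rfl
            have hsh2 := hshort (L ++ [Fac.g x, Fac.e i' n']) R2 _ (by rw [hLR]; simp) hpr
            have := corner3 hβ hov hx hxH (hF.H hmem') hsh2
            have := hF.eL i' n' hmem'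
            omega
    | g y =>
      cases f' with
      | g x => exact hF.gg L1 y x R1 (by rw [hLR, hL]; simp)
      | e i n =>
        have hmem : Fac.e i n ∈ F := by rw [hLR]; simp
        have hβ : ψ n ∈ H := hF.H hmem
        have hlen := hF.eL i n hmem
        have hov := hlarge (ψ n) hsh1' hlen
        have hy := corner1 hβ hov (hF.suf L1 i n y R1 (by rw [hLR, hL]; simp)) hsh1
        rcases List.eq_nil_or_concat L1 with hL1 | ⟨L2, f2, hL1⟩
        · -- first item
          have : fprod L = y := by rw [hL, hL1, List.nil_append, fprod_cons, fprod_nil, mul_one]; rfl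
          change len y⁻¹ ≤ 35 at hy
          rw [this] at hbig
          rw [len_inv] at hy
          omega
        rw [List.concat_eq_append] at hL1
        cases f2 with
        | g x => exact hF.gg L2 x y (Fac.e i n :: R1) (by rw [hLR, hL, hL1]; simp)
        | e i' n' =>
          have hmem' : Fac.e i' n' ∈ F := by rw [hLR, hL, hL1]; simp
          have hyH : y⁻¹ ∉ H := fun h => hF.mid L2 i' n' y i n R1 (by rw [hLR, hL, hL1]; simp)
            (by simpa using H.inv_mem h)
          have hpr : fprod L2 = fprod L * (y⁻¹ * (ψ n')⁻¹) := by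
            rw [hL, hL1, fprod_append, fprod_append, fprod_cons, fprod_cons, fprod_nil]
            simp only [Fac.v]
            group
          have hsh2 := hshort L2 (Fac.e i' n' :: Fac.g y :: Fac.e i n :: R1) _
            (by rw [hLR, hL, hL1]; simp) hpr
          have := corner3 hβ hov hy hyH (H.inv_mem (hF.H hmem')) hsh2
          rw [len_inv] at this
          have := hF.eL i' n' hmem'
          omega

end Pool.Agent.Work.MP_172f05_al.Poly
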