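import Mathlib
import Pool.Agent.Work.MP_172f05_al.Poly
import Pool.Agent.Work.MP_172f05_al.Coch

/-!
# The linear isoperimetric inequality for `G`
(helper39, for MP_172f05_al)
-/

namespace Pool.Agent.Work.MP_172f05_al.Iso

open FP Psi Hnn Poly

/-- no shortcuts in `l` -/
def NS (c : Coch) (l : List Tok) : Prop :=
  ∀ p m q m', l = p ++ (m ++ q) → ¬ Short c m m'

theorem e_or {F : List Fac} (hgg : ∀ L x y R, F ≠ L ++ Fac.g x :: Fac.g y :: R) :
    (∃ i n, Fac.e i n ∈ F) ∨ F = [] ∨ ∃ x, F = [Fac.g x] := by
  match F, hgg with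
  | [], _ => exact Or.inr (Or.inl rfl)
  | [.g x], _ => exact Or.inr (Or.inr ⟨x, rfl⟩)
  | .e i n :: F, _ => exact Or.inl ⟨i, n, by simp⟩
  | .g x :: .g y :: F, h => exact absurd rfl (h [] x y F)
  | .g x :: .e i n :: F, _ => exact Or.inl ⟨i, n, by simp⟩

variable {c : Coch} {l : List Tok}

theorem NS.pre {p q : List Tok} {x : A} (hNS : NS c l) (h : l = p ++ ([.dn, .g x] ++ q)) :
    ∀ h ∈ H, lcp (nf h) (nf x) ≤ 17 := by
  intro h' hh
  by_contra hcon
  obtain ⟨y, γ, h1, h2, h3, _, _, h4⟩ := block_prefix hh (show 18 ≤ lcp (nf h') (nf x) by omega)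
  exact hNS _ _ _ _ h (short_B c h1 h2 h3 h4)

theorem NS.suf {p q : List Tok} {x : A} (hNS : NS c l) (h : l = p ++ ([.g x, .up] ++ q)) :
    ∀ h ∈ H, lcp (nf h) (nf x⁻¹) ≤ 17 := by
  intro h' hh
  by_contra hcon
  obtain ⟨y, γ, h1, h2, h3, _, _, h4⟩ := block_prefix hh (show 18 ≤ lcp (nf h') (nf x⁻¹) by omega)
  exact hNS _ _ _ _ h (short_B' c h1 h2 h3 h4)

theorem NS.mid {p q : List Tok} {x : A} (hNS : NS c l) (h : l = p ++ ([.dn, .g x, .up] ++ q)) :
    x ∉ H := by
  intro hx
  obtain ⟨y, rfl⟩ := mem_H.1 hx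
  exact hNS _ _ _ _ h (short_A c y)

theorem NS.good (hNS : NS c l)
    (ih : ∀ l', W l' < W l → tval l' = 1 → ∀ z, |c.J z l'| ≤ W l')
    {P Q : List Tok} {F : List Fac} (hl : l = P ++ (F.flatMap Fac.toks ++ Q))
    (hok : ∀ f ∈ F, f.ok) : Good F where
  ok := hok
  eL := by
    intro inner n hmem
    by_contra hcon
    obtain ⟨L, R, hLR⟩ := List.append_of_mem hmem
    obtain ⟨hn, hv⟩ := hok _ hmem
    obtain ⟨x, rfl⟩ := hn
    have hl' : l = (P ++ L.flatMap Fac.toks) ++ ((Tok.up :: (inner ++ [Tok.dn])) ++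
        (R.flatMap Fac.toks ++ Q)) := by
      rw [hl, hLR]; simp [Fac.toks]
    have e2 := len_ψ (ψ x)
    refine hNS _ _ _ _ hl' (short_C c hv (by omega) (ih _ ?_ ?_))
    · rw [hl']
      simp only [W_cons, W_append, W_nil, Wt_g, Wt_dn, Wt_up, M, len_inv]
      omega
    · rw [tval_append, hv, tval_cons, tval_nil, mul_one]
      change ι (ψ x) * ι (ψ x)⁻¹ = 1
      rw [map_inv, mul_inv_cancel]
  gg := by
    intro L x y R hLR
    exact hNS (P ++ L.flatMap Fac.toks) [.g x, .g y] (R.flatMap Fac.toks ++ Q) _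
      (by rw [hl, hLR]; simp [Fac.toks]) (short_merge c x y)
  ee := by
    intro L i n i' n' R hLR
    exact hNS (P ++ L.flatMap Fac.toks ++ (.up :: i)) [.dn, .up]
      (i' ++ ([.dn] ++ (R.flatMap Fac.toks ++ Q))) _
      (by rw [hl, hLR]; simp [Fac.toks]) (short_dnup c)
  pre := by
    intro L i n x R hLR
    exact hNS.pre (p := P ++ L.flatMap Fac.toks ++ (.up :: i)) (q := R.flatMap Fac.toks ++ Q)
      (by rw [hl, hLR]; simp [Fac.toks])
  suf := by
    intro L i n x R hLR
    exact hNS.suf (p := P ++ L.flatMap Fac.toks)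
      (q := (i ++ [Tok.dn]) ++ (R.flatMap Fac.toks ++ Q))
      (by rw [hl, hLR]; simp [Fac.toks])
  mid := by
    intro L i n x i' n' R hLR
    exact hNS.mid (p := P ++ L.flatMap Fac.toks ++ (.up :: i))
      (q := (i' ++ [Tok.dn]) ++ (R.flatMap Fac.toks ++ Q))
      (by rw [hl, hLR]; simp [Fac.toks])

/-- **Linear isoperimetric inequality** (dual form). -/
theorem iso (c : Coch) (l : List Tok) (hl : tval l = 1) (z : G) : |c.J z l| ≤ W l := by
  induction hn : W l using Nat.strong_induction_on generalizing l z with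
  | _ n ih =>
    rw [← hn]
    have ih' : ∀ l', W l' < W l → tval l' = 1 → ∀ z, |c.J z l'| ≤ W l' := by
      intro l' h1 h2 z'
      exact ih (W l') (by omega) l' h2 z' rfl
    clear ih hn
    by_cases hNS : NS c l
    swap
    · unfold NS at hNS
      push Not at hNS
      obtain ⟨p, m, q, m', h1, h2⟩ := hNS
      rw [h1]
      apply short_use c h2
      intro z'
      apply ih'
      · rw [h1, W_append, W_append, W_append, W_append]
        have := h2.2.1
        omega
      · rw [tval_append, tval_append, ← h2.1, ← tval_append, ← tval_append, ← h1, hl]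
    · have hl1 : ∃ x, tval l = ι x := ⟨1, by rw [hl, map_one]⟩
      rcases decomp l hl1 with hU | ⟨p, w, q, h1, hU, h, hh, hw⟩
      · obtain ⟨F, hok, hF⟩ := factors hU
        have hG : Good F := hNS.good ih' (P := []) (Q := []) (by simpa using hF) hok
        have hpr : fprod F = 1 := by
          apply ι_injective
          rw [← tval_flatMap hok, ← hF, hl, map_one]
        rcases e_or hG.gg with h1 | h1 | ⟨x, h1⟩
        · exact (poly F hG h1 (Or.inl hpr)).elim
        · rw [hF, h1]
          simp [Coch.J_nil, W_nil]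
        · exfalso
          rw [h1, fprod_cons, fprod_nil, mul_one] at hpr
          change x = 1 at hpr
          refine hNS [] [.g 1] [] _ ?_ (short_one c)
          rw [hF, h1, hpr]; simp [Fac.toks]
      · exfalso
        obtain ⟨F, hok, hF⟩ := factors hU
        have hl2 : l = (p ++ [Tok.dn]) ++ (F.flatMap Fac.toks ++ ([Tok.up] ++ q)) := by
          rw [h1, hF]; simp
        have hG : Good F := hNS.good ih' hl2 hok
        have hpr : fprod F = h := by
          apply ι_injective
          rw [← tval_flatMap hok, ← hF, hw]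
        have hsingle : ∀ x, F ≠ [Fac.g x] := by
          intro x hx
          rw [hx, fprod_cons, fprod_nil, mul_one] at hpr
          change x = h at hpr
          refine hNS.mid (p := p) (q := q) (x := x) ?_ (by rw [hpr]; exact hh)
          rw [hl2, hx]; simp [Fac.toks]
        have hI : Inner F :=
          { first := by
              intro i n R hF'
              exact hNS p [.dn, .up] ((i ++ [Tok.dn]) ++ (R.flatMap Fac.toks ++ ([Tok.up] ++ q))) _
                (by rw [hl2, hF']; simp [Fac.toks]) (short_dnup c)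
            last := by
              intro i n L hF'
              exact hNS (p ++ [Tok.dn] ++ (L.flatMap Fac.toks ++ (.up :: i))) [.dn, .up] q _
                (by rw [hl2, hF']; simp [Fac.toks]) (short_dnup c)
            lastsuf := by
              intro L x hF'
              exact hNS.suf (p := p ++ [Tok.dn] ++ L.flatMap Fac.toks) (q := q)
                (by rw [hl2, hF']; simp [Fac.toks])
            lastmid := by
              intro L i n x hF'
              exact hNS.mid (p := p ++ [Tok.dn] ++ (L.flatMap Fac.toks ++ (.up :: i))) (q := q)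
                (by rw [hl2, hF']; simp [Fac.toks])
            single := hsingle }
        rcases e_or hG.gg with h2 | h2 | ⟨x, h2⟩
        · exact poly F hG h2 (Or.inr ⟨by rw [hpr]; exact hh, hI⟩)
        · refine hNS p [.dn, .up] q _ ?_ (short_dnup c)
          rw [hl2, h2]; simp
        · exact hsingle x h2

end Pool.Agent.Work.MP_172f05_al.Iso
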