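import Mathlib

/-!
# A linear bound for circulations implies slim triangles

`d` is an integer valued metric on `X` with discrete geodesics.  If for all closed edge paths `p`
of length `n` and all 1-Lipschitz `f`, `g` the circulation `∑ f dg` along `p` is at most `K n`,
then geodesic triangles are `72 (K+1)`-slim.
-/

namespace Pool.Agent.Work.MP_172f05_al.Slim

open Finset

variable {X : Type*}

/-- `p` restricted to `0, …, n` is a discrete geodesic. -/
def IsGeo (d : X → X → ℕ) (p : ℕ → X) (n : ℕ) : Prop :=
  ∀ i j, i ≤ j → j ≤ n → d (p i) (p j) = j - i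

/-- An integer valued (pseudo-)metric in which any two points are joined by a geodesic. -/
structure DMet (d : X → X → ℕ) : Prop where
  self : ∀ x, d x x = 0
  symm : ∀ x y, d x y = d y x
  tri : ∀ x y z, d x z ≤ d x y + d y z
  geo : ∀ x y, ∃ p : ℕ → X, p 0 = x ∧ p (d x y) = y ∧ IsGeo d p (d x y)

/-- Linear bound for the circulation of `f dg` along closed edge paths. -/
def Circ (d : X → X → ℕ) (K : ℕ) : Prop :=
  ∀ (p : ℕ → X) (n : ℕ), p n = p 0 → (∀ i < n, d (p i) (p (i + 1)) = 1) →
    ∀ f g : X → ℤ, (∀ x y, |f x - f y| ≤ d x y) → (∀ x y, |g x - g y| ≤ d x y) →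
      |∑ i ∈ range n, f (p i) * (g (p (i + 1)) - g (p i))| ≤ K * n

/-- Edge paths of length `n` from `x` to `y` all of whose points satisfy `P`. -/
inductive PathIn (d : X → X → ℕ) (P : X → Prop) : X → X → ℕ → Prop
  | nil {x : X} : P x → PathIn d P x x 0
  | cons {x y z : X} {n : ℕ} : P x → d x y = 1 → PathIn d P y z n → PathIn d P x z (n + 1)

variable {d : X → X → ℕ}

theorem PathIn.trans {P : X → Prop} {x y z : X} {m n : ℕ} (h1 : PathIn d P x y m)
    (h2 : PathIn d P y z n) : PathIn d P x z (m + n) := by
  induction h1 with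
  | nil _ => simpa using h2
  | cons hx hd _ ih =>
    have := PathIn.cons hx hd (ih h2)
    rwa [show ∀ a b : ℕ, a + 1 + b = a + b + 1 by intros; omega]

theorem PathIn.snoc {P : X → Prop} {x y z : X} {m : ℕ} (h1 : PathIn d P x y m)
    (hd : d y z = 1) (hz : P z) (hy : P y) : PathIn d P x z (m + 1) :=
  h1.trans (PathIn.cons hy hd (PathIn.nil hz))

theorem PathIn.last {P : X → Prop} {x y : X} {m : ℕ} (h1 : PathIn d P x y m) : P y := by
  induction h1 with
  | nil h => exact h
  | cons _ _ _ ih => exact ih

theorem PathIn.symm (hs : ∀ x y, d x y = d y x) {P : X → Prop} {x y : X} {m : ℕ}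
    (h1 : PathIn d P x y m) : PathIn d P y x m := by
  induction h1 with
  | nil h => exact PathIn.nil h
  | @cons x y z n hx hd hp ih =>
    have hy : P y := ih.last
    exact ih.snoc (by rw [hs]; exact hd) hx hy

/-- A path as a function. -/
theorem PathIn.fn {P : X → Prop} {x y : X} {m : ℕ} (h1 : PathIn d P x y m) :
    ∃ p : ℕ → X, p 0 = x ∧ p m = y ∧ (∀ i ≤ m, P (p i)) ∧ ∀ i < m, d (p i) (p (i + 1)) = 1 := by
  induction h1 with
  | @nil x h =>
    exact ⟨fun _ => x, rfl, rfl, fun _ _ => h, fun i hi => absurd hi (by omega)⟩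
  | @cons x y z n hx hd hp ih =>
    obtain ⟨p, h0, hn, hP, hst⟩ := ih
    refine ⟨fun i => if i = 0 then x else p (i - 1), by simp, by simp [hn], ?_, ?_⟩
    · intro i hi
      by_cases h : i = 0
      · simp [h, hx]
      · simp only [h, if_false]
        exact hP _ (by omega)
    · intro i hi
      by_cases h : i = 0
      · subst h
        simp [h0, hd]
      · have h1 : i + 1 ≠ 0 := by omega
        simp only [h, h1, if_false]
        have := hst (i - 1) (by omega)
        rwa [show i + 1 - 1 = i - 1 + 1 by omega]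

/-- A segment of a geodesic is a path (increasing direction). -/
theorem IsGeo.path {P : X → Prop} {p : ℕ → X} {n a b : ℕ} (hp : IsGeo d p n) (hab : a ≤ b)
    (hb : b ≤ n) (hP : ∀ j, a ≤ j → j ≤ b → P (p j)) : PathIn d P (p a) (p b) (b - a) := by
  obtain ⟨k, rfl⟩ := Nat.exists_eq_add_of_le hab
  induction k with
  | zero => simpa using PathIn.nil (hP a (le_refl _) (by omega))
  | succ k ih =>
    have h1 := ih (by omega) (by omega) (fun j h1 h2 => hP j h1 (by omega))
    have h2 : d (p (a + k)) (p (a + (k + 1))) = 1 := by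
      rw [hp _ _ (by omega) (by omega)]; omega
    have h3 := h1.snoc h2 (hP _ (by omega) (le_refl _)) (hP _ (by omega) (by omega))
    rwa [show a + (k + 1) - a = a + k - a + 1 by omega]

/-- A segment of a geodesic is a path, in both directions. -/
theorem IsGeo.path' (hm : DMet d) {P : X → Prop} {p : ℕ → X} {n a b : ℕ} (hp : IsGeo d p n)
    (ha : a ≤ n) (hb : b ≤ n) (hP : ∀ j, j ≤ n → P (p j)) :
    PathIn d P (p a) (p b) (d (p a) (p b)) := by
  rcases le_total a b with h | h
  · rw [hp a b h hb]
    exact hp.path h hb (fun j _ h2 => hP j (by omega))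
  · rw [hm.symm, hp b a h ha]
    exact (hp.path h ha (fun j _ h2 => hP j (by omega))).symm hm.symm

/-- A geodesic between two points as a path. -/
theorem DMet.path (hm : DMet d) {P : X → Prop} (x y : X)
    (hP : ∀ z, d x z + d z y = d x y → P z) : PathIn d P x y (d x y) := by
  obtain ⟨p, h0, h1, hg⟩ := hm.geo x y
  have := hg.path (P := P) (a := 0) (b := d x y) (by omega) (le_refl _) (by
    intro j _ hj
    apply hP
    have e1 := hg 0 j (by omega) hj
    have e2 := hg j (d x y) hj (le_refl _)
    rw [h0] at e1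
    rw [h1] at e2
    omega)
  rwa [h0, h1, Nat.sub_zero] at this

/-- **Lemma A**.  A geodesic and a path with the same ends are close on average. -/
theorem lemmaA (hm : DMet d) {K : ℕ} (hF : Circ d K) {α : ℕ → X} {m n : ℕ} (hα : IsGeo d α m)
    {P : X → Prop} (hp : PathIn d P (α 0) (α m) n) (E : ℕ → ℕ)
    (hE : ∀ j < m, ∀ z, P z → E j ≤ d (α j) z) : ∑ j ∈ range m, E j ≤ K * (m + n) := by
  obtain ⟨p, hp0, hpn, hP, hst⟩ := hp.fn
  -- the closed path
  set q : ℕ → X := fun j => if j ≤ m then α j else p (m + n - j) with hq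
  have hq1 : ∀ j ≤ m, q j = α j := fun j hj => by simp [hq, hj]
  have hq2 : ∀ t ≤ n, q (m + t) = p (n - t) := by
    intro t ht
    rcases Nat.eq_zero_or_pos t with h | h
    · subst h
      simp [hq, hpn]
    · have : ¬ (m + t ≤ m) := by omega
      simp only [hq, this, if_false]
      congr 1
      omega
  -- the functions
  set f : X → ℕ := fun z => (range m).sup (fun i => E i - d z (α i)) with hf
  have hfle : ∀ x y, f x ≤ f y + d x y := by
    intro x y
    apply Finset.sup_le
    intro i hi
    have h1 : E i - d y (α i) ≤ f y := Finset.le_sup (f := fun i => E i - d y (α i)) hi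
    have h2 := hm.tri y x (α i)
    have h3 := hm.symm y x
    omega
  have hfL : ∀ x y, |(f x : ℤ) - f y| ≤ d x y := by
    intro x y
    have h1 := hfle x y
    have h2 := hfle y x
    have h3 := hm.symm y x
    rw [abs_le]
    constructor <;> omega
  have hgL : ∀ x y, |(d (α 0) x : ℤ) - d (α 0) y| ≤ d x y := by
    intro x y
    have h1 := hm.tri (α 0) x y
    have h2 := hm.tri (α 0) y x
    have h3 := hm.symm y x
    rw [abs_le]
    constructor <;> omega
  have hf0 : ∀ z, P z → f z = 0 := by
    intro z hz
    apply Nat.le_zero.mp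
    apply Finset.sup_le
    intro i hi
    have := hE i (Finset.mem_range.mp hi) z hz
    have h3 := hm.symm z (α i)
    omega
  have hfE : ∀ i < m, E i ≤ f (α i) := by
    intro i hi
    have h1 : E i - d (α i) (α i) ≤ f (α i) :=
      Finset.le_sup (f := fun j => E j - d (α i) (α j)) (Finset.mem_range.mpr hi)
    rw [hm.self] at h1
    omega
  have key := hF q (m + n) (by
      have h1 := hq2 n (le_refl _)
      have h2 := hq1 0 (by omega)
      rw [h1, h2, Nat.sub_self, hp0]) (by
      intro i hi
      rcases lt_or_ge i m with h | h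
      · rw [hq1 i h.le, hq1 (i + 1) h, hα _ _ (by omega) (by omega)]
        omega
      · obtain ⟨t, rfl⟩ := Nat.exists_eq_add_of_le h
        rw [hq2 t (by omega), show m + t + 1 = m + (t + 1) by omega, hq2 (t + 1) (by omega),
          hm.symm]
        have := hst (n - (t + 1)) (by omega)
        rwa [show n - (t + 1) + 1 = n - t by omega] at this)
    (fun z => (f z : ℤ)) (fun z => (d (α 0) z : ℤ)) hfL hgL
  rw [Finset.sum_range_add] at key
  have e2 : ∑ x ∈ range n, ((fun z => (f z : ℤ)) (q (m + x)) *
      ((fun z => (d (α 0) z : ℤ)) (q (m + x + 1)) - (fun z => (d (α 0) z : ℤ)) (q (m + x)))) = 0 := by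
    apply Finset.sum_eq_zero
    intro t ht
    have ht' := Finset.mem_range.mp ht
    have : f (q (m + t)) = 0 := by
      rw [hq2 t ht'.le]
      exact hf0 _ (hP _ (by omega))
    simp [this]
  have e1 : ∑ x ∈ range m, ((fun z => (f z : ℤ)) (q x) *
      ((fun z => (d (α 0) z : ℤ)) (q (x + 1)) - (fun z => (d (α 0) z : ℤ)) (q x)))
      = ∑ x ∈ range m, (f (α x) : ℤ) := by
    apply Finset.sum_congr rfl
    intro x hx
    have hx' := Finset.mem_range.mp hx
    simp only
    rw [hq1 x hx'.le, hq1 (x + 1) hx', hα 0 x (by omega) hx'.le, hα 0 (x + 1) (by omega) hx']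
    push_cast
    simp
  rw [e1, e2, add_zero] at key
  have h1 : (∑ j ∈ range m, (E j : ℤ)) ≤ ∑ x ∈ range m, (f (α x) : ℤ) := by
    apply Finset.sum_le_sum
    intro i hi
    exact_mod_cast hfE i (Finset.mem_range.mp hi)
  have h2 := le_trans h1 (le_trans (le_abs_self _) key)
  exact_mod_cast h2

/-- The bump lemma. -/
theorem bump (hm : DMet d) {K : ℕ} (hF : Circ d K) {α : ℕ → X} {l a i b D n : ℕ}
    (hα : IsGeo d α l) (hai : a + D ≤ i) (hib : i + D ≤ b) (hbl : b ≤ l)
    (hp : PathIn d (fun z => D ≤ d (α i) z) (α a) (α b) n) : D * D ≤ K * (b - a + n) := by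
  have hα' : IsGeo d (fun j => α (a + j)) (b - a) := by
    intro j k hjk hk
    simp only
    rw [hα _ _ (by omega) (by omega)]
    omega
  have hp' : PathIn d (fun z => D ≤ d (α i) z) ((fun j => α (a + j)) 0)
      ((fun j => α (a + j)) (b - a)) n := by
    simp only [Nat.add_zero]
    rwa [show a + (b - a) = b by omega]
  set E : ℕ → ℕ := fun j => if a + j ≤ i then D - (i - (a + j)) else D - (a + j - i) with hE
  have h1 := lemmaA hm hF hα' hp' E (by
    intro j hj z hz
    simp only [hE]
    have ht := hm.tri (α i) (α (a + j)) z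
    split_ifs with h
    · have : d (α i) (α (a + j)) = i - (a + j) := by
        rw [hm.symm, hα _ _ h (by omega)]
      omega
    · have : d (α i) (α (a + j)) = a + j - i := by
        rw [hα _ _ (by omega) (by omega)]
      omega)
  refine le_trans ?_ h1
  obtain ⟨e, he⟩ : ∃ e, b - a = (i - a - D) + (D + (D + e)) := ⟨b - a - (i - a - D) - D - D, by omega⟩
  rw [he, Finset.sum_range_add, Finset.sum_range_add, Finset.sum_range_add]
  have e1 : ∑ x ∈ range D, E (i - a - D + x) = ∑ x ∈ range D, x := by
    apply Finset.sum_congr rfl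
    intro x hx
    have := Finset.mem_range.mp hx
    simp only [hE]
    split_ifs <;> omega
  have e2 : ∑ x ∈ range D, E (i - a - D + (D + x)) = ∑ x ∈ range D, (D - x) := by
    apply Finset.sum_congr rfl
    intro x hx
    have := Finset.mem_range.mp hx
    simp only [hE]
    split_ifs <;> omega
  rw [e1, e2]
  have e3 : ∑ x ∈ range D, x + ∑ x ∈ range D, (D - x) = D * D := by
    rw [← Finset.sum_add_distrib]
    rw [Finset.sum_congr rfl (g := fun _ => D)]
    · simp
    · intro x hx
      have := Finset.mem_range.mp hx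
      omega
  omega

theorem arith1 {D K c : ℕ} (h : D * D ≤ K * (c * D)) (hD : 0 < D) : D ≤ K * c := by
  have : D * D ≤ (K * c) * D := by rw [mul_assoc]; exact h
  exact Nat.le_of_mul_le_mul_right this hD

theorem arith2 {D K : ℕ} (hK : 0 < K) (h : D * D ≤ K * (52 * D + 20 * K)) : D ≤ 72 * K := by
  by_contra hc
  have hc' : 72 * K < D := by omega
  have h1 : (72 * K) * D ≤ D * D := Nat.mul_le_mul_right _ hc'.le
  have h2 : (72 * K) * K ≤ D * K := Nat.mul_le_mul_right _ hc'.le
  have h3 : 0 < K * K := Nat.mul_pos hK hK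
  nlinarith

theorem sumE (D M : ℕ) (hD : 0 < D) : 10 * D * M ≤
    ∑ j ∈ range (30 * D), (if 10 * D < j ∧ j ≤ 20 * D then M else 0) := by
  rw [← Finset.sum_filter, Finset.sum_const, smul_eq_mul]
  apply Nat.mul_le_mul_right
  have h : Finset.Ioc (10 * D) (20 * D) ⊆ (range (30 * D)).filter
      (fun j => 10 * D < j ∧ j ≤ 20 * D) := by
    intro x hx
    rw [Finset.mem_Ioc] at hx
    rw [Finset.mem_filter, Finset.mem_range]
    omega
  have := Finset.card_le_card h
  rw [Nat.card_Ioc] at this
  omega

theorem arith3 {D K L : ℕ} (hK : 0 < K) (hD : 0 < D) (h : 10 * D * (8 * K) ≤ K * L)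
    (hL : L ≤ 74 * D) : False := by
  have h1 : K * (80 * D) ≤ K * (74 * D) := by
    calc K * (80 * D) = 10 * D * (8 * K) := by ring
      _ ≤ K * L := h
      _ ≤ K * (74 * D) := Nat.mul_le_mul_left _ hL
  have := Nat.le_of_mul_le_mul_left h1 hK
  omega

/-- `D` is the largest distance from a point of a side of the geodesic triangle (sides `α` from
`x` to `y`, `β` from `y` to `z`, `γ` from `z` to `x`) to the other two sides, attained on `α`. -/
theorem core (hm : DMet d) {K : ℕ} (hK : 0 < K) (hF : Circ d K) {α β γ : ℕ → X} {l m n i D : ℕ}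
    (hα : IsGeo d α l) (hβ : IsGeo d β m) (hγ : IsGeo d γ n)
    (hαβ : α l = β 0) (hβγ : β m = γ 0) (hγα : γ n = α 0) (hi : i ≤ l)
    (h1 : ∀ j ≤ m, D ≤ d (α i) (β j)) (h2 : ∀ j ≤ n, D ≤ d (α i) (γ j))
    (hDα : ∀ j ≤ l, (∃ k ≤ m, d (α j) (β k) ≤ D) ∨ ∃ k ≤ n, d (α j) (γ k) ≤ D)
    (hDγ : ∀ j ≤ n, (∃ k ≤ l, d (γ j) (α k) ≤ D) ∨ ∃ k ≤ m, d (γ j) (β k) ≤ D) :
    D ≤ 72 * K := by
  by_contra hcon
  rw [not_le] at hcon
  -- distances along `α`
  have hαd : ∀ j k, j ≤ k → k ≤ l → d (α j) (α k) = k - j := fun j k h1 h2 => hα j k h1 h2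
  have hDi : D ≤ i := by
    have := h2 n (le_refl _)
    rw [hγα, hm.symm, hα 0 i (by omega) hi] at this
    omega
  have hDl : i + D ≤ l := by
    have := h1 0 (by omega)
    rw [← hαβ, hα i l hi (le_refl _)] at this
    omega
  obtain ⟨a, ha⟩ : ∃ a, a = i - 2 * D := ⟨_, rfl⟩
  obtain ⟨b, hb⟩ : ∃ b, b = min (i + 2 * D) l := ⟨_, rfl⟩
  have hai : a + D ≤ i := by omega
  have hib : i + D ≤ b := by omega
  have hbl : b ≤ l := by omega
  have hua : d (α i) (α a) = i - a := by rw [hm.symm]; exact hα a i (by omega) hi
  have hub : d (α i) (α b) = b - i := hα i b (by omega) hbl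
  have hab : d (α a) (α b) = b - a := hα a b (by omega) hbl
  -- the point near `u`
  have hu : (∃ k ≤ n, d (α a) (γ k) ≤ D ∧ d (α a) (γ k) + D ≤ i - a) ∨
      (i - a = 2 * D ∧ ∃ k ≤ m, d (α a) (β k) ≤ D) := by
    rcases le_or_gt i (2 * D) with h | h
    · left
      refine ⟨n, le_refl _, ?_⟩
      have : a = 0 := by omega
      rw [this, hγα, hm.self]
      omega
    · rcases hDα a (by omega) with ⟨k, hk, hk'⟩ | ⟨k, hk, hk'⟩
      · right
        exact ⟨by omega, k, hk, hk'⟩
      · left
        exact ⟨k, hk, hk', by omega⟩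
  have hv : (∃ k ≤ m, d (α b) (β k) ≤ D ∧ d (α b) (β k) + D ≤ b - i) ∨
      (b - i = 2 * D ∧ ∃ k ≤ n, d (α b) (γ k) ≤ D) := by
    clear hu
    rcases le_or_gt l (i + 2 * D) with h | h
    · left
      refine ⟨0, by omega, ?_⟩
      have : b = l := by omega
      rw [this, hαβ, hm.self]
      omega
    · rcases hDα b (by omega) with ⟨k, hk, hk'⟩ | ⟨k, hk, hk'⟩
      · left
        exact ⟨k, hk, hk', by omega⟩
      · right
        exact ⟨by omega, k, hk, hk'⟩
  -- short geodesics from `u`, `v`
  have pathu : ∀ w, d (α a) w + D ≤ i - a →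
      PathIn d (fun z => D ≤ d (α i) z) (α a) w (d (α a) w) := by
    intro w hw
    apply hm.path
    intro z hz
    have t1 := hm.tri (α i) z (α a)
    have t2 := hm.symm z (α a)
    omega
  have pathv : ∀ w, d (α b) w + D ≤ b - i →
      PathIn d (fun z => D ≤ d (α i) z) w (α b) (d (α b) w) := by
    intro w hw
    refine (hm.path (α b) w ?_).symm hm.symm
    intro z hz
    have t1 := hm.tri (α i) z (α b)
    have t2 := hm.symm z (α b)
    omega
  have pathβ : ∀ j k, j ≤ m → k ≤ m →
      PathIn d (fun z => D ≤ d (α i) z) (β j) (β k) (d (β j) (β k)) :=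
    fun j k hj hk => hβ.path' hm hj hk h1
  have pathγ : ∀ j k, j ≤ n → k ≤ n →
      PathIn d (fun z => D ≤ d (α i) z) (γ j) (γ k) (d (γ j) (γ k)) :=
    fun j k hj hk => hγ.path' hm hj hk h2
  -- the final estimate
  have fin : ∀ L, PathIn d (fun z => D ≤ d (α i) z) (α a) (α b) L → L ≤ 48 * D + 20 * K →
      False := by
    clear hu hv
    intro L hL hL'
    have := bump hm hF hα hai hib hbl hL
    have e1 : b - a ≤ 4 * D := by omega
    have e2 : D * D ≤ K * (52 * D + 20 * K) := le_trans this (Nat.mul_le_mul_left _ (by omega))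
    have := arith2 hK e2
    omega
  have fin2 : ∀ L, PathIn d (fun z => D ≤ d (α i) z) (α a) (α b) L → L ≤ 68 * D →
      False := by
    clear hu hv
    intro L hL hL'
    have := bump hm hF hα hai hib hbl hL
    have e1 : b - a ≤ 4 * D := by omega
    have e2 : D * D ≤ K * (72 * D) := le_trans this (Nat.mul_le_mul_left _ (by omega))
    have := arith1 e2 (by omega)
    omega
  rcases hu with ⟨k1, hk1, hu1, hu2⟩ | ⟨hu3, k1, hk1, hu1⟩
  · rcases hv with ⟨k2, hk2, hv1, hv2⟩ | ⟨hv3, k2, hk2, hv1⟩
    · -- the main case: `u` near `γ`, `v` near `β`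
      have p1 := pathu _ hu2
      have p5 := pathv _ hv2
      have dγ0 : ∀ j ≤ n, d (γ 0) (γ j) = j := fun j hj => by
        rw [hγ 0 j (by omega) hj]; omega
      have dβm : ∀ j ≤ m, d (β j) (β m) = m - j := fun j hj => hβ j m hj (le_refl _)
      -- compare `k1` and `m - k2`
      have hAB1 : m - k2 ≤ k1 + 6 * D := by
        rw [← dβm k2 hk2, ← dγ0 k1 hk1, ← hβγ]
        have t1 := hm.tri (β k2) (α b) (β m)
        have t2 := hm.tri (α b) (α a) (β m)
        have t3 := hm.tri (α a) (γ k1) (β m)
        have s1 := hm.symm (β k2) (α b)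
        have s2 := hm.symm (α b) (α a)
        have s3 := hm.symm (γ k1) (β m)
        omega
      have hAB2 : k1 ≤ m - k2 + 6 * D := by
        rw [← dβm k2 hk2, ← dγ0 k1 hk1, ← hβγ]
        have t1 := hm.tri (β m) (α a) (γ k1)
        have t2 := hm.tri (β m) (α b) (α a)
        have t3 := hm.tri (β m) (β k2) (α b)
        have s1 := hm.symm (β k2) (α b)
        have s2 := hm.symm (α b) (α a)
        have s3 := hm.symm (β m) (β k2)
        omega
      rcases lt_or_ge k1 (30 * D) with hk | hk
      · -- `z` is close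
        have p2 := pathγ k1 0 hk1 (by omega)
        have p3 := pathβ m k2 (le_refl _) hk2
        rw [hβγ] at p3
        have p := ((p1.trans p2).trans p3).trans p5
        refine fin2 _ p ?_
        have e1 : d (γ k1) (γ 0) = k1 := by rw [hm.symm, dγ0 _ hk1]
        have e2 : d (γ 0) (β k2) = m - k2 := by rw [← hβγ, hm.symm, dβm _ hk2]
        omega
      · -- the point `a_S`
        obtain ⟨c, hc⟩ : ∃ c, c = k1 - 30 * D := ⟨_, rfl⟩
        have hcn : c ≤ n := by omega
        have dγ : ∀ s, s ≤ 30 * D → d (γ k1) (γ (k1 - s)) = s := by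
          intro s hs
          rw [hm.symm, hγ _ _ (by omega) hk1]
          omega
        have dkc : d (γ k1) (γ c) = 30 * D := by
          rw [hc]; exact dγ _ (le_refl _)
        rcases hDγ c hcn with ⟨j, hj, hcj⟩ | ⟨j, hj, hcj⟩
        · -- `a_S` is near `α`
          have hjl : a + 28 * D ≤ j := by
            have e1 : d (γ c) (γ n) = n - c := hγ _ _ hcn (le_refl _)
            have e2 : d (γ k1) (γ n) = n - k1 := hγ _ _ hk1 (le_refl _)
            rw [hγα] at e1 e2
            have t1 := hm.tri (γ c) (α j) (α 0)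
            have t2 := hm.tri (α a) (γ k1) (α 0)
            have e3 : d (α j) (α 0) = j := by
              rw [hm.symm, hα 0 j (by omega) hj]; omega
            have e4 : d (α a) (α 0) = a := by
              rw [hm.symm, hα 0 a (by omega) (by omega)]; omega
            omega
          have p2 := pathγ k1 c hk1 hcn
          have p3 : PathIn d (fun z => D ≤ d (α i) z) (γ c) (α j) (d (α j) (γ c)) := by
            refine (hm.path (α j) (γ c) ?_).symm hm.symm
            intro z hz
            have t1 := hm.tri (α i) z (α j)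
            have t2 := hm.symm z (α j)
            have t3 := hm.symm (α j) (γ c)
            have t4 : d (α i) (α j) = j - i := hα i j (by omega) hj
            omega
          have p := (p1.trans p2).trans p3
          have hij : i + D ≤ j := by omega
          have := bump hm hF hα hai hij hj p
          have e0 : d (α a) (α j) = j - a := hα a j (by omega) hj
          have t1 := hm.tri (α a) (γ k1) (α j)
          have t2 := hm.tri (γ k1) (γ c) (α j)
          have t3 := hm.symm (γ c) (α j)
          have e2 : D * D ≤ K * (64 * D) :=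
            le_trans this (Nat.mul_le_mul_left _ (by omega))
          have := arith1 e2 (by omega)
          omega
        · -- `a_S` is near `β`
          have hj1 : k2 + 23 * D ≤ j := by
            have t1 := hm.tri (β j) (γ c) (γ 0)
            have s1 := hm.symm (β j) (γ c)
            have s2 := hm.symm (γ c) (γ 0)
            have e1 := dγ0 c hcn
            have e2 := dβm j hj
            rw [hβγ] at e2
            omega
          have dkj : d (β k2) (β j) = j - k2 := hβ _ _ (by omega) hj
          have hu'v' : d (γ k1) (β k2) ≤ 6 * D := by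
            have t1 := hm.tri (γ k1) (α a) (β k2)
            have t2 := hm.tri (α a) (α b) (β k2)
            have s1 := hm.symm (γ k1) (α a)
            omega
          have hj2 : j - k2 ≤ 37 * D := by
            have t1 := hm.tri (β k2) (γ k1) (β j)
            have t2 := hm.tri (γ k1) (γ c) (β j)
            have s1 := hm.symm (β k2) (γ k1)
            omega
          -- find `s`
          obtain ⟨s, hs1, hs2, t, ht1, ht2, hst⟩ : ∃ s, 10 * D ≤ s ∧ s < 20 * D ∧
              ∃ t, k2 ≤ t ∧ t ≤ j ∧ d (γ (k1 - s)) (β t) < 8 * K := by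
            by_contra hno
            push Not at hno
            set P : X → Prop := fun z => ∀ s, 10 * D ≤ s → s < 20 * D →
              8 * K ≤ d (γ (k1 - s)) z with hP
            have q1 : PathIn d P (γ k1) (α a) (d (α a) (γ k1)) := by
              rw [hm.symm]
              apply hm.path
              intro z hz s h1 h2
              have e1 := dγ s (by omega)
              have t1 := hm.tri (γ k1) z (γ (k1 - s))
              have s1 := hm.symm z (γ (k1 - s))
              have s2 := hm.symm (γ k1) (α a)
              omega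
            have q2 : PathIn d P (α a) (α b) (b - a) := by
              apply hα.path (by omega) hbl
              intro j' hj1' hj2' s h1 h2
              have e1 := dγ s (by omega)
              have t1 := hm.tri (γ k1) (α a) (γ (k1 - s))
              have t2 := hm.tri (α a) (α j') (γ (k1 - s))
              have e2 : d (α a) (α j') = j' - a := hα _ _ hj1' (by omega)
              have s1 := hm.symm (γ k1) (α a)
              have s2 := hm.symm (α j') (γ (k1 - s))
              omega
            have q3 : PathIn d P (α b) (β k2) (d (α b) (β k2)) := by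
              apply hm.path
              intro z hz s h1 h2
              have e1 := dγ s (by omega)
              have t1 := hm.tri (γ k1) (α a) (γ (k1 - s))
              have t2 := hm.tri (α a) (α b) (γ (k1 - s))
              have t3 := hm.tri (α b) z (γ (k1 - s))
              have s1 := hm.symm (γ k1) (α a)
              have s2 := hm.symm z (γ (k1 - s))
              omega
            have q4 : PathIn d P (β k2) (β j) (j - k2) := by
              apply hβ.path (by omega) hj
              intro j' hj1' hj2' s h1 h2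
              exact hno s h1 h2 j' hj1' hj2'
            have q5 : PathIn d P (β j) (γ c) (d (γ c) (β j)) := by
              refine (hm.path (γ c) (β j) ?_).symm hm.symm
              intro z hz s h1 h2
              have e1 : d (γ c) (γ (k1 - s)) = k1 - s - c := hγ _ _ (by omega) (by omega)
              have t1 := hm.tri (γ c) z (γ (k1 - s))
              have s1 := hm.symm z (γ (k1 - s))
              omega
            have q := (((q1.trans q2).trans q3).trans q4).trans q5
            have q' := q.symm hm.symm
            have hγ' : IsGeo d (fun j => γ (c + j)) (30 * D) := by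
              intro j k hjk hk
              simp only
              rw [hγ _ _ (by omega) (by omega)]
              omega
            have q'' : PathIn d P ((fun j => γ (c + j)) 0) ((fun j => γ (c + j)) (30 * D))
                (d (α a) (γ k1) + (b - a) + d (α b) (β k2) + (j - k2) + d (γ c) (β j)) := by
              simp only [Nat.add_zero]
              rwa [show c + 30 * D = k1 by omega]
            have key := lemmaA hm hF hγ' q''
              (fun j => if 10 * D < j ∧ j ≤ 20 * D then 8 * K else 0) (by
                intro j hj z hz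
                split_ifs with h
                · have := hz (30 * D - j) (by omega) (by omega)
                  rwa [show k1 - (30 * D - j) = c + j by omega] at this
                · omega)
            have key := le_trans (sumE D (8 * K) (by omega)) key
            exact arith3 hK (by omega) key (by omega)
          have es := dγ s (by omega)
          have p2 := pathγ k1 (k1 - s) hk1 (by omega)
          have p3 : PathIn d (fun z => D ≤ d (α i) z) (γ (k1 - s)) (β t)
              (d (γ (k1 - s)) (β t)) := by
            apply hm.path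
            intro z hz
            have t1 := hm.tri (γ k1) (α a) (γ (k1 - s))
            have t2 := hm.tri (α a) (α i) (γ (k1 - s))
            have t3 := hm.tri (α i) z (γ (k1 - s))
            have s1 := hm.symm (γ k1) (α a)
            have s2 := hm.symm z (γ (k1 - s))
            have s3 := hm.symm (α a) (α i)
            omega
          have p4 := pathβ t k2 (by omega) hk2
          have p := (((p1.trans p2).trans p3).trans p4).trans p5
          refine fin _ p ?_
          have t1 := hm.tri (β t) (γ (k1 - s)) (β k2)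
          have t2 := hm.tri (γ (k1 - s)) (γ k1) (β k2)
          have s1 := hm.symm (β t) (γ (k1 - s))
          have s2 := hm.symm (γ (k1 - s)) (γ k1)
          omega
    · -- both near `γ`
      have p1 := pathu _ hu2
      have p3 := pathv (γ k2) (by omega)
      have p2 := pathγ k1 k2 hk1 hk2
      refine fin2 _ ((p1.trans p2).trans p3) ?_
      have t1 := hm.tri (γ k1) (α a) (γ k2)
      have t2 := hm.tri (α a) (α b) (γ k2)
      have s1 := hm.symm (γ k1) (α a)
      omega
  · rcases hv with ⟨k2, hk2, hv1, hv2⟩ | ⟨hv3, k2, hk2, hv1⟩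
    · -- both near `β`
      have p1 := pathu (β k1) (by omega)
      have p3 := pathv _ hv2
      have p2 := pathβ k1 k2 hk1 hk2
      refine fin2 _ ((p1.trans p2).trans p3) ?_
      have t1 := hm.tri (β k1) (α a) (β k2)
      have t2 := hm.tri (α a) (α b) (β k2)
      have s1 := hm.symm (β k1) (α a)
      omega
    · -- crossed: impossible
      have ex : d (γ k2) (γ n) = n - k2 := hγ _ _ hk2 (le_refl _)
      have ez : d (γ 0) (γ k2) = k2 := by rw [hγ 0 k2 (by omega) hk2]; omega
      have exz : d (γ 0) (γ n) = n := by rw [hγ 0 n (by omega) (le_refl _)]; omega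
      have fy : d (β 0) (β k1) = k1 := by rw [hβ 0 k1 (by omega) hk1]; omega
      have fz : d (β k1) (β m) = m - k1 := hβ _ _ hk1 (le_refl _)
      have fyz : d (β 0) (β m) = m := by rw [hβ 0 m (by omega) (le_refl _)]; omega
      have gx : d (α 0) (α a) = a := by rw [hα 0 a (by omega) (by omega)]; omega
      have gy : d (α b) (α l) = l - b := hα _ _ hbl (le_refl _)
      have gxb : d (α 0) (α b) = b := by rw [hα 0 b (by omega) (by omega)]; omega
      have gya : d (α a) (α l) = l - a := hα _ _ (by omega) (le_refl _)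
      rw [hγα] at ex exz
      rw [hβγ] at fz fyz
      rw [hαβ] at gy gya
      -- `d x z`
      have t1 := hm.tri (γ 0) (β k1) (α 0)
      have t2 := hm.tri (β k1) (α a) (α 0)
      have t3 := hm.tri (α 0) (γ k2) (α b)
      have t4 := hm.tri (β 0) (γ k2) (γ 0)
      have t5 := hm.tri (β 0) (α b) (γ k2)
      have t6 := hm.tri (α a) (β k1) (β 0)
      have s1 := hm.symm (γ 0) (β k1)
      have s2 := hm.symm (β k1) (α a)
      have s3 := hm.symm (α a) (α 0)
      have s4 := hm.symm (α 0) (γ k2)
      have s5 := hm.symm (γ k2) (α b)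
      have s6 := hm.symm (γ k2) (γ 0)
      have s7 := hm.symm (β 0) (α b)
      have s8 := hm.symm (β k1) (β 0)
      omega

/-- All three sides of a cyclically oriented geodesic triangle are within `D` of the other two. -/
def Thin (d : X → X → ℕ) (α β γ : ℕ → X) (l m n D : ℕ) : Prop :=
  ∀ j ≤ l, (∃ k ≤ m, d (α j) (β k) ≤ D) ∨ ∃ k ≤ n, d (α j) (γ k) ≤ D

theorem slim_cyclic (hm : DMet d) {K : ℕ} (hK : 0 < K) (hF : Circ d K) {α β γ : ℕ → X}
    {l m n : ℕ} (hα : IsGeo d α l) (hβ : IsGeo d β m) (hγ : IsGeo d γ n)
    (hαβ : α l = β 0) (hβγ : β m = γ 0) (hγα : γ n = α 0) :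
    Thin d α β γ l m n (72 * K) ∧ Thin d β γ α m n l (72 * K) ∧ Thin d γ α β n l m (72 * K) := by
  classical
  -- the least `D` that works
  have hex : ∃ D, Thin d α β γ l m n D ∧ Thin d β γ α m n l D ∧ Thin d γ α β n l m D := by
    refine ⟨l + m + n, ?_, ?_, ?_⟩
    · intro j hj
      right
      refine ⟨n, le_refl _, ?_⟩
      rw [hγα, hm.symm, hα 0 j (by omega) hj]
      omega
    · intro j hj
      right
      refine ⟨l, le_refl _, ?_⟩
      rw [hαβ, hm.symm, hβ 0 j (by omega) hj]
      omega
    · intro j hj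
      right
      refine ⟨m, le_refl _, ?_⟩
      rw [hβγ, hm.symm, hγ 0 j (by omega) hj]
      omega
  obtain ⟨D, hD1, hDmin⟩ : ∃ D, (Thin d α β γ l m n D ∧ Thin d β γ α m n l D ∧
      Thin d γ α β n l m D) ∧ ∀ D' < D, ¬ (Thin d α β γ l m n D' ∧ Thin d β γ α m n l D' ∧
      Thin d γ α β n l m D') := ⟨Nat.find hex, Nat.find_spec hex, fun D' h => Nat.find_min hex h⟩
  have mono : ∀ (α β γ : ℕ → X) (l m n D D' : ℕ), D ≤ D' → Thin d α β γ l m n D →
      Thin d α β γ l m n D' := by
    intro α β γ l m n D D' hDD h j hj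
    rcases h j hj with ⟨k, hk, hk'⟩ | ⟨k, hk, hk'⟩
    · exact Or.inl ⟨k, hk, hk'.trans hDD⟩
    · exact Or.inr ⟨k, hk, hk'.trans hDD⟩
  have hDK : D ≤ 72 * K := by
    rcases Nat.eq_zero_or_pos D with h0 | hpos
    · omega
    have hnot := hDmin (D - 1) (by omega)
    -- a general consequence of the failure at `D - 1`
    have far : ∀ (α β γ : ℕ → X) (l m n : ℕ), ¬ Thin d α β γ l m n (D - 1) →
        ∃ i ≤ l, (∀ j ≤ m, D ≤ d (α i) (β j)) ∧ ∀ j ≤ n, D ≤ d (α i) (γ j) := by
      intro α β γ l m n h
      unfold Thin at h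
      push Not at h
      obtain ⟨i, hi, h1, h2⟩ := h
      exact ⟨i, hi, fun j hj => by have := h1 j hj; omega, fun j hj => by have := h2 j hj; omega⟩
    by_cases hA : Thin d α β γ l m n (D - 1)
    · by_cases hB : Thin d β γ α m n l (D - 1)
      · have hC : ¬ Thin d γ α β n l m (D - 1) := fun h => hnot ⟨hA, hB, h⟩
        obtain ⟨i, hi, h1, h2⟩ := far _ _ _ _ _ _ hC
        exact core hm hK hF hγ hα hβ hγα hαβ hβγ hi h1 h2 hD1.2.2 (fun j hj => by
          rcases hD1.2.1 j hj with h | h
          · exact Or.inl h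
          · exact Or.inr h)
      · obtain ⟨i, hi, h1, h2⟩ := far _ _ _ _ _ _ hB
        exact core hm hK hF hβ hγ hα hβγ hγα hαβ hi h1 h2 hD1.2.1 hD1.1
    · obtain ⟨i, hi, h1, h2⟩ := far _ _ _ _ _ _ hA
      exact core hm hK hF hα hβ hγ hαβ hβγ hγα hi h1 h2 hD1.1 hD1.2.2
  exact ⟨mono _ _ _ _ _ _ _ _ hDK hD1.1, mono _ _ _ _ _ _ _ _ hDK hD1.2.1,
    mono _ _ _ _ _ _ _ _ hDK hD1.2.2⟩

/-- Reversing a geodesic. -/
theorem IsGeo.rev (hm : DMet d) {p : ℕ → X} {n : ℕ} (h : IsGeo d p n) :
    IsGeo d (fun i => p (n - i)) n := by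
  intro i j hij hj
  simp only
  rw [hm.symm, h _ _ (by omega) (by omega)]
  omega

/-- **Slim triangles from a linear bound for circulations.**  Every vertex of a side of a geodesic
triangle is at distance at most `72 (K+1)` from one of the other two sides. -/
theorem slim (hm : DMet d) {K : ℕ} (hF : Circ d K) {α β γ : ℕ → X} {l m n : ℕ}
    (hα : IsGeo d α l) (hβ : IsGeo d β m) (hγ : IsGeo d γ n)
    (h1 : α l = β 0) (h2 : α 0 = γ 0) (h3 : β m = γ n) :
    ∀ j ≤ l, (∃ k ≤ m, d (α j) (β k) ≤ 72 * (K + 1)) ∨ ∃ k ≤ n, d (α j) (γ k) ≤ 72 * (K + 1) := by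
  have hF' : Circ d (K + 1) := by
    intro p n hp hs f g hf hg
    refine le_trans (hF p n hp hs f g hf hg) ?_
    exact_mod_cast Nat.mul_le_mul_right n (Nat.le_succ K)
  have key := (slim_cyclic hm (Nat.succ_pos K) hF' hα hβ (hγ.rev hm) h1 (by simpa using h3)
    (by simpa using h2.symm)).1
  intro j hj
  rcases key j hj with h | ⟨k, hk, hk'⟩
  · exact Or.inl h
  · exact Or.inr ⟨n - k, by omega, hk'⟩

/-! ### Graph version -/

section Graph

variable {V : Type*} (G : SimpleGraph V)

theorem dist_getVert_le (hc : G.Connected) {u v : V} (p : G.Walk u v) (i k : ℕ)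
    (h : i + k ≤ p.length) : G.dist (p.getVert i) (p.getVert (i + k)) ≤ k := by
  induction k with
  | zero => simp
  | succ k ih =>
    have h1 := ih (by omega)
    have h2 : G.Adj (p.getVert (i + k)) (p.getVert (i + k + 1)) :=
      p.adj_getVert_succ (by omega)
    have h3 := hc.dist_triangle (u := p.getVert i) (v := p.getVert (i + k))
      (w := p.getVert (i + k + 1))
    have h4 := SimpleGraph.dist_eq_one_iff_adj.mpr h2
    rw [show i + (k + 1) = i + k + 1 by omega]
    omega

theorem isGeo_getVert (hc : G.Connected) {u v : V} (p : G.Walk u v)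
    (hp : p.length = G.dist u v) : IsGeo G.dist p.getVert p.length := by
  intro i j hij hj
  have h1 := dist_getVert_le G hc p 0 i (by omega)
  obtain ⟨k, rfl⟩ := Nat.exists_eq_add_of_le hij
  have h2 := dist_getVert_le G hc p i k (by omega)
  obtain ⟨m, hm⟩ := Nat.exists_eq_add_of_le hj
  have h3 := dist_getVert_le G hc p (i + k) m (by omega)
  rw [← hm] at h3
  rw [Nat.zero_add] at h1
  rw [p.getVert_zero] at h1
  rw [p.getVert_length] at h3
  have t1 := hc.dist_triangle (u := u) (v := p.getVert i) (w := v)
  have t2 := hc.dist_triangle (u := p.getVert i) (v := p.getVert (i + k)) (w := v)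
  omega

theorem dMet_dist (hc : G.Connected) : DMet G.dist where
  self := fun x => by simp
  symm := fun x y => G.dist_comm
  tri := fun x y z => hc.dist_triangle
  geo := fun x y => by
    obtain ⟨p, hp⟩ := hc.exists_walk_length_eq_dist x y
    refine ⟨p.getVert, p.getVert_zero, ?_, ?_⟩
    · rw [← hp, p.getVert_length]
    · rw [← hp]; exact isGeo_getVert G hc p hp

theorem exists_walk_fn (f g : V → ℤ) (p : ℕ → V) (n : ℕ) (hs : ∀ i < n, G.Adj (p i) (p (i + 1))) :
    ∃ w : G.Walk (p 0) (p n), w.length = n ∧
      (w.darts.map (fun d => f d.fst * (g d.snd - g d.fst))).sum =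
        ∑ i ∈ range n, f (p i) * (g (p (i + 1)) - g (p i)) := by
  induction n with
  | zero => exact ⟨SimpleGraph.Walk.nil, by simp⟩
  | succ n ih =>
    obtain ⟨w, h1, h2⟩ := ih (fun i hi => hs i (by omega))
    refine ⟨w.concat (hs n (by omega)), by simp [h1], ?_⟩
    rw [SimpleGraph.Walk.darts_concat, Finset.sum_range_succ, ← h2]
    simp

/-- **Slim triangles in a graph with a linear bound for circulations.** -/
theorem slim_graph (hc : G.Connected) (K : ℕ)
    (h : ∀ (u : V) (p : G.Walk u u) (f g : V → ℤ), (∀ u v, G.Adj u v → |f u - f v| ≤ 1) →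
      (∀ u v, G.Adj u v → |g u - g v| ≤ 1) →
      |(p.darts.map (fun d => f d.fst * (g d.snd - g d.fst))).sum| ≤ K * p.length)
    {u v w : V} (p : G.Walk u v) (q : G.Walk v w) (r : G.Walk u w)
    (hp : p.length = G.dist u v) (hq : q.length = G.dist v w) (hr : r.length = G.dist u w) :
    ∀ x ∈ p.support, (∃ y ∈ q.support, G.dist x y ≤ 72 * (K + 1)) ∨
      ∃ y ∈ r.support, G.dist x y ≤ 72 * (K + 1) := by
  have hF : Circ G.dist K := by
    intro p n hpn hs f g hf hg
    obtain ⟨w, hw1, hw2⟩ := exists_walk_fn G f g p n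
      (fun i hi => SimpleGraph.dist_eq_one_iff_adj.mp (hs i hi))
    have key := h (p 0) (w.copy rfl hpn) f g
      (fun a b hab => by
        have := hf a b
        rwa [SimpleGraph.dist_eq_one_iff_adj.mpr hab, Nat.cast_one] at this)
      (fun a b hab => by
        have := hg a b
        rwa [SimpleGraph.dist_eq_one_iff_adj.mpr hab, Nat.cast_one] at this)
    rw [SimpleGraph.Walk.darts_copy, SimpleGraph.Walk.length_copy, hw1, hw2] at key
    exact key
  intro x hx
  obtain ⟨j, rfl, hj⟩ := SimpleGraph.Walk.mem_support_iff_exists_getVert.mp hx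
  have key := slim (dMet_dist G hc) hF (isGeo_getVert G hc p hp) (isGeo_getVert G hc q hq)
    (isGeo_getVert G hc r hr) (by simp) (by simp) (by simp) j hj
  rcases key with ⟨k, hk, hk'⟩ | ⟨k, hk, hk'⟩
  · exact Or.inl ⟨_, SimpleGraph.Walk.getVert_mem_support _ _, hk'⟩
  · exact Or.inr ⟨_, SimpleGraph.Walk.getVert_mem_support _ _, hk'⟩

end Graph

end Pool.Agent.Work.MP_172f05_al.Slim
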