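import Mathlib
import Pool.Agent.Work.MP_172f05_al.Defs
import Pool.Agent.Work.MP_172f05_al.Iso
import Pool.Agent.Work.MP_172f05_al.Slim

/-!
# `G` is hyperbolic
(helper39, for MP_172f05_al)
-/

namespace Pool.Agent.Work.MP_172f05_al.Hyp

open FP Psi Hnn Iso

/-- the generating set -/
noncomputable def S : Set G := {ι α, ι β, τ}

theorem S_finite : S.Finite := by unfold S; simp

theorem closure_S : Subgroup.closure S = ⊤ := by
  rw [eq_top_iff]
  intro g _
  have hA : ∀ x : A, ι x ∈ Subgroup.closure S := by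
    intro x
    have := closure_top ((Subgroup.closure S).comap ι)
      (Subgroup.subset_closure (by simp [S])) (Subgroup.subset_closure (by simp [S])) x
    exact this
  induction g using HNNExtension.induction_on with
  | of g => exact hA g
  | t => exact Subgroup.subset_closure (by simp [S]; right; right; rfl)
  | mul x y hx hy => exact Subgroup.mul_mem _ (hx trivial) (hy trivial)
  | inv x hx => exact Subgroup.inv_mem _ (hx trivial)

/-- the Cayley graph -/
noncomputable abbrev Γ : SimpleGraph G := SimpleGraph.mulCayley S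

theorem adj_or (x s : G) (hs : s ∈ S) : x = x * s ∨ Γ.Adj x (x * s) := by
  by_cases h : x = x * s
  · exact Or.inl h
  · right
    rw [SimpleGraph.mulCayley_adj]
    exact ⟨h, Or.inl (by simpa using hs)⟩

theorem connected : Γ.Connected := by
  have key : ∀ g : G, Γ.Reachable 1 g := by
    intro g
    have hg : g ∈ Subgroup.closure S := by rw [closure_S]; trivial
    refine Subgroup.closure_induction_right (G := G) (s := S) (p := fun x _ =>
      Γ.Reachable 1 x) ?_ ?_ ?_ hg
    · exact SimpleGraph.Reachable.refl _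
    · intro x _ y hy hx
      rcases adj_or x y hy with h | h
      · rw [← h]; exact hx
      · exact hx.trans h.reachable
    · intro x _ y hy hx
      rcases adj_or (x * y⁻¹) y hy with h | h
      · rw [inv_mul_cancel_right] at h; rw [h]; exact hx
      · rw [inv_mul_cancel_right] at h
        exact hx.trans h.symm.reachable
  exact ⟨fun x y => (key x).symm.trans (key y)⟩

/-! ### The cochain `f dg` -/

section
variable (f g : G → ℤ)

/-- the symmetrised form `f dg` -/
noncomputable def σ (x y : G) : ℝ := ((f x : ℝ) + f y) / 2 * ((g y : ℝ) - g x)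

theorem σ_anti (x y : G) : σ f g y x = - σ f g x y := by unfold σ; ring

/-- values on letters -/
noncomputable def σA (x : G) (s : Lt) : ℝ := σ f g x (x * ι (vl s))

variable {f g}
variable (hf : ∀ x s, s ∈ S → |f (x * s) - f x| ≤ 1) (hg : ∀ x s, s ∈ S → |g (x * s) - g x| ≤ 1)

include hf in
theorem lipA (x : G) (s : Lt) : |f (x * ι (vl s)) - f x| ≤ 1 := by
  cases s with
  | a => exact hf x _ (by simp [S, vl])
  | a' =>
    have := hf (x * ι (vl .a')) (ι α) (by simp [S])
    rw [abs_sub_comm]
    have h2 : x * ι (vl .a') * ι α = x := by simp [vl]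
    rwa [h2] at this
  | b => exact hf x _ (by simp [S, vl])
  | b' =>
    have := hf (x * ι (vl .b')) (ι β) (by simp [S])
    rw [abs_sub_comm]
    have h2 : x * ι (vl .b') * ι β = x := by simp [vl]
    rwa [h2] at this

include hf in
theorem lipL (x : G) (l : List Lt) : |f (x * ι (val l)) - f x| ≤ l.length := by
  induction l generalizing x with
  | nil => simp [val]
  | cons s l ih =>
    have h1 := lipA hf x s
    have h2 := ih (x * ι (vl s))
    rw [val_cons, map_mul, ← mul_assoc]
    rw [abs_le] at h1 h2 ⊢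
    push_cast [List.length_cons]
    constructor <;> linarith [h1.1, h1.2, h2.1, h2.2]

/-- real version of a Lipschitz bound -/
theorem real_of_int {a b : ℤ} {n : ℕ} (h : |a - b| ≤ n) : |(a : ℝ) - b| ≤ n := by
  exact_mod_cast h

theorem σ_approx {x y : G} (h1 : |f y - f x| ≤ 1) (h2 : |g y - g x| ≤ 1) :
    |σ f g x y - f x * ((g y : ℝ) - g x)| ≤ 1 / 2 := by
  have e1 : |(f y : ℝ) - f x| ≤ 1 := by exact_mod_cast h1
  have e2 : |(g y : ℝ) - g x| ≤ 1 := by exact_mod_cast h2
  have e3 : σ f g x y - f x * ((g y : ℝ) - g x) = 1 / 2 * (((f y : ℝ) - f x) * ((g y : ℝ) - g x)) := by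
    unfold σ; ring
  rw [e3, abs_mul, abs_mul]
  have e4 : |(f y : ℝ) - f x| * |(g y : ℝ) - g x| ≤ 1 * 1 :=
    mul_le_mul e1 e2 (abs_nonneg _) zero_le_one
  have e5 : |(1 / 2 : ℝ)| = 1 / 2 := by norm_num
  rw [e5]
  linarith

include hf hg in
theorem sum_approx (x : G) (l : List Lt) :
    |sumA (σA f g) x l - f x * ((g (x * ι (val l)) : ℝ) - g x)| ≤ (l.length : ℝ) ^ 2 := by
  induction l generalizing x with
  | nil => simp [sumA, val]
  | cons s l ih =>
    have h1 := ih (x * ι (vl s))
    have h2 := σ_approx (f := f) (g := g) (lipA hf x s) (lipA hg x s)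
    have h3 := real_of_int (lipL hg (x * ι (vl s)) l)
    have h4 : |(f (x * ι (vl s)) : ℝ) - f x| ≤ 1 := by exact_mod_cast lipA hf x s
    have h5 : |((f (x * ι (vl s)) : ℝ) - f x) *
        ((g (x * ι (vl s) * ι (val l)) : ℝ) - g (x * ι (vl s)))| ≤ 1 * l.length := by
      rw [abs_mul]
      exact mul_le_mul h4 h3 (abs_nonneg _) zero_le_one
    rw [val_cons, map_mul, ← mul_assoc]
    have h6 : sumA (σA f g) x (s :: l) =
        σ f g x (x * ι (vl s)) + sumA (σA f g) (x * ι (vl s)) l := rfl
    rw [h6, List.length_cons]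
    push_cast
    rw [abs_le] at h1 h2 h5 ⊢
    constructor <;> nlinarith [h1.1, h1.2, h2.1, h2.2, h5.1, h5.2]

include hf hg in
theorem cell_bound (x : G) (s : Lt) (h3 : vl s ^ 3 = 1) :
    |sumA (σA f g) x [s, s, s]| ≤ 400 := by
  have h1 := sum_approx hf hg x [s, s, s]
  have h2 : val [s, s, s] = 1 := by
    rw [val_cons, val_cons, val_cons, val_nil, mul_one, ← h3, pow_succ, pow_two, mul_assoc]
  rw [h2, map_one, mul_one, sub_self, mul_zero, sub_zero] at h1
  refine h1.trans ?_
  norm_num

include hf hg in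
theorem cellT_bound (x : G) (s : Lt) :
    |σ f g x (x * τ) + sumA (σA f g) (x * τ) (sub [s]) -
      σ f g (x * ι (val (sub (sub [s])))) (x * ι (val (sub (sub [s]))) * τ)
      - sumA (σA f g) x (sub (sub [s]))| ≤ 400 := by
  have hτ : τ ∈ S := by simp [S]
  have hl1 : (sub [s]).length ≤ 5 := by cases s <;> simp [sub, blk]
  have hl2 : (sub (sub [s])).length ≤ 17 := by cases s <;> simp [sub, blk]
  set l1 := sub [s] with h1
  set l2 := sub (sub [s]) with h2
  set h := x * ι (val l2) with hh
  have hend : x * τ * ι (val l1) = h * τ := by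
    rw [hh, h2, val_sub (sub [s]), h1, val_sub, mul_assoc, τ_ι (ψ_N _), mul_assoc]
  have a1 := σ_approx (f := f) (g := g) (x := x) (y := x * τ) (hf x τ hτ) (hg x τ hτ)
  have a2 := σ_approx (f := f) (g := g) (x := h) (y := h * τ) (hf h τ hτ) (hg h τ hτ)
  have a3 := sum_approx hf hg (x * τ) l1
  have a4 := sum_approx hf hg x l2
  rw [hend] at a3
  rw [← hh] at a4
  have b1 : |(f (x * τ) : ℝ) - f x| ≤ 1 := by exact_mod_cast hf x τ hτ
  have b2 : |(g (h * τ) : ℝ) - g (x * τ)| ≤ 5 := by
    have := real_of_int (lipL hg (x * τ) l1)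
    rw [hend] at this
    refine this.trans ?_
    exact_mod_cast hl1
  have b3 : |(f h : ℝ) - f x| ≤ 17 := by
    have := real_of_int (lipL hf x l2)
    rw [← hh] at this
    refine this.trans ?_
    exact_mod_cast hl2
  have b4 : |(g (h * τ) : ℝ) - g h| ≤ 1 := by exact_mod_cast hg h τ hτ
  have c1 : |((f (x * τ) : ℝ) - f x) * ((g (h * τ) : ℝ) - g (x * τ))| ≤ 1 * 5 := by
    rw [abs_mul]
    exact mul_le_mul b1 b2 (abs_nonneg _) zero_le_one
  have c2 : |((f h : ℝ) - f x) * ((g (h * τ) : ℝ) - g h)| ≤ 17 * 1 := by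
    rw [abs_mul]
    exact mul_le_mul b3 b4 (abs_nonneg _) (by norm_num)
  have d1 : ((l1.length : ℝ)) ^ 2 ≤ 5 ^ 2 := by
    have : (l1.length : ℝ) ≤ 5 := by exact_mod_cast hl1
    gcongr
  have d2 : ((l2.length : ℝ)) ^ 2 ≤ 17 ^ 2 := by
    have : (l2.length : ℝ) ≤ 17 := by exact_mod_cast hl2
    gcongr
  have a3' := a3.trans d1
  have a4' := a4.trans d2
  rw [abs_le] at a1 a2 a3' a4' c1 c2 ⊢
  constructor <;> nlinarith [a1.1, a1.2, a2.1, a2.2, a3'.1, a3'.2, a4'.1, a4'.2, c1.1, c1.2,
    c2.1, c2.2]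

theorem sumA_div (ω : G → Lt → ℝ) (x : G) (l : List Lt) :
    sumA (fun x s => ω x s / 400) x l = sumA ω x l / 400 := by
  induction l generalizing x with
  | nil => simp [sumA]
  | cons s l ih => simp only [sumA, ih]; ring

/-- the cochain -/
noncomputable def coch : Coch where
  ωA x s := σA f g x s / 400
  ωt x := σ f g x (x * τ) / 400
  anti x s := by
    have h1 : x * ι (vl s) * ι (vl s.inv) = x := by rw [vl_inv, map_inv]; group
    change σ f g (x * ι (vl s)) (x * ι (vl s) * ι (vl s.inv)) / 400 =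
      - (σ f g x (x * ι (vl s)) / 400)
    rw [h1, σ_anti]; ring
  cellA x := by
    change |sumA (fun x s => σA f g x s / 400) x _| ≤ 1
    rw [sumA_div, abs_div, abs_of_pos (show (0 : ℝ) < 400 by norm_num),
      div_le_one (by norm_num : (0 : ℝ) < 400)]
    exact cell_bound hf hg x .a α3
  cellB x := by
    change |sumA (fun x s => σA f g x s / 400) x _| ≤ 1
    rw [sumA_div, abs_div, abs_of_pos (show (0 : ℝ) < 400 by norm_num),
      div_le_one (by norm_num : (0 : ℝ) < 400)]
    exact cell_bound hf hg x .b β3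
  cellT x s _ := by
    change |σ f g x (x * τ) / 400 + sumA (fun x s => σA f g x s / 400) (x * τ) (sub [s]) -
      σ f g (x * ι (val (sub (sub [s])))) (x * ι (val (sub (sub [s]))) * τ) / 400
      - sumA (fun x s => σA f g x s / 400) x (sub (sub [s]))| ≤ 1
    rw [sumA_div, sumA_div, ← add_div, ← sub_div, ← sub_div, abs_div,
      abs_of_pos (show (0 : ℝ) < 400 by norm_num), div_le_one (by norm_num : (0 : ℝ) < 400)]
    exact cellT_bound hf hg x s

theorem nf_vl (s : Lt) : nf (vl s) = [s] := nf_eq (by simp [Red]) (by simp [val])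

/-- an edge of the Cayley graph as a token -/
theorem edge_tok {u v : G} (h : Γ.Adj u v) : ∃ t : Tok, u * t.v = v ∧ Wt t ≤ 2002 ∧
    ∀ l, (coch hf hg).J u (t :: l) = σ f g u v / 400 + (coch hf hg).J v l := by
  rw [SimpleGraph.mulCayley_adj] at h
  have key : ∀ s : Lt, ι (vl s) = u⁻¹ * v → ∃ t : Tok, u * t.v = v ∧ Wt t ≤ 2002 ∧
      ∀ l, (coch hf hg).J u (t :: l) = σ f g u v / 400 + (coch hf hg).J v l := by
    intro s hs
    have h1 : u * ι (vl s) = v := by rw [hs]; group
    refine ⟨Tok.g (vl s), h1, ?_, ?_⟩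
    · rw [Wt_g, len, nf_vl]; simp
    · intro l
      rw [Coch.J_g, h1, Coch.JA, nf_vl, Coch.IA_single]
      change σ f g u (u * ι (vl s)) / 400 + _ = _
      rw [h1]
  obtain ⟨_, h | h⟩ := h
  · rcases h with h | h | h
    · exact key .a h.symm
    · exact key .b h.symm
    · have h1 : u * τ = v := by rw [← (show u⁻¹ * v = τ from h)]; group
      refine ⟨Tok.up, h1, le_refl _, ?_⟩
      intro l
      rw [Coch.J_up, h1]
      change σ f g u (u * τ) / 400 + _ = _
      rw [h1]
  · rcases h with h | h | h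
    · apply key .a'
      rw [vl, map_inv, ← h]; group
    · apply key .b'
      rw [vl, map_inv, ← (show v⁻¹ * u = ι β from h)]; group
    · have h1 : u * τ⁻¹ = v := by rw [← (show v⁻¹ * u = τ from h)]; group
      refine ⟨Tok.dn, h1, le_refl _, ?_⟩
      intro l
      rw [Coch.J_dn, h1]
      have h2 : v * τ = u := by rw [← h1]; group
      change -(σ f g v (v * τ) / 400) + _ = _
      rw [h2, σ_anti]; ring

theorem walk_tok {u v : G} (p : Γ.Walk u v) : ∃ l : List Tok, u * tval l = v ∧
    W l ≤ 2002 * p.length ∧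
    |(((p.darts.map (fun d => f d.fst * (g d.snd - g d.fst))).sum : ℤ) : ℝ) -
      400 * (coch hf hg).J u l| ≤ p.length := by
  induction p with
  | nil => exact ⟨[], by rw [tval_nil, mul_one], by simp [W_nil], by simp [Coch.J_nil]⟩
  | cons h p ih =>
    rename_i u v w
    obtain ⟨l, h1, h2, h3⟩ := ih
    obtain ⟨t, h4, h5, h6⟩ := edge_tok hf hg h
    refine ⟨t :: l, ?_, ?_, ?_⟩
    · rw [tval_cons, ← mul_assoc, h4, h1]
    · rw [W_cons, SimpleGraph.Walk.length_cons]; omega
    · rw [h6, SimpleGraph.Walk.darts_cons, List.map_cons, List.sum_cons,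
        SimpleGraph.Walk.length_cons]
      have hlip : ∀ (F : G → ℤ), (∀ x s, s ∈ S → |F (x * s) - F x| ≤ 1) → |F v - F u| ≤ 1 := by
        intro F hF
        rw [SimpleGraph.mulCayley_adj] at h
        obtain ⟨_, h | h⟩ := h
        · have := hF u _ h
          rwa [mul_inv_cancel_left] at this
        · have := hF v _ h
          rwa [mul_inv_cancel_left, abs_sub_comm] at this
      have h7 := σ_approx (f := f) (g := g) (hlip f hf) (hlip g hg)
      push_cast
      push_cast at h3
      rw [abs_le] at h3 h7 ⊢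
      constructor <;> linarith [h3.1, h3.2, h7.1, h7.2]

include hf hg in
theorem circulation (u : G) (p : Γ.Walk u u) :
    |(p.darts.map (fun d => f d.fst * (g d.snd - g d.fst))).sum| ≤ (800801 : ℕ) * p.length := by
  obtain ⟨l, h1, h2, h3⟩ := walk_tok hf hg p
  have h4 : tval l = 1 := by simpa using h1
  have h5 := iso (coch hf hg) l h4 u
  have h6 : (W l : ℝ) ≤ 2002 * p.length := by exact_mod_cast h2
  have h7 : |(((p.darts.map (fun d => f d.fst * (g d.snd - g d.fst))).sum : ℤ) : ℝ)| ≤
      800801 * p.length := by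
    rw [abs_le] at h3 h5 ⊢
    constructor <;> linarith [h3.1, h3.2, h5.1, h5.2]
  exact_mod_cast h7

end

/-- **`G` is a hyperbolic group.** -/
theorem hyperbolic : IsHyperbolicGroup G := by
  refine ⟨S, S_finite, closure_S, 72 * (800801 + 1), ?_⟩
  intro x y z p q r hp hq hr v hv
  have key := Slim.slim_graph Γ connected 800801 (by
    intro u p f g hf hg
    have hf' : ∀ x s, s ∈ S → |f (x * s) - f x| ≤ 1 := by
      intro x s hs
      rcases adj_or x s hs with h | h
      · rw [← h]; simp
      · exact hf _ _ h.symm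
    have hg' : ∀ x s, s ∈ S → |g (x * s) - g x| ≤ 1 := by
      intro x s hs
      rcases adj_or x s hs with h | h
      · rw [← h]; simp
      · exact hg _ _ h.symm
    exact circulation hf' hg' u p) p q r hp hq hr v hv
  rcases key with ⟨w, hw, h⟩ | ⟨w, hw, h⟩
  · exact ⟨w, Or.inl hw, h⟩
  · exact ⟨w, Or.inr hw, h⟩

end Pool.Agent.Work.MP_172f05_al.Hyp
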