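import Mathlib
import Pool.Agent.Work.MP_172f05_al.Amal
import Pool.Agent.Work.MP_172f05_al.Acy
import Pool.Agent.Work.MP_29a457_al.TreeGeom

/-!
# The action of `G` on the Bass–Serre tree is non-elementary
-/

namespace Pool.Agent.Work.MP_172f05_al.NonEl

open FP Psi Hnn Amal Acy
open Pool.Agent.Work.MP_29a457_al
open Pool.Agent.Work.MP_29a457_al.TreeGeom

/-! ### Bi-infinite local geodesics -/

theorem line_nat {V : Type*} {T : SimpleGraph V} (hT : T.IsTree) {ℓ : ℤ → V}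
    (hadj : ∀ i, T.Adj (ℓ i) (ℓ (i + 1))) (hne : ∀ i, ℓ i ≠ ℓ (i + 2)) (i : ℤ) (n : ℕ) :
    T.dist (ℓ i) (ℓ (i + n)) = n ∧ T.dist (ℓ i) (ℓ (i + n + 1)) = n + 1 := by
  induction n with
  | zero =>
    simp only [Nat.cast_zero, add_zero, SimpleGraph.dist_self, zero_add, true_and]
    exact SimpleGraph.dist_eq_one_iff_adj.2 (hadj i)
  | succ n ih =>
    obtain ⟨h1, h2⟩ := ih
    have e1 : i + ((n + 1 : ℕ) : ℤ) = i + n + 1 := by push_cast; ring
    rw [e1]
    refine ⟨h2, ?_⟩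
    have h3 := hadj (i + n + 1)
    rcases hT.dist_eq_dist_add_one_of_adj (ℓ i) h3 with h4 | h4
    · exfalso
      have h5 := hadj (i + n)
      have h6 : ℓ (i + n + 1 + 1) = ℓ (i + n) := by
        apply unique_closer hT (v := ℓ i) h3 h5.symm h4
        rw [h1, h2]
      have h7 := hne (i + n)
      apply h7
      rw [← h6]
      congr 1
      ring
    · rw [h4, h2]

theorem line {V : Type*} {T : SimpleGraph V} (hT : T.IsTree) {ℓ : ℤ → V}
    (hadj : ∀ i, T.Adj (ℓ i) (ℓ (i + 1))) (hne : ∀ i, ℓ i ≠ ℓ (i + 2)) (i j : ℤ) :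
    T.dist (ℓ i) (ℓ j) = (i - j).natAbs := by
  rcases le_total i j with h | h
  · obtain ⟨n, rfl⟩ := Int.le.dest h
    rw [(line_nat hT hadj hne i n).1]
    omega
  · obtain ⟨n, rfl⟩ := Int.le.dest h
    rw [SimpleGraph.dist_comm, (line_nat hT hadj hne j n).1]
    omega

/-! ### The exponent of `τ` -/

/-- exponent sum of `τ` -/
noncomputable def ex : G →* Multiplicative ℤ :=
  HNNExtension.lift 1 (Multiplicative.ofAdd 1) (by intro a; simp)

theorem ex_ι (x : A) : ex (ι x) = 1 := by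
  rw [ex, ι, HNNExtension.lift_of]; rfl

theorem ex_τ : ex τ = Multiplicative.ofAdd 1 := by
  rw [ex, τ, HNNExtension.lift_t]

theorem ex_AA {x : G} (hx : x ∈ AA) : ex x = 1 := by
  obtain ⟨y, rfl⟩ := hx
  exact ex_ι y

theorem τ_BB : τ ∈ BB := Subgroup.subset_closure (Or.inr rfl)

theorem β_N : β ∉ N := by
  rintro ⟨x, hx⟩
  have h1 : nf β = [.b] := nf_eq (by simp [Red]) (by simp [val, vl])
  have h2 : run 0 (nf β) = some 0 := by
    rw [← hx]
    have : nf (ψ x) = sub (nf x) := nf_ψ x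
    rw [this]
    exact run_sub _
  rw [h1] at h2
  simp [run, step] at h2

/-- axes -/
theorem axis {b : A} (hb : b ∉ N) {c : G} (hc : c ∈ BB) (hc' : c ∉ AA) :
    ∃ ℓ : ℤ → Vx, (∀ i j, Tr.dist (ℓ i) (ℓ j) = (i - j).natAbs) ∧
      ∀ i, (ι b * c) • ℓ i = ℓ (i + 2) := by
  set g : G := ι b * c with hg
  let base : ℤ → Vx := fun r => if r = 0 then Sum.inr ((1 : G) : G ⧸ AA) else
    Sum.inl ((ι b : G) : G ⧸ BB)
  let ℓ : ℤ → Vx := fun i => g ^ (i / 2) • base (i % 2)
  have hshift : ∀ i, g • ℓ i = ℓ (i + 2) := by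
    intro i
    have e1 : (i + 2) / 2 = 1 + i / 2 := by omega
    have e2 : (i + 2) % 2 = i % 2 := by omega
    change g • (g ^ (i / 2) • base (i % 2)) = g ^ ((i + 2) / 2) • base ((i + 2) % 2)
    rw [e1, e2, zpow_add, zpow_one]
    exact (mul_smul g (g ^ (i / 2)) (base (i % 2))).symm
  have heven : ∀ k : ℤ, ℓ (2 * k) = g ^ k • Sum.inr ((1 : G) : G ⧸ AA) := by
    intro k
    have e1 : (2 * k) / 2 = k := by omega
    have e2 : (2 * k) % 2 = 0 := by omega
    simp only [ℓ, base]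
    rw [e1, e2, if_pos rfl]
  have hodd : ∀ k : ℤ, ℓ (2 * k + 1) = g ^ k • Sum.inl ((ι b : G) : G ⧸ BB) := by
    intro k
    have e1 : (2 * k + 1) / 2 = k := by omega
    have e2 : (2 * k + 1) % 2 = 1 := by omega
    simp only [ℓ, base]
    rw [e1, e2, if_neg one_ne_zero]
  have h01 : Tr.Adj (Sum.inr ((1 : G) : G ⧸ AA)) (Sum.inl ((ι b : G) : G ⧸ BB)) := by
    apply SimpleGraph.Adj.symm
    apply CosetTree.adj_inl_inr.2
    refine ⟨ι b, rfl, ?_⟩
    rw [QuotientGroup.eq, inv_one, one_mul]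
    exact ⟨b, rfl⟩
  have h12 : Tr.Adj (Sum.inl ((ι b : G) : G ⧸ BB)) (g • Sum.inr ((1 : G) : G ⧸ AA)) := by
    rw [smul_inr, mul_one]
    apply CosetTree.adj_inl_inr.2
    refine ⟨g, ?_, rfl⟩
    rw [QuotientGroup.eq, hg, inv_mul_cancel_left]
    exact hc
  have n1 : (Sum.inr ((1 : G) : G ⧸ AA) : Vx) ≠ g • Sum.inr ((1 : G) : G ⧸ AA) := by
    intro h
    rw [smul_inr, mul_one, inr_eq, inv_one, one_mul] at h
    apply hc'
    have : c = (ι b)⁻¹ * g := by rw [hg, inv_mul_cancel_left]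
    rw [this]
    exact AA.mul_mem (AA.inv_mem ⟨b, rfl⟩) h
  have n2 : (Sum.inl ((ι b : G) : G ⧸ BB) : Vx) ≠ g • Sum.inl ((ι b : G) : G ⧸ BB) := by
    intro h
    rw [smul_inl, inl_eq, hg, mul_assoc, inv_mul_cancel_left] at h
    apply hb
    apply mem_BB_of_A.1
    have : ι b = c⁻¹ * (c * ι b) := by rw [inv_mul_cancel_left]
    rw [this]
    exact BB.mul_mem (BB.inv_mem hc) h
  refine ⟨ℓ, ?_, hshift⟩
  apply line isTreeAction.isTree
  · intro i
    rcases Int.even_or_odd' i with ⟨k, rfl | rfl⟩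
    · rw [heven, hodd]
      exact isTreeAction.adj_smul _ _ _ h01
    · have e : 2 * k + 1 + 1 = 2 * (k + 1) := by ring
      rw [e, heven, hodd, zpow_add, zpow_one, mul_smul]
      exact isTreeAction.adj_smul _ _ _ h12
  · intro i
    rw [← hshift]
    rcases Int.even_or_odd' i with ⟨k, rfl | rfl⟩
    · rw [heven, ← mul_smul, ← zpow_one_add, add_comm, zpow_add, zpow_one, mul_smul]
      intro h
      exact n1 (smul_left_cancel _ h)
    · rw [hodd, ← mul_smul, ← zpow_one_add, add_comm, zpow_add, zpow_one, mul_smul]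
      intro h
      exact n2 (smul_left_cancel _ h)

theorem shift_zpow {ℓ : ℤ → Vx} {g : G} (h : ∀ i, g • ℓ i = ℓ (i + 2)) {ε : ℤ}
    (hε : ε = 1 ∨ ε = -1) (i : ℤ) : g ^ ε • ℓ i = ℓ (i + 2 * ε) := by
  rcases hε with rfl | rfl
  · rw [zpow_one, mul_one]; exact h i
  · rw [zpow_neg_one, inv_smul_eq_iff, h]
    congr 1
    ring

/-- an element fixing a ray has finite order -/
theorem ray {r : ℕ → Vx} (hr : ∀ i j : ℕ, Tr.dist (r i) (r j) = ((i : ℤ) - j).natAbs) {x : G}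
    (hx : ∀ i, x • r i = r i) : ex x = 1 := by
  have hadj : ∀ i, Tr.Adj (r i) (r (i + 1)) := by
    intro i
    rw [← SimpleGraph.dist_eq_one_iff_adj, hr]
    omega
  have hne : ∀ i, r i ≠ r (i + 2) := by
    intro i h
    have h1 := hr i (i + 2)
    rw [← h, SimpleGraph.dist_self] at h1
    omega
  have key : ∃ i, {g : G | g • r i = r i ∧ g • r (i + 1) = r (i + 1) ∧
      g • r (i + 2) = r (i + 2)}.encard ≤ 9 := by
    rcases h0 : r 0 with y | y
    · exact ⟨0, seg ⟨y, h0⟩ (hadj 0) (hadj 1) (hne 0)⟩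
    · refine ⟨1, seg ?_ (hadj 1) (hadj 2) (hne 1)⟩
      rcases h1 : r 1 with z | z
      · exact ⟨z, rfl⟩
      · have := hadj 0
        rw [h0, zero_add, h1] at this
        exact absurd this CosetTree.not_adj_inr_inr
  obtain ⟨i, hi⟩ := key
  by_contra hex
  have hfix : ∀ n j : ℕ, x ^ n • r j = r j := by
    intro n j
    induction n with
    | zero => rw [pow_zero, one_smul]
    | succ n ih => rw [pow_succ, mul_smul, hx, ih]
  have hsub : Set.range (fun n : ℕ => x ^ n) ⊆ {g : G | g • r i = r i ∧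
      g • r (i + 1) = r (i + 1) ∧ g • r (i + 2) = r (i + 2)} := by
    rintro _ ⟨n, rfl⟩
    exact ⟨hfix n _, hfix n _, hfix n _⟩
  have hinj : Function.Injective (fun n : ℕ => x ^ n) := by
    intro m n hmn
    have h1 : ex x ^ m = ex x ^ n := by
      rw [← map_pow, ← map_pow]
      exact congrArg ex hmn
    have h2 : (m : ℤ) * Multiplicative.toAdd (ex x) = n * Multiplicative.toAdd (ex x) := by
      have := congrArg Multiplicative.toAdd h1
      simpa using this
    have h3 : Multiplicative.toAdd (ex x) ≠ 0 := hex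
    exact_mod_cast mul_right_cancel₀ h3 h2
  have hinf := Set.infinite_range_of_injective hinj
  have h4 := (Set.encard_le_encard hsub).trans hi
  rw [hinf.encard_eq] at h4
  exact absurd h4 (by simp)

theorem isNonElementary : IsNonElementary G Tr := by
  have h2AA : τ * τ ∉ AA := by
    intro h
    have h1 := ex_AA h
    rw [map_mul, ex_τ] at h1
    exact absurd h1 (by decide)
  obtain ⟨ℓ, h1, h2⟩ := axis β_N τ_BB τ_not_AA
  obtain ⟨ℓ', h1', h2'⟩ := axis β_N (BB.mul_mem τ_BB τ_BB) h2AA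
  refine ⟨ι β * τ, ι β * (τ * τ), ℓ, ℓ', ⟨h1, 2, by norm_num, h2⟩, ⟨h1', 2, by norm_num, h2'⟩, ?_⟩
  rintro ⟨ε, ε', hε, hε', m, n, h⟩
  have hx := ray (r := fun k : ℕ => ℓ (m + ε * k)) (x := ((ι β * (τ * τ)) ^ ε')⁻¹ * (ι β * τ) ^ ε)
    (by
      intro i j
      rw [h1]
      rcases hε with rfl | rfl <;> omega)
    (by
      intro i
      rw [mul_smul, shift_zpow h2 hε, inv_smul_eq_iff]
      have e1 : m + ε * i + 2 * ε = m + ε * ((i + 2 : ℕ) : ℤ) := by push_cast; ring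
      have e2 : n + ε' * i + 2 * ε' = n + ε' * ((i + 2 : ℕ) : ℤ) := by push_cast; ring
      rw [e1, h, h, shift_zpow h2' hε', e2])
  rw [map_mul, map_inv, map_zpow, map_zpow, map_mul, map_mul, map_mul, ex_ι, ex_τ, one_mul,
    one_mul] at hx
  rcases hε with rfl | rfl <;> rcases hε' with rfl | rfl <;> exact absurd hx (by decide)

end Pool.Agent.Work.MP_172f05_al.NonEl
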