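import Mathlib
import Pool.Agent.Work.MP_29a457_al.TreeGeom

/-!
# Fixed points of pairs of elliptic elements, edge crossings
(helper94, for MP_172f05_al)
-/

namespace Pool.Agent.Work.MP_172f05_al.TreeFix

open SimpleGraph Pool.Agent.Work.MP_29a457_al.TreeGeom

variable {V : Type*} {T : SimpleGraph V}

/-- `m` lies between `x` and `y` -/
def Btw (T : SimpleGraph V) (x m y : V) : Prop := T.dist x y = T.dist x m + T.dist m y

theorem Btw.symm {x m y : V} (h : Btw T x m y) : Btw T y m x := by
  unfold Btw at *
  rw [T.dist_comm (u := y) (v := x), T.dist_comm (u := y) (v := m), T.dist_comm (u := m) (v := x), h,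
    add_comm]

theorem btw_unique (hT : T.IsTree) {x m m' y : V} (h : Btw T x m y) (h' : Btw T x m' y)
    (hd : T.dist x m = T.dist x m') : m = m' := by
  unfold Btw at *
  have h0 : T.dist m m' = 0 := by
    rcases between_sep hT h m' with h1 | h1
    · omega
    · rw [T.dist_comm (u := y) (v := m'), T.dist_comm (u := y) (v := m)] at h1
      omega
  exact hT.connected.dist_eq_zero_iff.1 h0

/-- points at every distance -/
theorem exists_point (hT : T.IsTree) (x y : V) (k : ℕ) (hk : k ≤ T.dist x y) :
    ∃ m, T.dist x m = k ∧ Btw T x m y := by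
  induction k with
  | zero => exact ⟨x, by simp, by simp [Btw]⟩
  | succ k ih =>
    obtain ⟨m, hm, hb⟩ := ih (by omega)
    unfold Btw at hb
    have hne : y ≠ m := by
      rintro rfl
      rw [T.dist_self] at hb
      omega
    obtain ⟨p, hp, hpd⟩ := exists_closer hT hne
    have h1 : T.dist m p = 1 := dist_eq_one_iff_adj.2 hp
    have t1 : T.dist x p ≤ T.dist x m + T.dist m p := hT.connected.dist_triangle
    have t2 : T.dist x y ≤ T.dist x p + T.dist p y := hT.connected.dist_triangle
    rw [T.dist_comm (u := y) (v := m), T.dist_comm (u := y) (v := p)] at hpd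
    exact ⟨p, by omega, by unfold Btw; omega⟩

/-- medians -/
theorem exists_median (hT : T.IsTree) (x y z : V) :
    ∃ m, Btw T x m y ∧ Btw T x m z ∧ Btw T y m z := by
  classical
  have hex : ∃ r : ℕ, ∃ m, Btw T x m y ∧ T.dist m z = r := ⟨_, x, by simp [Btw], rfl⟩
  obtain ⟨m, hm, hr⟩ := Nat.find_spec hex
  have hmin : ∀ m', Btw T x m' y → T.dist m z ≤ T.dist m' z := by
    intro m' hm'
    rw [hr]
    exact Nat.find_min' hex ⟨m', hm', rfl⟩
  -- symmetric statement
  have key : ∀ x y : V, Btw T x m y → (∀ m', Btw T x m' y → T.dist m z ≤ T.dist m' z) →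
      Btw T x m z → Btw T y m z := by
    intro x y hm hmin h1
    by_contra hno
    have hmy : y ≠ m := by
      rintro rfl
      exact hno (by simp [Btw])
    obtain ⟨p, hp, hpd⟩ := exists_closer hT hmy
    have e1 : T.dist m p = 1 := dist_eq_one_iff_adj.2 hp
    rw [T.dist_comm (u := y) (v := m), T.dist_comm (u := y) (v := p)] at hpd
    unfold Btw at hm h1
    have t1 : T.dist x p ≤ T.dist x m + T.dist m p := hT.connected.dist_triangle
    have t2 : T.dist x y ≤ T.dist x p + T.dist p y := hT.connected.dist_triangle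
    have hb : Btw T x p y := by unfold Btw; omega
    have h2 := hmin p hb
    have hz : T.dist z m = T.dist z p + 1 ∨ T.dist z p = T.dist z m + 1 := by
      rcases hT.dist_eq_dist_add_one_of_adj z hp with h | h
      · exact Or.inl h
      · exact Or.inr h
    rw [T.dist_comm (u := z) (v := m), T.dist_comm (u := z) (v := p)] at hz
    unfold Btw at hb hno
    rw [T.dist_comm (u := y) (v := m)] at hno
    rcases between_sep hT hb z with h3 | h3
    · omega
    · rw [T.dist_comm (u := y) (v := p)] at h3
      omega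
  rcases between_sep hT hm z with h | h
  · exact ⟨m, hm, h, key x y hm hmin h⟩
  · refine ⟨m, hm, key y x hm.symm (fun m' hm' => hmin m' hm'.symm) h, h⟩

/-- concatenation of geodesics -/
theorem btw_chain (hT : T.IsTree) {x p q y : V} (h1 : Btw T x p q) (h2 : Btw T p q y)
    (hpq : p ≠ q) : Btw T x q y := by
  have h0 : T.dist p q ≠ 0 := fun h => hpq (hT.connected.dist_eq_zero_iff.1 h)
  unfold Btw at *
  rcases between_sep hT h2 x with h | h
  · rw [T.dist_comm (u := p) (v := x), T.dist_comm (u := q) (v := x)] at h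
    omega
  · rw [T.dist_comm (u := y) (v := x), T.dist_comm (u := y) (v := q),
      T.dist_comm (u := q) (v := x)] at h
    omega

section action

variable {G : Type*} [Group G] [MulAction G V]

theorem btw_smul (hadj : ∀ (g : G) (u v : V), T.Adj u v → T.Adj (g • u) (g • v)) (g : G)
    {x m y : V} (h : Btw T x m y) : Btw T (g • x) (g • m) (g • y) := by
  unfold Btw at *
  rw [dist_smul hadj, dist_smul hadj, dist_smul hadj, h]

/-- the fixed point set is convex -/
theorem fix_btw (hT : T.IsTree) (hadj : ∀ (g : G) (u v : V), T.Adj u v → T.Adj (g • u) (g • v))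
    {g : G} {x m y : V} (hx : g • x = x) (hy : g • y = y) (h : Btw T x m y) : g • m = m := by
  have h1 := btw_smul hadj g h
  rw [hx, hy] at h1
  refine (btw_unique hT h h1 ?_).symm
  have := dist_smul hadj g x m
  rw [hx] at this
  exact this.symm

/-- The nearest fixed point is a gate. -/
theorem gate (hT : T.IsTree) (hadj : ∀ (g : G) (u v : V), T.Adj u v → T.Adj (g • u) (g • v))
    {u : G} {p q : V} (hp : u • p = p) (hmin : ∀ x : V, u • x = x → T.dist p q ≤ T.dist x q)
    {x : V} (hx : u • x = x) : Btw T x p q := by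
  obtain ⟨m, h1, h2, h3⟩ := exists_median hT x p q
  have hm := fix_btw hT hadj hx hp h1
  have h4 := hmin m hm
  unfold Btw at h3
  have h0 : T.dist p m = 0 := by omega
  have : p = m := hT.connected.dist_eq_zero_iff.1 h0
  rw [this]
  exact h2

/-- Rotation about the nearest fixed point. -/
theorem rotate (hT : T.IsTree) (hadj : ∀ (g : G) (u v : V), T.Adj u v → T.Adj (g • u) (g • v))
    {u : G} {p q : V} (hp : u • p = p) (hmin : ∀ x : V, u • x = x → T.dist p q ≤ T.dist x q) :
    Btw T q p (u • q) := by
  obtain ⟨m, h1, h2, h3⟩ := exists_median hT p q (u • q)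
  -- `m` between `p`, `q`; `p`, `u q`; `q`, `u q`
  have h4 := btw_smul hadj u h1
  rw [hp] at h4
  have h5 : T.dist p m = T.dist p (u • m) := by
    have := dist_smul hadj u p m
    rw [hp] at this
    exact this.symm
  have h6 : m = u • m := btw_unique hT h2 h4 h5
  have h7 := hmin m h6.symm
  unfold Btw at h1
  have h0 : T.dist p m = 0 := by omega
  have : p = m := hT.connected.dist_eq_zero_iff.1 h0
  rw [this]
  exact h3

/-- Distance between the fixed point sets of `u` and of `(v u) v (v u)⁻¹`. -/
theorem triple (hT : T.IsTree) (hadj : ∀ (g : G) (u v : V), T.Adj u v → T.Adj (g • u) (g • v))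
    {u v : G} {p q : V} (hp : u • p = p) (hq : v • q = q) (hpq : p ≠ q)
    (hmin : ∀ x y : V, u • x = x → v • y = y → T.dist p q ≤ T.dist x y)
    {x z : V} (hx : u • x = x) (hz : (v * u * v * (v * u)⁻¹) • z = z) :
    3 * T.dist p q ≤ T.dist x z := by
  obtain ⟨y, rfl⟩ : ∃ y, z = (v * u) • y := ⟨(v * u)⁻¹ • z, (smul_inv_smul (v * u) z).symm⟩
  have hy : v • y = y := by
    rw [← mul_smul, inv_mul_cancel_right, mul_smul (v * u) v y] at hz
    exact smul_left_cancel _ hz
  have m1 : ∀ x : V, u • x = x → T.dist p q ≤ T.dist x q := fun x hx => hmin x q hx hq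
  have m2 : ∀ y : V, v • y = y → T.dist q p ≤ T.dist y p := fun y hy => by
    rw [T.dist_comm (u := q) (v := p), T.dist_comm (u := y) (v := p)]
    exact hmin p y hp hy
  have c1 : Btw T x p q := gate hT hadj hp m1 hx
  have c2 : Btw T p q (v • p) := rotate hT hadj hq m2
  have c3 : Btw T q (v • p) ((v * u) • q) := by
    have := btw_smul hadj v (rotate hT hadj hp m1)
    rwa [hq, ← mul_smul] at this
  have c4 : Btw T (v • p) ((v * u) • q) ((v * u) • y) := by
    have := btw_smul hadj (v * u) (gate hT hadj hq m2 hy).symm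
    rwa [mul_smul v u p, hp] at this
  have d2 : Btw T x q (v • p) := btw_chain hT c1 c2 hpq
  have n2 : q ≠ v • p := by
    intro h
    apply hpq
    have : v • q = v • p := by rw [hq]; exact h
    exact (smul_left_cancel _ this).symm
  have d3 : Btw T x (v • p) ((v * u) • q) := btw_chain hT d2 c3 n2
  have n3 : v • p ≠ (v * u) • q := by
    intro h
    apply hpq
    rw [mul_smul] at h
    have h1 := smul_left_cancel _ h
    have : u • p = u • q := by rw [hp]; exact h1
    exact smul_left_cancel _ this
  have d4 : Btw T x ((v * u) • q) ((v * u) • y) := btw_chain hT d3 c4 n3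
  have e1 : T.dist q (v • p) = T.dist p q := by
    have := dist_smul hadj v q p
    rw [hq] at this
    rw [this, T.dist_comm]
  have e2 : T.dist (v • p) ((v * u) • q) = T.dist p q := by
    have := dist_smul hadj (v * u) p q
    rwa [mul_smul v u p, hp] at this
  unfold Btw at c1 d2 d3 d4
  omega

theorem exists_min_pair (u v : G) (hu : ∃ x : V, u • x = x) (hv : ∃ x : V, v • x = x) :
    ∃ p q : V, u • p = p ∧ v • q = q ∧
      ∀ x y : V, u • x = x → v • y = y → T.dist p q ≤ T.dist x y := by
  classical
  obtain ⟨x, hx⟩ := hu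
  obtain ⟨y, hy⟩ := hv
  have hex : ∃ r : ℕ, ∃ p q : V, u • p = p ∧ v • q = q ∧ T.dist p q = r :=
    ⟨_, x, y, hx, hy, rfl⟩
  obtain ⟨p, q, hp, hq, hr⟩ := Nat.find_spec hex
  refine ⟨p, q, hp, hq, fun x y hx hy => ?_⟩
  rw [hr]
  exact Nat.find_min' hex ⟨x, y, hx, hy, rfl⟩

/-- An element of finite order fixes a vertex. -/
theorem fix_of_finite_order (hT : T.IsTree)
    (hadj : ∀ (g : G) (u v : V), T.Adj u v → T.Adj (g • u) (g • v))
    (hinv : ∀ (g : G) (u v : V), T.Adj u v → ¬ (g • u = v ∧ g • v = u))
    (g : G) (n : ℕ) (hn : 0 < n) (hg : g ^ n = 1) : ∃ v : V, g • v = v := by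
  by_contra hno
  push Not at hno
  obtain ⟨v, hv⟩ := exists_displacement hT hadj hinv g hno
  have := hv n
  rw [hg, one_smul, T.dist_self] at this
  omega

/-- If `a`, `b` have order three and `t` commutes with `a` and conjugates `b₁ = (ba) b (ba)⁻¹` to
`(b₁a) b₁ (b₁a)⁻¹`, then `a` and `b` have a common fixed vertex in every tree action. -/
theorem common_fixed (hT : T.IsTree)
    (hadj : ∀ (g : G) (u v : V), T.Adj u v → T.Adj (g • u) (g • v))
    (hinv : ∀ (g : G) (u v : V), T.Adj u v → ¬ (g • u = v ∧ g • v = u))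
    (a b t b₁ : G) (ha : a ^ 3 = 1) (hb : b ^ 3 = 1) (hb₁ : b₁ = b * a * b * (b * a)⁻¹)
    (hta : t * a * t⁻¹ = a) (htb : t * b₁ * t⁻¹ = b₁ * a * b₁ * (b₁ * a)⁻¹) :
    ∃ v : V, a • v = v ∧ b • v = v := by
  have fa := fix_of_finite_order (T := T) hT hadj hinv a 3 (by norm_num) ha
  have fb := fix_of_finite_order (T := T) hT hadj hinv b 3 (by norm_num) hb
  have fb₁ : ∃ x : V, b₁ • x = x := by
    obtain ⟨x, hx⟩ := fb
    refine ⟨(b * a) • x, ?_⟩
    rw [hb₁, ← mul_smul, inv_mul_cancel_right, mul_smul (b * a) b x, hx]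
  obtain ⟨p, q, hp, hq, hmin⟩ := exists_min_pair (T := T) a b₁ fa fb₁
  have hpq : p = q := by
    by_contra hne
    have h1 := triple hT hadj hp hq hne hmin (x := t • p) (z := t • q)
      (by
        have : a * t = t * a := by
          have h := hta
          rw [mul_inv_eq_iff_eq_mul] at h
          exact h.symm
        rw [← mul_smul, this, mul_smul, hp])
      (by
        rw [← htb, ← mul_smul, inv_mul_cancel_right, mul_smul, hq])
    rw [dist_smul hadj] at h1
    have h0 : T.dist p q ≠ 0 := fun h => hne (hT.connected.dist_eq_zero_iff.1 h)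
    omega
  subst hpq
  obtain ⟨p', q', hp', hq', hmin'⟩ := exists_min_pair (T := T) a b fa fb
  have hpq' : p' = q' := by
    by_contra hne
    have h1 := triple hT hadj hp' hq' hne hmin' (x := p) (z := p) hp (by rw [← hb₁]; exact hq)
    rw [T.dist_self] at h1
    have h0 : T.dist p' q' ≠ 0 := fun h => hne (hT.connected.dist_eq_zero_iff.1 h)
    omega
  subst hpq'
  exact ⟨p', hp', hq'⟩

end action

/-- The only edge joining the two sides of an edge of a tree is that edge. -/
theorem cross (hT : T.IsTree) {x y z w : V} (hxy : T.Adj x y) (hzw : T.Adj z w)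
    (hz : T.dist z y = T.dist z x + 1) (hw : T.dist w x = T.dist w y + 1) : z = x ∧ w = y := by
  have h1 : T.dist z w = 1 := dist_eq_one_iff_adj.2 hzw
  have t1 : T.dist z y ≤ T.dist z w + T.dist w y := hT.connected.dist_triangle
  have t2 : T.dist w x ≤ T.dist w z + T.dist z x := hT.connected.dist_triangle
  have s1 := T.dist_comm (u := w) (v := z)
  have hk : T.dist z x = T.dist w y := by omega
  rcases Nat.eq_zero_or_pos (T.dist z x) with h0 | hpos
  · exact ⟨hT.connected.dist_eq_zero_iff.1 h0, hT.connected.dist_eq_zero_iff.1 (by omega)⟩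
  · exfalso
    have hne : x ≠ z := by
      rintro rfl
      simp at hpos
    obtain ⟨p, hp, hpd⟩ := exists_closer hT hne
    have h2 : T.dist z p = 1 := dist_eq_one_iff_adj.2 hp
    have s2 := T.dist_comm (u := x) (v := z)
    have s3 := T.dist_comm (u := x) (v := p)
    have s4 := T.dist_comm (u := y) (v := z)
    have s5 := T.dist_comm (u := y) (v := p)
    have s6 := T.dist_comm (u := y) (v := w)
    have t3 : T.dist z y ≤ T.dist z p + T.dist p y := hT.connected.dist_triangle
    have t4 : T.dist p y ≤ T.dist p x + T.dist x y := hT.connected.dist_triangle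
    have t5 : T.dist w y ≤ T.dist w x + T.dist x y := hT.connected.dist_triangle
    have hxy1 : T.dist x y = 1 := dist_eq_one_iff_adj.2 hxy
    have hpy : T.dist y z = T.dist y p + 1 := by omega
    have hwy : T.dist y z = T.dist y w + 1 := by omega
    have hpw : p = w := unique_closer hT hp hzw hpy hwy
    subst hpw
    omega

end Pool.Agent.Work.MP_172f05_al.TreeFix
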