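import Mathlib
import Pool.Agent.Work.MP_172f05_al.Defs
import Pool.Agent.Work.MP_172f05_al.Hnn
import Pool.Agent.Work.MP_172f05_al.TreeFix

/-!
# `A` is elliptic in every action of `G` on a tree
(helper94)
-/

namespace Pool.Agent.Work.MP_172f05_al.Ell

open FP Psi Hnn

/-- In every action of `G` on a tree, the subgroup `ι(A)` fixes a vertex. -/
theorem elliptic {V : Type*} [MulAction G V] {T : SimpleGraph V} (hT : IsTreeAction G T) :
    ∃ v : V, ∀ x : A, ι x • v = v := by
  have e0 : ψ β = β * α * β * (β * α)⁻¹ := by rw [ψ_β]; rfl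
  have e1 : ψ (ψ β) = ψ β * α * ψ β * (ψ β * α)⁻¹ := by
    conv_lhs => rw [e0]
    simp only [map_mul, map_inv, ψ_α]
  obtain ⟨v, hv1, hv2⟩ := TreeFix.common_fixed hT.isTree hT.adj_smul hT.no_inversion
    (ι α) (ι β) τ (ι (ψ β))
    (by rw [← map_pow, α3, map_one])
    (by rw [← map_pow, β3, map_one])
    (by rw [e0]; simp only [map_mul, map_inv])
    (by rw [τ_conj α_N, ψ_α])
    (by rw [τ_conj (ψ_N β), e1]; simp only [map_mul, map_inv])
  refine ⟨v, fun x => ?_⟩
  have := closure_top ((MulAction.stabilizer G v).comap ι) hv1 hv2 x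
  exact this

end Pool.Agent.Work.MP_172f05_al.Ell
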