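import Mathlib
import Pool.Agent.Work.MP_29a457_al.TreeGeom

/-!
# Basic facts on Cayley graphs
(helper94, for MP_172f05_al)
-/

namespace Pool.Agent.Work.MP_172f05_al.Cay

open SimpleGraph

variable {G : Type*} [Group G] {S : Set G}

theorem adj_mul (g u v : G) (h : (mulCayley S).Adj u v) :
    (mulCayley S).Adj (g • u) (g • v) := by
  rw [smul_eq_mul, smul_eq_mul]
  exact mulCayley_adj_mul_iff_right.2 h

theorem dist_mul (g u v : G) : (mulCayley S).dist (g * u) (g * v) = (mulCayley S).dist u v :=
  Pool.Agent.Work.MP_29a457_al.TreeGeom.dist_smul (T := mulCayley S) (fun g u v h => adj_mul g u v h) g u v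

theorem reach_mul (u s : G) (hs : s ∈ S) : (mulCayley S).Reachable u (u * s) := by
  by_cases h : u = u * s
  · rw [← h]
  · exact ((mulCayley_adj' S u (u * s)).2 ⟨h, s, hs, Or.inl rfl⟩).reachable

theorem connected (hS : Subgroup.closure S = ⊤) : (mulCayley S).Connected := by
  have key : ∀ g : G, (mulCayley S).Reachable 1 g := by
    intro g
    have hg : g ∈ Subgroup.closure S := by rw [hS]; trivial
    refine Subgroup.closure_induction_right (G := G) (s := S)
      (p := fun x _ => (mulCayley S).Reachable 1 x) (Reachable.refl _) ?_ ?_ hg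
    · intro x _ y hy hx
      exact hx.trans (reach_mul x y hy)
    · intro x _ y hy hx
      refine hx.trans ?_
      have := (reach_mul (x * y⁻¹) y hy).symm
      rwa [inv_mul_cancel_right] at this
  exact ⟨fun x y => (key x).symm.trans (key y)⟩

theorem norm_mul (hS : Subgroup.closure S = ⊤) (g h : G) :
    (mulCayley S).dist 1 (g * h) ≤ (mulCayley S).dist 1 g + (mulCayley S).dist 1 h := by
  have h1 : (mulCayley S).dist 1 (g * h) ≤ (mulCayley S).dist 1 g + (mulCayley S).dist g (g * h) :=
    (connected hS).dist_triangle
  have h2 := dist_mul (S := S) g 1 h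
  rw [mul_one] at h2
  omega

theorem norm_inv (g : G) : (mulCayley S).dist 1 g⁻¹ = (mulCayley S).dist 1 g := by
  have h2 := dist_mul (S := S) g 1 g⁻¹
  rw [mul_one, mul_inv_cancel, dist_comm] at h2
  exact h2.symm

theorem dist_eq_norm (g h : G) : (mulCayley S).dist g h = (mulCayley S).dist 1 (g⁻¹ * h) := by
  have h2 := dist_mul (S := S) g⁻¹ g h
  rw [inv_mul_cancel] at h2
  exact h2.symm

theorem ball_finite (hS : Subgroup.closure S = ⊤) (hf : S.Finite) (n : ℕ) :
    {g : G | (mulCayley S).dist 1 g ≤ n}.Finite := by
  induction n with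
  | zero =>
    apply (Set.finite_singleton (1 : G)).subset
    intro g hg
    have h0 : (mulCayley S).dist 1 g = 0 := Nat.le_zero.mp hg
    exact ((connected hS).dist_eq_zero_iff.1 h0).symm
  | succ n ih =>
    apply (ih.union (ih.mul (hf.union hf.inv))).subset
    intro g hg
    rcases Nat.lt_or_ge ((mulCayley S).dist 1 g) (n + 1) with h | h
    · left
      exact Nat.lt_succ_iff.mp h
    · right
      have hg' : (mulCayley S).dist g 1 = n + 1 := by
        rw [dist_comm]
        exact le_antisymm hg h
      obtain ⟨p, hp⟩ := (connected hS).exists_walk_length_eq_dist g 1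
      rw [hg'] at hp
      cases p with
      | nil => simp at hp
      | @cons _ v _ hadj q =>
        have hv : (mulCayley S).dist 1 v ≤ n := by
          rw [dist_comm]
          have := dist_le q
          rw [Walk.length_cons] at hp
          omega
        refine ⟨v, hv, v⁻¹ * g, ?_, by simp⟩
        rcases ((mulCayley_adj S g v).1 hadj).2 with h1 | h1
        · right
          rw [Set.mem_inv]
          simpa using h1
        · left
          exact h1

end Pool.Agent.Work.MP_172f05_al.Cay
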