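import Mathlib
import Pool.Agent.Work.MP_172f05_al.Defs
import Pool.Agent.Work.MP_172f05_al.Hnn
import Pool.Agent.Work.MP_172f05_al.Cay

/-!
# Subgroups between `H` and `N` are not quasi-convex
(helper94)
-/

namespace Pool.Agent.Work.MP_172f05_al.NotQC

open FP Psi Hnn SimpleGraph Cay

theorem nf_β : nf β = [Lt.b] := nf_eq (by simp [Red]) (by simp [val, vl])

theorem nb_iter (k : ℕ) : nb (nf (ψ^[k] β)) = 3 ^ k := by
  induction k with
  | zero => simp [nf_β, nb]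
  | succ k ih => rw [Function.iterate_succ_apply', nb_ψ, ih]; ring

theorem len_iter (k : ℕ) : 4 * 3 ^ (k + 1) ≤ len (ψ (ψ (ψ^[k] β))) := by
  rw [len_ψ_eq, nb_ψ, nb_iter]
  have : 3 ^ (k + 1) = 3 * 3 ^ k := by ring
  omega

theorem iter_mem (k : ℕ) : ψ (ψ (ψ^[k] β)) ∈ H := mem_H.2 ⟨_, rfl⟩

theorem norm_iter {S : Set G} (hS : Subgroup.closure S = ⊤) (k : ℕ) :
    (mulCayley S).dist 1 (ι (ψ (ψ (ψ^[k] β)))) ≤
      (mulCayley S).dist 1 (ι (ψ (ψ β))) + k * (2 * (mulCayley S).dist 1 τ) := by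
  induction k with
  | zero => simp
  | succ k ih =>
    have e : ι (ψ (ψ (ψ^[k + 1] β))) = τ * ι (ψ (ψ (ψ^[k] β))) * τ⁻¹ := by
      rw [τ_conj (ψ_N _), Function.iterate_succ_apply']
    rw [e]
    have h1 := norm_mul hS (τ * ι (ψ (ψ (ψ^[k] β)))) τ⁻¹
    have h2 := norm_mul hS τ (ι (ψ (ψ (ψ^[k] β))))
    rw [Cay.norm_inv] at h1
    have h3 : (k + 1) * (2 * (mulCayley S).dist 1 τ) =
        k * (2 * (mulCayley S).dist 1 τ) + 2 * (mulCayley S).dist 1 τ := by ring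
    omega

theorem arith (n : ℕ) : n * (n + 1) < 12 * 3 ^ n := by
  induction n with
  | zero => simp
  | succ n ih =>
    have h1 : n < 3 ^ n := Nat.lt_pow_self (by norm_num)
    have h2 : 3 ^ (n + 1) = 3 * 3 ^ n := by ring
    nlinarith

/-- A quasi-convex subgroup inside `ι A` is undistorted in `A`. -/
theorem undistorted (E : Subgroup G) (h2 : E ≤ N.map ι) {S : Set G} (hf : S.Finite)
    (hS : Subgroup.closure S = ⊤) {R : ℕ}
    (hR : ∀ x ∈ E, ∀ y ∈ E, ∀ p : (mulCayley S).Walk x y, p.length = (mulCayley S).dist x y →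
      ∀ v ∈ p.support, ∃ h ∈ E, (mulCayley S).dist v h ≤ R) :
    ∃ C : ℕ, ∀ x : A, ι x ∈ E → len x ≤ C * ((mulCayley S).dist 1 (ι x) + 1) := by
  have hfin : {x : A | (mulCayley S).dist 1 (ι x) ≤ 2 * R + 1}.Finite :=
    (ball_finite hS hf (2 * R + 1)).preimage ι_injective.injOn
  obtain ⟨C, hC⟩ := (hfin.image len).bddAbove
  have hC' : ∀ x : A, (mulCayley S).dist 1 (ι x) ≤ 2 * R + 1 → len x ≤ C :=
    fun x hx => hC ⟨x, hx, rfl⟩
  have hc := connected hS
  refine ⟨C, fun x hx => ?_⟩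
  obtain ⟨p, hp⟩ := hc.exists_walk_length_eq_dist 1 (ι x)
  have key : ∀ i ≤ p.length, ∃ y : A, ι y ∈ E ∧ (mulCayley S).dist (p.getVert i) (ι y) ≤ R ∧
      len y ≤ C * i := by
    intro i
    induction i with
    | zero =>
      intro _
      refine ⟨1, by rw [map_one]; exact E.one_mem, ?_, ?_⟩
      · rw [p.getVert_zero, map_one, SimpleGraph.dist_self]; omega
      · rw [len_one]; omega
    | succ i ih =>
      intro hi
      obtain ⟨y, hy1, hy2, hy3⟩ := ih (by omega)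
      obtain ⟨h, hh1, hh2⟩ := hR 1 E.one_mem (ι x) hx p hp (p.getVert (i + 1))
        (p.getVert_mem_support _)
      obtain ⟨z, _, rfl⟩ := h2 hh1
      have hadj : (mulCayley S).dist (p.getVert i) (p.getVert (i + 1)) = 1 :=
        dist_eq_one_iff_adj.2 (p.adj_getVert_succ (by omega))
      have t1 : (mulCayley S).dist (ι y) (ι z) ≤
          (mulCayley S).dist (ι y) (p.getVert i) + (mulCayley S).dist (p.getVert i) (ι z) :=
        hc.dist_triangle
      have t2 : (mulCayley S).dist (p.getVert i) (ι z) ≤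
          (mulCayley S).dist (p.getVert i) (p.getVert (i + 1)) +
            (mulCayley S).dist (p.getVert (i + 1)) (ι z) := hc.dist_triangle
      have s1 := (mulCayley S).dist_comm (u := ι y) (v := p.getVert i)
      have h3 := hC' (y⁻¹ * z) (by
        rw [map_mul, map_inv, ← Cay.dist_eq_norm]
        omega)
      refine ⟨z, hh1, hh2, ?_⟩
      have h4 := len_mul y (y⁻¹ * z)
      rw [mul_inv_cancel_left] at h4
      have : C * (i + 1) = C * i + C := by ring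
      omega
  obtain ⟨y, hy1, hy2, hy3⟩ := key p.length le_rfl
  rw [p.getVert_length] at hy2
  have h3 := hC' (y⁻¹ * x) (by
    rw [map_mul, map_inv, ← Cay.dist_eq_norm, dist_comm]
    omega)
  have h4 := len_mul y (y⁻¹ * x)
  rw [mul_inv_cancel_left] at h4
  rw [hp] at hy3
  have : C * ((mulCayley S).dist 1 (ι x) + 1) = C * (mulCayley S).dist 1 (ι x) + C := by ring
  omega

theorem not_quasiconvex (E : Subgroup G) (h1 : H.map ι ≤ E) (h2 : E ≤ N.map ι) :
    ¬ IsQuasiconvex E := by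
  rintro ⟨S, hf, hS, R, hR⟩
  obtain ⟨C, hC⟩ := undistorted E h2 hf hS hR
  obtain ⟨a, ha⟩ : ∃ a, a = (mulCayley S).dist 1 (ι (ψ (ψ β))) := ⟨_, rfl⟩
  obtain ⟨b, hb⟩ : ∃ b, b = (mulCayley S).dist 1 τ := ⟨_, rfl⟩
  obtain ⟨M, hM⟩ : ∃ M, M = C * (a + 2 * b + 1) := ⟨_, rfl⟩
  have h3 := hC (ψ (ψ (ψ^[M] β))) (h1 ⟨_, iter_mem M, rfl⟩)
  have h4 := norm_iter hS M
  have h5 := len_iter M
  rw [← ha, ← hb] at h4
  have h6 : C * ((mulCayley S).dist 1 (ι (ψ (ψ (ψ^[M] β)))) + 1) ≤ M * (M + 1) := by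
    calc C * ((mulCayley S).dist 1 (ι (ψ (ψ (ψ^[M] β)))) + 1)
        ≤ C * (a + M * (2 * b) + 1) := Nat.mul_le_mul_left _ (by omega)
      _ ≤ C * ((a + 2 * b + 1) * (M + 1)) := by
          apply Nat.mul_le_mul_left
          nlinarith [Nat.zero_le (M * a), Nat.zero_le M, Nat.zero_le b]
      _ = M * (M + 1) := by rw [← mul_assoc, ← hM]
  have h7 := arith M
  have h8 : 4 * 3 ^ (M + 1) = 12 * 3 ^ M := by ring
  omega

end Pool.Agent.Work.MP_172f05_al.NotQC
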