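import Mathlib
import Pool.Agent.Work.MP_172f05_al.Amal
import Pool.Agent.Work.MP_172f05_al.Ell
import Pool.Agent.Work.MP_172f05_al.NotQC
import Pool.Agent.Work.MP_172f05_al.Slim
import Pool.Agent.Work.MP_29a457_al.TreeGeom

/-!
# No quasi-convex splitting dominates the action
(helper94)
-/

namespace Pool.Agent.Work.MP_172f05_al.NotDom

open FP Psi Hnn Amal SimpleGraph TreeFix
open Pool.Agent.Work.MP_29a457_al

theorem β_not_N : β ∉ N := by
  rintro ⟨x, hx⟩
  have h := nb_ψ x
  rw [hx, NotQC.nf_β] at h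
  simp only [nb] at h
  omega

/-- the vertex of `A` -/
noncomputable abbrev vA : Vx := Sum.inr ((1 : G) : G ⧸ AA)
/-- the vertex of `B` -/
noncomputable abbrev vB : Vx := Sum.inl ((1 : G) : G ⧸ BB)

theorem smul_inr (g x : G) : g • (Sum.inr (x : G ⧸ AA) : Vx) = Sum.inr ((g * x : G) : G ⧸ AA) := rfl
theorem smul_inl (g x : G) : g • (Sum.inl (x : G ⧸ BB) : Vx) = Sum.inl ((g * x : G) : G ⧸ BB) := rfl

theorem fix_vA {g : G} (h : g • vA = vA) : g ∈ AA := by
  rw [smul_inr] at h
  have := Sum.inr_injective h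
  rw [QuotientGroup.eq] at this
  have h2 := AA.inv_mem this
  simpa using h2

theorem fix_vB {g : G} (h : g • vB = vB) : g ∈ BB := by
  rw [smul_inl] at h
  have := Sum.inl_injective h
  rw [QuotientGroup.eq] at this
  have h2 := BB.inv_mem this
  simpa using h2

theorem τ_mem_BB : τ ∈ BB := Subgroup.subset_closure (Or.inr rfl)

theorem adj_vA_vB : Tr.Adj vA vB := (CosetTree.adj_inl_inr.2 ⟨1, rfl, rfl⟩).symm

/-- `A` fixes only its own vertex. -/
theorem fixed_eq {v : Vx} (hv : ∀ x : A, ι x • v = v) : v = vA := by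
  by_contra hne
  obtain ⟨p, hp, hpd⟩ := TreeGeom.exists_closer isTreeAction.isTree hne
  have hadj1 : Tr.dist vA p = 1 := dist_eq_one_iff_adj.2 hp
  have hb : Btw Tr v p vA := by
    unfold TreeFix.Btw
    rw [Tr.dist_comm (u := p) (v := vA)]
    omega
  have hfix : ∀ x : A, ι x • p = p := by
    intro x
    refine fix_btw isTreeAction.isTree isTreeAction.adj_smul (hv x) ?_ hb
    rw [smul_inr]
    congr 1
    rw [QuotientGroup.eq]
    have : ι x ∈ AA := ⟨x, rfl⟩
    have := AA.inv_mem this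
    simpa using this
  rcases p with p | p
  swap
  · exact CosetTree.not_adj_inr_inr hp
  obtain ⟨g, hg1, hg2⟩ := CosetTree.adj_inl_inr.1 hp.symm
  subst hg1
  rw [QuotientGroup.eq, inv_one, one_mul] at hg2
  obtain ⟨y, rfl⟩ := hg2
  have h := hfix (y * β * y⁻¹)
  rw [smul_inl] at h
  have h1 := Sum.inl_injective h
  rw [QuotientGroup.eq] at h1
  have h2 : (ι (y * β * y⁻¹) * ι y)⁻¹ * ι y = ι β⁻¹ := by
    rw [← map_mul, ← map_inv, ← map_mul]
    congr 1
    group
  rw [h2, mem_BB_of_A] at h1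
  exact β_not_N (by simpa using N.inv_mem h1)

theorem not_dominated {V' : Type*} [MulAction G V'] {T' : SimpleGraph V'}
    (hT' : IsTreeAction G T')
    (hq : ∀ u v : V', T'.Adj u v → IsQuasiconvex (edgeStabilizer G u v)) :
    ¬ Dominates G T' Tr := by
  classical
  rintro ⟨f, _, hf, hmor⟩
  obtain ⟨a, ha⟩ := Ell.elliptic hT'
  have hfa : f a = vA := fixed_eq (fun x => by rw [← hf, ha])
  have hT := isTreeAction.isTree
  obtain ⟨p, hp⟩ := hT'.isTree.connected.exists_walk_length_eq_dist a (τ • a)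
  -- the side of a vertex
  have side : ∀ v : Vx, Tr.dist v vA = Tr.dist v vB + 1 ∨ Tr.dist v vB = Tr.dist v vA + 1 :=
    fun v => hT.dist_eq_dist_add_one_of_adj v adj_vA_vB
  have hend : Tr.dist (f (p.getVert p.length)) vA = Tr.dist (f (p.getVert p.length)) vB + 1 := by
    rw [p.getVert_length, hf, hfa]
    have h1 : Tr.dist (τ • vA) vB = 1 := by
      apply dist_eq_one_iff_adj.2
      have : τ • vB = vB := by
        rw [smul_inl]
        congr 1
        rw [QuotientGroup.eq]
        have := BB.inv_mem τ_mem_BB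
        simpa using this
      have h2 := isTreeAction.adj_smul τ _ _ adj_vA_vB
      rwa [this] at h2
    rcases side (τ • vA) with h | h
    · exact h
    · exfalso
      have h0 : Tr.dist (τ • vA) vA = 0 := by omega
      exact τ_not_AA (fix_vA (hT.connected.dist_eq_zero_iff.1 h0))
  have hex : ∃ i, i ≤ p.length ∧ Tr.dist (f (p.getVert i)) vA = Tr.dist (f (p.getVert i)) vB + 1 :=
    ⟨_, le_rfl, hend⟩
  obtain ⟨i, hi, hmin⟩ : ∃ i, (i ≤ p.length ∧
      Tr.dist (f (p.getVert i)) vA = Tr.dist (f (p.getVert i)) vB + 1) ∧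
      ∀ j < i, ¬ (j ≤ p.length ∧ Tr.dist (f (p.getVert j)) vA = Tr.dist (f (p.getVert j)) vB + 1) :=
    ⟨Nat.find hex, Nat.find_spec hex, fun j hj => Nat.find_min hex hj⟩
  obtain ⟨k, rfl⟩ : ∃ k, i = k + 1 := by
    cases i with
    | zero =>
      exfalso
      have h2 := hi.2
      rw [p.getVert_zero, hfa, SimpleGraph.dist_self] at h2
      omega
    | succ k => exact ⟨k, rfl⟩
  have hk := hmin k (by omega)
  have hk' : Tr.dist (f (p.getVert k)) vB = Tr.dist (f (p.getVert k)) vA + 1 := by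
    rcases side (f (p.getVert k)) with h | h
    · exact absurd ⟨by omega, h⟩ hk
    · exact h
  have hadj : T'.Adj (p.getVert k) (p.getVert (k + 1)) := p.adj_getVert_succ (by omega)
  have hfadj : Tr.Adj (f (p.getVert k)) (f (p.getVert (k + 1))) := by
    rcases hmor _ _ hadj with h | h
    · exact h
    · exfalso
      have h2 := hi.2
      rw [← h] at h2
      omega
  obtain ⟨e1, e2⟩ := cross hT adj_vA_vB hfadj hk' hi.2
  -- the edge stabiliser
  have between : ∀ j ≤ p.length, Btw T' a (p.getVert j) (τ • a) := by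
    intro j hj
    have g := Slim.isGeo_getVert T' hT'.isTree.connected p hp
    have g1 := g 0 j (by omega) hj
    have g2 := g j p.length hj le_rfl
    rw [p.getVert_zero] at g1
    rw [p.getVert_length] at g2
    unfold TreeFix.Btw
    omega
  refine NotQC.not_quasiconvex (edgeStabilizer G (p.getVert k) (p.getVert (k + 1))) ?_ ?_
    (hq _ _ hadj)
  · rintro _ ⟨h, hh, rfl⟩
    obtain ⟨x, rfl⟩ := mem_H.1 hh
    have f1 : ι (ψ (ψ x)) • a = a := ha _
    have f2 : ι (ψ (ψ x)) • (τ • a) = τ • a := by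
      rw [← mul_smul, ψψ_τ, mul_smul, ha]
    exact ⟨fix_btw hT'.isTree hT'.adj_smul f1 f2 (between k (by omega)),
      fix_btw hT'.isTree hT'.adj_smul f1 f2 (between (k + 1) (by omega))⟩
  · rintro g ⟨hg1, hg2⟩
    have hg1' : g • p.getVert k = p.getVert k := hg1
    have hg2' : g • p.getVert (k + 1) = p.getVert (k + 1) := hg2
    have h1 : g • vA = vA := by rw [← e1, ← hf, hg1']
    have h2 : g • vB = vB := by rw [← e2, ← hf, hg2']
    obtain ⟨x, rfl⟩ := fix_vA h1
    exact ⟨x, mem_BB_of_A.1 (fix_vB h2), rfl⟩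

end Pool.Agent.Work.MP_172f05_al.NotDom
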